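import Pool.Agent.Lib.MP_935088_an.EX.Stm

/-! Piece [EX A0]: strong limits of contractions. -/

open MeasureTheory Filter Topology Finset

namespace Pool.Agent.Exo

theorem p_A0 : S_A0 := by
  intro B _ _ _ T D hT hD hlim
  have hTn : ∀ n g, ‖T n g‖ ≤ ‖g‖ := by
    intro n g
    calc ‖T n g‖ ≤ ‖T n‖ * ‖g‖ := (T n).le_opNorm g
      _ ≤ 1 * ‖g‖ := mul_le_mul_of_nonneg_right (hT n) (norm_nonneg g)
      _ = ‖g‖ := one_mul _
  have hC : ∀ g, ∃ h, Tendsto (fun n => T n g) atTop (𝓝 h) := by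
    intro g
    apply cauchySeq_tendsto_of_complete
    rw [Metric.cauchySeq_iff]
    intro ε hε
    obtain ⟨h, hh, hgh⟩ := Metric.dense_iff.mp hD g (ε / 3) (by positivity)
    have hgh' : ‖g - h‖ < ε / 3 := by
      rw [Metric.mem_ball, dist_eq_norm, ← norm_neg, neg_sub] at hh
      exact hh
    obtain ⟨L, hL⟩ := hlim h hgh
    obtain ⟨N, hN⟩ := Metric.cauchySeq_iff.mp hL.cauchySeq (ε / 3) (by positivity)
    refine ⟨N, fun m hm n hn => ?_⟩
    have h1 := hN m hm n hn
    rw [dist_eq_norm] at h1 ⊢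
    have h2 : T m g - T n g = T m (g - h) + (T m h - T n h) - T n (g - h) := by
      rw [map_sub, map_sub]; abel
    rw [h2]
    have h3 := hTn m (g - h)
    have h4 := hTn n (g - h)
    calc ‖T m (g - h) + (T m h - T n h) - T n (g - h)‖
        ≤ ‖T m (g - h) + (T m h - T n h)‖ + ‖T n (g - h)‖ := norm_sub_le _ _
      _ ≤ ‖T m (g - h)‖ + ‖T m h - T n h‖ + ‖T n (g - h)‖ := by
          gcongr; exact norm_add_le _ _
      _ < ε := by linarith
  choose f hf using hC
  have hf' : Tendsto (fun n x => T n x) atTop (𝓝 f) := tendsto_pi_nhds.mpr hf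
  refine ⟨continuousLinearMapOfTendsto T hf', ?_, fun g => hf g⟩
  refine ContinuousLinearMap.opNorm_le_bound _ zero_le_one fun g => ?_
  rw [one_mul]
  exact le_of_tendsto (hf g).norm (Eventually.of_forall fun n => hTn n g)

end Pool.Agent.Exo
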