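import Pool.Agent.Lib.MP_935088_an.EX.Stm

set_option autoImplicit false

open MeasureTheory Filter Topology Finset

namespace Pool.Agent.Exo

theorem p_A1 : S_A1 := by
  intro B _ _ _ Av hAv r n hr
  set a : ℝ := 1 + r * n with ha
  have hn0 : (0 : ℝ) ≤ r * n := mul_nonneg hr (Nat.cast_nonneg n)
  have ha0 : 0 < a := by linarith
  set M : B →L[ℝ] B := r • ∑ i ∈ range n, Av i with hM
  set T : B →L[ℝ] B := a⁻¹ • M with hT
  have hMn : ‖M‖ ≤ r * n := by
    rw [hM, norm_smul, Real.norm_of_nonneg hr]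
    refine mul_le_mul_of_nonneg_left ?_ hr
    refine (norm_sum_le _ _).trans ?_
    calc ∑ i ∈ range n, ‖Av i‖ ≤ ∑ i ∈ range n, (1 : ℝ) := Finset.sum_le_sum fun i _ => hAv i
      _ = n := by simp
  have hTn : ‖T‖ < 1 := by
    rw [hT, norm_smul, norm_inv, Real.norm_of_nonneg ha0.le]
    rw [inv_mul_lt_iff₀ ha0]
    linarith
  have hone : (1 + r • ∑ i ∈ range n, (1 - Av i) : B →L[ℝ] B) = a • (1 - T) := by
    rw [hT, smul_sub, smul_smul, mul_inv_cancel₀ ha0.ne', one_smul, hM, Finset.sum_sub_distrib,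
      smul_sub, ha, add_smul]
    simp only [Finset.sum_const, Finset.card_range, one_smul, mul_smul]
    rw [← Nat.cast_smul_eq_nsmul ℝ n (1 : B →L[ℝ] B)]
    abel
  have hs : Summable fun m : ℕ => T ^ m := summable_geometric_of_norm_lt_one hTn
  have h1 : (∑' m : ℕ, T ^ m) * (1 - T) = 1 := geom_series_mul_neg T hTn
  have h2 : (1 - T) * (∑' m : ℕ, T ^ m) = 1 := mul_neg_geom_series T hTn
  set G : B →L[ℝ] B := ∑' m : ℕ, T ^ m with hG
  have e1 : (a⁻¹ • G) * (1 + r • ∑ i ∈ range n, (1 - Av i)) = 1 := by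
    rw [hone, smul_mul_smul_comm, inv_mul_cancel₀ ha0.ne', one_smul, h1]
  have e2 : (1 + r • ∑ i ∈ range n, (1 - Av i)) * (a⁻¹ • G) = 1 := by
    rw [hone, smul_mul_smul_comm, mul_inv_cancel₀ ha0.ne', one_smul, h2]
  refine ⟨a⁻¹ • G, ?_, e1, e2, ?_⟩
  · refine ContinuousLinearMap.opNorm_le_bound _ zero_le_one fun g => ?_
    rw [one_mul]
    set h : B := (a⁻¹ • G) g with hh
    have hg : h + r • ∑ i ∈ range n, (h - Av i h) = g := by
      have h0 : (1 + r • ∑ i ∈ range n, (1 - Av i) : B →L[ℝ] B) h = g := by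
        have := congrArg (fun L : B →L[ℝ] B => L g) e2
        exact this
      rw [← h0]
      simp only [ContinuousLinearMap.add_apply, ContinuousLinearMap.smul_apply,
        ContinuousLinearMap.sum_apply, ContinuousLinearMap.sub_apply,
        ContinuousLinearMap.one_apply]
    have hsum : (∑ i ∈ range n, (h - Av i h)) = (n : ℝ) • h - ∑ i ∈ range n, Av i h := by
      rw [Finset.sum_sub_distrib]; simp [Nat.cast_smul_eq_nsmul]
    have hav : ‖∑ i ∈ range n, Av i h‖ ≤ n * ‖h‖ := by
      refine (norm_sum_le _ _).trans ?_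
      calc ∑ i ∈ range n, ‖Av i h‖ ≤ ∑ i ∈ range n, ‖h‖ := Finset.sum_le_sum fun i _ => by
            have := (Av i).le_opNorm h
            have h3 := mul_le_mul_of_nonneg_right (hAv i) (norm_nonneg h)
            linarith
        _ = n * ‖h‖ := by simp
    have hg2 : a • h = g + r • ∑ i ∈ range n, Av i h := by
      have : a • h = h + r • ((n : ℝ) • h) := by rw [ha, add_smul, one_smul, mul_smul]
      rw [this, ← hg, hsum, smul_sub]
      abel
    have h4 : a * ‖h‖ ≤ ‖g‖ + r * (n * ‖h‖) := by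
      have h5 : ‖a • h‖ = a * ‖h‖ := by rw [norm_smul, Real.norm_of_nonneg ha0.le]
      rw [← h5, hg2]
      refine (norm_add_le _ _).trans ?_
      rw [norm_smul, Real.norm_of_nonneg hr]
      have := mul_le_mul_of_nonneg_left hav hr
      linarith
    have : a * ‖h‖ = ‖h‖ + r * (n * ‖h‖) := by rw [ha]; ring
    linarith
  · intro W hW hinv g hg
    have hMW : ∀ g ∈ W, T g ∈ W := by
      intro g hg
      have : T g = a⁻¹ • (r • ∑ i ∈ range n, Av i g) := by
        rw [hT, hM]; simp
      rw [this]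
      exact W.smul_mem _ (W.smul_mem _ (W.sum_mem fun i _ => hinv i g hg))
    have hpow : ∀ m : ℕ, ∀ g ∈ W, (T ^ m) g ∈ W := by
      intro m
      induction m with
      | zero => intro g hg; simpa using hg
      | succ m ih =>
        intro g hg
        have : (T ^ (m + 1)) g = (T ^ m) (T g) := by rw [pow_succ]; rfl
        rw [this]
        exact ih _ (hMW g hg)
    have hsum : HasSum (fun m : ℕ => (T ^ m) g) (G g) := by
      have := hs.hasSum.mapL (ContinuousLinearMap.apply ℝ B g)
      simpa using this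
    have : G g ∈ W := by
      refine hW.mem_of_tendsto hsum.tendsto_sum_nat (Eventually.of_forall fun N => ?_)
      exact W.sum_mem fun m _ => hpow m g hg
    have h6 : (a⁻¹ • G) g = a⁻¹ • G g := rfl
    rw [h6]
    exact W.smul_mem _ this

end Pool.Agent.Exo
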