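import Pool.Agent.Lib.MP_935088_an.EX.Stm

/-!
# A2: the resolvents of the number operator
-/

set_option autoImplicit false

open MeasureTheory Filter Topology Finset

namespace Pool.Agent.Exo

private lemma A2_comm {B : Type} [NormedAddCommGroup B] [NormedSpace ℝ B] {T a S : B →L[ℝ] B}
    {r : ℝ} (h : T * a = a * T) (h1 : S * (1 + r • a) = 1) (h2 : (1 + r • a) * S = 1) :
    T * S = S * T := by
  have h3 : T * (1 + r • a) = (1 + r • a) * T := by
    rw [mul_add, add_mul, mul_one, one_mul, mul_smul_comm, smul_mul_assoc, h]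
  calc T * S = (S * (1 + r • a)) * (T * S) := by rw [h1, one_mul]
    _ = S * ((1 + r • a) * T) * S := by simp only [mul_assoc]
    _ = S * (T * (1 + r • a)) * S := by rw [h3]
    _ = S * T * ((1 + r • a) * S) := by simp only [mul_assoc]
    _ = S * T := by rw [h2, mul_one]

private lemma A2_left {B : Type} [NormedAddCommGroup B] [NormedSpace ℝ B] {a S : B →L[ℝ] B}
    {r : ℝ} (h2 : (1 + r • a) * S = 1) : 1 - S = r • (a * S) := by
  have h : S + r • (a * S) = 1 := by rw [← h2, add_mul, one_mul, smul_mul_assoc]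
  rw [← h, add_sub_cancel_left]

private lemma A2_right {B : Type} [NormedAddCommGroup B] [NormedSpace ℝ B] {a S : B →L[ℝ] B}
    {r : ℝ} (h1 : S * (1 + r • a) = 1) : 1 - S = r • (S * a) := by
  have h : S + r • (S * a) = 1 := by rw [← h1, mul_add, mul_one, mul_smul_comm]
  rw [← h, add_sub_cancel_left]

private lemma A2_step {B : Type} [NormedAddCommGroup B] [NormedSpace ℝ B] {a S S' : B →L[ℝ] B}
    {r r' : ℝ} (hr : r = 4 * r') (h1 : S * (1 + r • a) = 1) (h2' : (1 + r' • a) * S' = 1) :
    S' - S = (3 : ℝ) • (S * (1 - S')) := by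
  have e2 : S' = S * S' + r • (S * (a * S')) := by
    calc S' = (S * (1 + r • a)) * S' := by rw [h1, one_mul]
      _ = S * S' + r • (S * (a * S')) := by
        rw [mul_add, mul_one, add_mul, mul_smul_comm, smul_mul_assoc, mul_assoc]
  have e3 : S = S * S' + r' • (S * (a * S')) := by
    calc S = S * ((1 + r' • a) * S') := by rw [h2', mul_one]
      _ = S * S' + r' • (S * (a * S')) := by
        rw [add_mul, one_mul, mul_add, smul_mul_assoc, mul_smul_comm]
  rw [A2_left h2', mul_smul_comm, smul_smul]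
  calc S' - S = (S * S' + r • (S * (a * S'))) - (S * S' + r' • (S * (a * S'))) :=
        congrArg₂ (fun x y => x - y) e2 e3
    _ = (r - r') • (S * (a * S')) := by rw [add_sub_add_left_eq_sub, sub_smul]
    _ = (3 * r') • (S * (a * S')) := by
        congr 1
        rw [hr]
        ring

private lemma A2_dec {B : Type} [NormedAddCommGroup B] [NormedSpace ℝ B] {a S S' : B →L[ℝ] B}
    {r r' c : ℝ} (hr : r' = c * r) (h2 : (1 + r • a) * S = 1) (h1' : S' * (1 + r' • a) = 1) :
    (1 - S') * S = c • (S' * (1 - S)) := by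
  rw [A2_left h2, A2_right h1', smul_mul_assoc, mul_smul_comm, smul_smul, ← hr, mul_assoc]

theorem p_A2 (hA0 : S_A0) (hA1 : S_A1) : S_A2 := by
  intro B _ _ _ Av hAv
  -- the operators of A1
  have hr0 : ∀ k : ℕ, (0 : ℝ) ≤ (1 / 4 : ℝ) ^ k := fun k => by positivity
  choose S hS1 hSl hSr hSW using fun k n : ℕ => hA1 B Av hAv.norm ((1 / 4 : ℝ) ^ k) n (hr0 k)
  -- commutation
  have hAvA : ∀ i n, Av i * (∑ j ∈ range n, (1 - Av j)) = (∑ j ∈ range n, (1 - Av j)) * Av i := by
    intro i n
    rw [Finset.mul_sum, Finset.sum_mul]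
    refine Finset.sum_congr rfl fun j _ => ?_
    rw [mul_sub, sub_mul, mul_one, one_mul, hAv.comm i j]
  have hAvS : ∀ i k n, Av i * S k n = S k n * Av i := fun i k n =>
    A2_comm (hAvA i n) (hSl k n) (hSr k n)
  have hSA : ∀ k n, S k n * (∑ j ∈ range n, (1 - Av j)) = (∑ j ∈ range n, (1 - Av j)) * S k n := by
    intro k n
    rw [Finset.mul_sum, Finset.sum_mul]
    refine Finset.sum_congr rfl fun j _ => ?_
    rw [mul_sub, sub_mul, mul_one, one_mul, hAvS j k n]
  have hSS : ∀ k l n, S k n * S l n = S l n * S k n := fun k l n =>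
    A2_comm (hSA k n) (hSl l n) (hSr l n)
  -- levels
  have hlevAv : ∀ (m i : ℕ) (g : B), (∀ i, m ≤ i → Av i g = g) → ∀ j, m ≤ j →
      Av j (Av i g) = Av i g := by
    intro m i g hg j hj
    have h := congrArg (fun T : B →L[ℝ] B => T g) (hAv.comm j i)
    simp only [ContinuousLinearMap.mul_apply] at h
    rw [h, hg j hj]
  have hlevS : ∀ (k m n : ℕ) (g : B), (∀ i, m ≤ i → Av i g = g) → ∀ j, m ≤ j →
      Av j (S k n g) = S k n g := by
    intro k m n g hg j hj
    have h := congrArg (fun T : B →L[ℝ] B => T g) (hAvS j k n)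
    simp only [ContinuousLinearMap.mul_apply] at h
    rw [h, hg j hj]
  have hA : ∀ (m n : ℕ) (g : B), (∀ i, m ≤ i → Av i g = g) → m ≤ n →
      (∑ j ∈ range n, (1 - Av j)) g = (∑ j ∈ range m, (1 - Av j)) g := by
    intro m n g hg hmn
    rw [ContinuousLinearMap.sum_apply, ContinuousLinearMap.sum_apply]
    symm
    refine Finset.sum_subset (Finset.range_subset_range.mpr hmn) ?_
    intro j _ hj2
    have hj3 : m ≤ j := by simpa using hj2
    simp [hg j hj3]
  have hconst : ∀ (k m n : ℕ) (g : B), (∀ i, m ≤ i → Av i g = g) → m ≤ n →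
      S k n g = S k m g := by
    intro k m n g hg hmn
    have h1 : (1 + (1 / 4 : ℝ) ^ k • ∑ j ∈ range n, (1 - Av j)) (S k m g) = g := by
      have h2 := congrArg (fun T : B →L[ℝ] B => T g) (hSr k m)
      simp only [ContinuousLinearMap.mul_apply, ContinuousLinearMap.one_apply,
        ContinuousLinearMap.add_apply, ContinuousLinearMap.smul_apply] at h2
      simp only [ContinuousLinearMap.one_apply,
        ContinuousLinearMap.add_apply, ContinuousLinearMap.smul_apply]
      rw [hA m n (S k m g) (hlevS k m m g hg) hmn]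
      exact h2
    have h3 := congrArg (fun T : B →L[ℝ] B => T (S k m g)) (hSl k n)
    simp only [ContinuousLinearMap.mul_apply, ContinuousLinearMap.one_apply] at h3
    rw [h1] at h3
    exact h3
  have htend : ∀ (k m : ℕ) (g : B), (∀ i, m ≤ i → Av i g = g) →
      Tendsto (fun n => S k n g) atTop (𝓝 (S k m g)) := by
    intro k m g hg
    refine tendsto_const_nhds.congr' ?_
    filter_upwards [eventually_ge_atTop m] with n hn
    exact (hconst k m n g hg hn).symm
  -- the limits
  choose R hR1 hR2 using fun k : ℕ => hA0 B (fun n => S k n) {g : B | ∃ m, ∀ i, m ≤ i → Av i g = g}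
    (fun n => hS1 k n) hAv.dens (fun g hg => by
      obtain ⟨m, hm⟩ := hg
      exact ⟨S k m g, htend k m g hm⟩)
  have hRS : ∀ (k m : ℕ) (g : B), (∀ i, m ≤ i → Av i g = g) → R k g = S k m g := by
    intro k m g hg
    exact tendsto_nhds_unique (hR2 k g) (htend k m g hg)
  have hext : ∀ T1 T2 : B →L[ℝ] B, (∀ (m : ℕ) (g : B), (∀ i, m ≤ i → Av i g = g) →
      T1 g = T2 g) → T1 = T2 := by
    intro T1 T2 h
    have h' : (T1 : B → B) = T2 := by
      refine Continuous.ext_on hAv.dens T1.continuous T2.continuous ?_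
      rintro g ⟨m, hm⟩
      exact h m g hm
    exact DFunLike.coe_injective h'
  have hlevsub : ∀ (m : ℕ) (g h : B), (∀ i, m ≤ i → Av i g = g) → (∀ i, m ≤ i → Av i h = h) →
      ∀ i, m ≤ i → Av i (g - h) = g - h := by
    intro m g h hg hh i hi
    rw [map_sub, hg i hi, hh i hi]
  refine ⟨R, ⟨⟨hR1, ?_, ?_, ?_, ?_⟩, ?_, ?_, ?_⟩⟩
  · -- comm
    intro k l
    refine hext _ _ fun m g hg => ?_
    simp only [ContinuousLinearMap.mul_apply]
    rw [hRS l m g hg, hRS k m g hg, hRS k m _ (hlevS l m m g hg), hRS l m _ (hlevS k m m g hg)]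
    have h := congrArg (fun T : B →L[ℝ] B => T g) (hSS k l m)
    simpa only [ContinuousLinearMap.mul_apply] using h
  · -- step
    intro k
    refine hext _ _ fun m g hg => ?_
    simp only [ContinuousLinearMap.mul_apply, ContinuousLinearMap.sub_apply,
      ContinuousLinearMap.smul_apply, ContinuousLinearMap.one_apply]
    rw [hRS (k + 1) m g hg, hRS k m g hg,
      hRS k m _ (hlevsub m _ _ hg (hlevS (k + 1) m m g hg))]
    have h := congrArg (fun T : B →L[ℝ] B => T g)
      (A2_step (r := (1 / 4 : ℝ) ^ k) (r' := (1 / 4 : ℝ) ^ (k + 1)) (by ring) (hSl k m)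
        (hSr (k + 1) m))
    simpa only [ContinuousLinearMap.mul_apply, ContinuousLinearMap.sub_apply,
      ContinuousLinearMap.smul_apply, ContinuousLinearMap.one_apply] using h
  · -- dec
    intro j d
    refine hext _ _ fun m g hg => ?_
    simp only [ContinuousLinearMap.mul_apply, ContinuousLinearMap.sub_apply,
      ContinuousLinearMap.smul_apply, ContinuousLinearMap.one_apply]
    rw [hRS j m g hg, hRS (j + d + 1) m _ (hlevS j m m g hg),
      hRS (j + d + 1) m _ (hlevsub m _ _ hg (hlevS j m m g hg))]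
    have h := congrArg (fun T : B →L[ℝ] B => T g)
      (A2_dec (r := (1 / 4 : ℝ) ^ j) (r' := (1 / 4 : ℝ) ^ (j + d + 1))
        (c := (1 / 4 : ℝ) ^ (d + 1)) (by ring) (hSr j m) (hSl (j + d + 1) m))
    simpa only [ContinuousLinearMap.mul_apply, ContinuousLinearMap.sub_apply,
      ContinuousLinearMap.smul_apply, ContinuousLinearMap.one_apply] using h
  · -- lim
    have hlim1 : ∀ (m : ℕ) (g : B), (∀ i, m ≤ i → Av i g = g) →
        Tendsto (fun k => R k g) atTop (𝓝 g) := by
      intro m g hg
      rw [tendsto_iff_norm_sub_tendsto_zero]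
      have hb : ∀ k, ‖R k g - g‖ ≤ (1 / 4 : ℝ) ^ k * (‖∑ j ∈ range m, (1 - Av j)‖ * ‖g‖) := by
        intro k
        rw [hRS k m g hg]
        have h := congrArg (fun T : B →L[ℝ] B => T g) (A2_left (hSr k m))
        simp only [ContinuousLinearMap.mul_apply, ContinuousLinearMap.sub_apply,
          ContinuousLinearMap.smul_apply, ContinuousLinearMap.one_apply] at h
        rw [norm_sub_rev, h, norm_smul, Real.norm_of_nonneg (hr0 k)]
        refine mul_le_mul_of_nonneg_left ?_ (hr0 k)
        refine (ContinuousLinearMap.le_opNorm _ _).trans ?_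
        refine mul_le_mul_of_nonneg_left ?_ (norm_nonneg _)
        have h4 := ContinuousLinearMap.le_opNorm (S k m) g
        have h5 := mul_le_mul_of_nonneg_right (hS1 k m) (norm_nonneg g)
        linarith
      refine squeeze_zero (fun k => norm_nonneg _) hb ?_
      have h0 : Tendsto (fun k : ℕ => (1 / 4 : ℝ) ^ k) atTop (𝓝 0) :=
        tendsto_pow_atTop_nhds_zero_of_lt_one (by norm_num) (by norm_num)
      simpa using h0.mul_const (‖∑ j ∈ range m, (1 - Av j)‖ * ‖g‖)
    intro g
    rw [Metric.tendsto_atTop]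
    intro ε hε
    obtain ⟨h, ⟨m, hm⟩, hgh⟩ := Metric.mem_closure_iff.mp (hAv.dens g) (ε / 3) (by positivity)
    obtain ⟨N, hN⟩ := Metric.tendsto_atTop.mp (hlim1 m h hm) (ε / 3) (by positivity)
    refine ⟨N, fun k hk => ?_⟩
    have h1 := hN k hk
    have h2 : ‖R k (g - h)‖ ≤ ‖g - h‖ := by
      have h4 := ContinuousLinearMap.le_opNorm (R k) (g - h)
      have h5 := mul_le_mul_of_nonneg_right (hR1 k) (norm_nonneg (g - h))
      linarith
    rw [dist_eq_norm] at hgh h1 ⊢
    have h3 : R k g - g = R k (g - h) + (R k h - h) + (h - g) := by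
      rw [map_sub]
      abel
    rw [h3]
    have h6 := norm_add_le (R k (g - h) + (R k h - h)) (h - g)
    have h7 := norm_add_le (R k (g - h)) (R k h - h)
    rw [norm_sub_rev h g] at h6
    linarith
  · -- commutation with `Av`
    intro k i
    refine hext _ _ fun m g hg => ?_
    simp only [ContinuousLinearMap.mul_apply]
    rw [hRS k m g hg, hRS k m _ (hlevAv m i g hg)]
    have h := congrArg (fun T : B →L[ℝ] B => T g) (hAvS i k m)
    simp only [ContinuousLinearMap.mul_apply] at h
    exact h.symm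
  · -- invariant subspaces
    intro k W hW hinv g hg
    exact hW.mem_of_tendsto (hR2 k g)
      (Filter.Eventually.of_forall fun n => hSW k n W hW hinv g hg)
  · -- loc
    intro k m g hg
    rw [hRS k m g hg]
    have h2 := congrArg (fun T : B →L[ℝ] B => T g) (hSr k m)
    simp only [ContinuousLinearMap.mul_apply, ContinuousLinearMap.one_apply,
      ContinuousLinearMap.add_apply, ContinuousLinearMap.smul_apply,
      ContinuousLinearMap.sum_apply, ContinuousLinearMap.sub_apply] at h2
    exact h2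

end Pool.Agent.Exo
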