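import Pool.Agent.Lib.MP_935088_an.EX.Stm

/-! Piece [EX A3]: operators from an `ℓ₁`-sum. -/

open MeasureTheory Filter Topology Finset

namespace Pool.Agent.Exo

theorem A3_summable {B : Type} [NormedAddCommGroup B] [NormedSpace ℝ B] (F : Y B) :
    Summable (fun j => ‖F j‖) := by
  have h := (lp.memℓp F).summable (by norm_num)
  simpa using h

theorem A3_norm {B : Type} [NormedAddCommGroup B] [NormedSpace ℝ B] (F : Y B) :
    ‖F‖ = ∑' j, ‖F j‖ := by
  have h := lp.norm_eq_tsum_rpow (p := 1) (by norm_num) F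
  simpa using h

theorem p_A3 : S_A3 := by
  intro B Z _ _ _ _ _ T C hT
  have hC : 0 ≤ C := (norm_nonneg _).trans (hT 0)
  have hb : ∀ (F : Y B) (j : ℕ), ‖T j (F j)‖ ≤ C * ‖F j‖ := fun F j =>
    ((T j).le_opNorm _).trans (mul_le_mul_of_nonneg_right (hT j) (norm_nonneg _))
  have hsn : ∀ F : Y B, Summable (fun j => ‖T j (F j)‖) := fun F =>
    Summable.of_nonneg_of_le (fun _ => norm_nonneg _) (hb F) ((A3_summable F).mul_left C)
  have hs : ∀ F : Y B, Summable (fun j => T j (F j)) := fun F => (hsn F).of_norm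
  let L : Y B →ₗ[ℝ] Z :=
    { toFun := fun F => ∑' j, T j (F j)
      map_add' := by
        intro F G
        rw [← (hs F).tsum_add (hs G)]
        refine tsum_congr fun j => ?_
        rw [lp.coeFn_add, Pi.add_apply, map_add]
      map_smul' := by
        intro c F
        rw [RingHom.id_apply, ← (hs F).tsum_const_smul c]
        refine tsum_congr fun j => ?_
        rw [lp.coeFn_smul, Pi.smul_apply, map_smul] }
  have hL : ∀ F : Y B, ‖L F‖ ≤ C * ‖F‖ := by
    intro F
    calc ‖L F‖ = ‖∑' j, T j (F j)‖ := rfl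
      _ ≤ ∑' j, ‖T j (F j)‖ := norm_tsum_le_tsum_norm (hsn F)
      _ ≤ ∑' j, C * ‖F j‖ := (hsn F).tsum_le_tsum (hb F) ((A3_summable F).mul_left C)
      _ = C * ‖F‖ := by rw [tsum_mul_left, A3_norm F]
  refine ⟨L.mkContinuous C hL, L.mkContinuous_norm_le hC hL, fun F => ?_⟩
  exact (hs F).hasSum

end Pool.Agent.Exo
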