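import Pool.Agent.Lib.MP_935088_an.EX.Stm

/-!
# MP_935088_an: piece A4
-/

set_option autoImplicit false

open MeasureTheory Filter Topology Finset

namespace Pool.Agent.Exo

private theorem A4_sum {u : ℕ → ℝ} {c : ℝ} (h0 : ∀ i, 0 ≤ u i)
    (h : ∀ N, ∑ i ∈ range N, u i ≤ c) : Summable u ∧ ∑' i, u i ≤ c :=
  ⟨summable_of_sum_range_le h0 h, Real.tsum_le_of_sum_range_le h0 h⟩

private theorem A4_mem {B : Type} [NormedAddCommGroup B] {v : ℕ → B}
    (h : Summable (fun i => ‖v i‖)) : Memℓp v 1 := by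
  apply memℓp_gen
  simpa using h

private theorem A4_norm {B : Type} [NormedAddCommGroup B] (F : Y B) :
    ‖F‖ = ∑' i, ‖F i‖ := by
  rw [lp.norm_eq_tsum_rpow (by norm_num) F]
  simp

theorem p_A4 : S_A4 := by
  intro A B _ _ _ _ T C hC hT
  have hs : ∀ g : A, Summable (fun i => ‖T i g‖) ∧ ∑' i, ‖T i g‖ ≤ C * ‖g‖ := fun g =>
    A4_sum (fun i => norm_nonneg _) (hT g)
  let L : A →ₗ[ℝ] Y B :=
    { toFun := fun g => ⟨fun i => T i g, A4_mem (hs g).1⟩
      map_add' := fun g h => by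
        ext i
        exact map_add (T i) g h
      map_smul' := fun c g => by
        ext i
        simp }
  have hL : ∀ g, ‖L g‖ ≤ C * ‖g‖ := by
    intro g
    rw [A4_norm]
    exact (hs g).2
  refine ⟨L.mkContinuous C hL, LinearMap.mkContinuous_norm_le _ hC _, fun g i => rfl⟩

end Pool.Agent.Exo
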