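import Pool.Agent.Lib.MP_935088_an.EX.Stm

/-! Piece [EX A5]: norms of `U i * V j`, column sums. -/

open MeasureTheory Filter Topology Finset

namespace Pool.Agent.Exo

theorem A5_fin : ∀ j : ℕ, ∑ i ∈ range j, ((1 : ℝ) / 2) ^ (j - i) = 1 - (1 / 2) ^ j := by
  intro j
  induction j with
  | zero => simp
  | succ j ih =>
    rw [Finset.sum_range_succ]
    have h : ∑ i ∈ range j, ((1 : ℝ) / 2) ^ (j + 1 - i) = ∑ i ∈ range j, (1 / 2) * ((1 : ℝ) / 2) ^ (j - i) := by
      refine Finset.sum_congr rfl fun i hi => ?_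
      have hi' : i < j := Finset.mem_range.mp hi
      have h1 : j + 1 - i = (j - i) + 1 := by omega
      rw [h1, pow_succ]
      ring
    rw [h, ← Finset.mul_sum, ih]
    have h2 : j + 1 - j = 1 := by omega
    rw [h2, pow_succ]
    ring

theorem A5_col (j : ℕ) : Summable (fun i => cc i j) ∧ ∑' i, cc i j ≤ 12 := by
  cases j with
  | zero =>
    have h : (fun i => cc i 0) = fun i : ℕ => ((1 : ℝ) / 2) ^ i := by
      funext i
      cases i with
      | zero => simp [cc]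
      | succ i => simp [cc]
    rw [h]
    refine ⟨summable_geometric_two, ?_⟩
    rw [tsum_geometric_two]
    norm_num
  | succ j =>
    have htail : ∀ i, cc (i + (j + 1)) (j + 1) = 3 / 2 * ((1 : ℝ) / 2) ^ i := by
      intro i
      have h1 : i + (j + 1) = (i + j) + 1 := by omega
      rw [h1]
      have h2 : ¬ (i + j < j) := by omega
      have h3 : i + j - j = i := by omega
      simp only [cc, if_neg h2, h3]
    have hs' : Summable (fun i => cc (i + (j + 1)) (j + 1)) := by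
      simp only [htail]
      exact summable_geometric_two.mul_left _
    have hs : Summable (fun i => cc i (j + 1)) := (summable_nat_add_iff (j + 1)).mp hs'
    refine ⟨hs, ?_⟩
    rw [← hs.sum_add_tsum_nat_add (j + 1)]
    have ht : ∑' i, cc (i + (j + 1)) (j + 1) = 3 := by
      simp only [htail]
      rw [tsum_mul_left, tsum_geometric_two]
      norm_num
    rw [ht, Finset.sum_range_succ']
    have hf : ∑ i ∈ range j, cc (i + 1) (j + 1) = 6 * (1 - (1 / 2) ^ j) := by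
      rw [← A5_fin j, Finset.mul_sum]
      refine Finset.sum_congr rfl fun i hi => ?_
      have hi' : i < j := Finset.mem_range.mp hi
      simp only [cc, if_pos hi']
    rw [hf]
    have h0 : cc 0 (j + 1) = 3 * (1 / 2) ^ j := rfl
    rw [h0]
    have h1 : (0 : ℝ) ≤ (1 / 2) ^ j := by positivity
    linarith

theorem A5_one {B : Type} [NormedAddCommGroup B] [NormedSpace ℝ B] : ‖(1 : B →L[ℝ] B)‖ ≤ 1 :=
  ContinuousLinearMap.norm_id_le

theorem A5_two {B : Type} [NormedAddCommGroup B] [NormedSpace ℝ B] {R : ℕ → B →L[ℝ] B}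
    (h : Fam R) (k : ℕ) : ‖1 - R k‖ ≤ 2 := by
  calc ‖1 - R k‖ ≤ ‖(1 : B →L[ℝ] B)‖ + ‖R k‖ := norm_sub_le _ _
    _ ≤ 1 + 1 := add_le_add A5_one (h.norm k)
    _ = 2 := by norm_num

theorem A5_RD {B : Type} [NormedAddCommGroup B] [NormedSpace ℝ B] {R : ℕ → B →L[ℝ] B}
    (h : Fam R) (k l : ℕ) : ‖R k * (1 - R l)‖ ≤ 2 := by
  calc ‖R k * (1 - R l)‖ ≤ ‖R k‖ * ‖1 - R l‖ := norm_mul_le _ _
    _ ≤ 1 * 2 := mul_le_mul (h.norm k) (A5_two h l) (norm_nonneg _) zero_le_one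
    _ = 2 := by norm_num

theorem A5_DR {B : Type} [NormedAddCommGroup B] [NormedSpace ℝ B] {R : ℕ → B →L[ℝ] B}
    (h : Fam R) (k l : ℕ) : ‖(1 - R k) * R l‖ ≤ 2 := by
  calc ‖(1 - R k) * R l‖ ≤ ‖1 - R k‖ * ‖R l‖ := norm_mul_le _ _
    _ ≤ 2 * 1 := mul_le_mul (A5_two h k) (h.norm l) (norm_nonneg _) zero_le_two
    _ = 2 := by norm_num

theorem A5_nn {B : Type} [NormedAddCommGroup B] [NormedSpace ℝ B] (r : ℝ) (hr : 0 ≤ r)
    (T : B →L[ℝ] B) (C : ℝ) (hT : ‖T‖ ≤ C) : ‖r • T‖ ≤ r * C := by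
  rw [norm_smul, Real.norm_of_nonneg hr]
  exact mul_le_mul_of_nonneg_left hT hr

theorem A5_norm {B : Type} [NormedAddCommGroup B] [NormedSpace ℝ B] (R : ℕ → B →L[ℝ] B)
    (h : Fam R) (i j : ℕ) : ‖Uo R i * Vo R j‖ ≤ cc i j := by
  cases i with
  | zero =>
    cases j with
    | zero =>
      have h1 : Uo R 0 * Vo R 0 = R 0 := by simp [Uo, Vo]
      rw [h1]
      exact h.norm 0
    | succ j =>
      have h1 : Uo R 0 * Vo R (j + 1) = (3 * (1 / 2 : ℝ) ^ j) • R j := by simp [Uo, Vo]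
      rw [h1]
      have h2 := A5_nn (3 * (1 / 2 : ℝ) ^ j) (by positivity) (R j) 1 (h.norm j)
      rw [mul_one] at h2
      exact h2
  | succ i =>
    cases j with
    | zero =>
      have h0 := h.dec 0 i
      rw [zero_add] at h0
      have h1 : Uo R (i + 1) * Vo R 0 = ((2 : ℝ) ^ i * (1 / 4) ^ (i + 1)) • (R (i + 1) * (1 - R 0)) := by
        simp only [Uo, Vo]
        rw [smul_mul_assoc, h0, smul_smul]
      rw [h1]
      have h2 := A5_nn ((2 : ℝ) ^ i * (1 / 4) ^ (i + 1)) (by positivity) _ 2 (A5_RD h (i + 1) 0)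
      refine h2.trans (le_of_eq ?_)
      show (2 : ℝ) ^ i * (1 / 4) ^ (i + 1) * 2 = (1 / 2) ^ (i + 1)
      have h3 : ((1 : ℝ) / 4) ^ (i + 1) = (1 / 2) ^ (i + 1) * (1 / 2) ^ (i + 1) := by
        rw [← mul_pow]; norm_num
      have h4 : (2 : ℝ) ^ (i + 1) * (1 / 2) ^ (i + 1) = 1 := by
        rw [← mul_pow]; norm_num
      rw [h3]
      calc (2 : ℝ) ^ i * ((1 / 2) ^ (i + 1) * (1 / 2) ^ (i + 1)) * 2
          = (2 ^ (i + 1) * (1 / 2) ^ (i + 1)) * (1 / 2) ^ (i + 1) := by ring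
        _ = (1 / 2) ^ (i + 1) := by rw [h4, one_mul]
    | succ j =>
      have h1 : Uo R (i + 1) * Vo R (j + 1) =
          ((2 : ℝ) ^ i * (3 * (1 / 2) ^ j)) • ((1 - R (i + 1)) * R j) := by
        simp only [Uo, Vo]
        rw [smul_mul_smul_comm]
      rw [h1]
      by_cases hij : i < j
      · have h2 := A5_nn ((2 : ℝ) ^ i * (3 * (1 / 2) ^ j)) (by positivity) _ 2 (A5_DR h (i + 1) j)
        refine h2.trans (le_of_eq ?_)
        simp only [cc, if_pos hij]
        obtain ⟨d, rfl⟩ : ∃ d, j = i + d := ⟨j - i, by omega⟩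
        have h3 : i + d - i = d := by omega
        rw [h3, pow_add]
        have h4 : (2 : ℝ) ^ i * (1 / 2) ^ i = 1 := by rw [← mul_pow]; norm_num
        calc (2 : ℝ) ^ i * (3 * ((1 / 2) ^ i * (1 / 2) ^ d)) * 2
            = (2 ^ i * (1 / 2) ^ i) * (6 * (1 / 2) ^ d) := by ring
          _ = 6 * (1 / 2) ^ d := by rw [h4, one_mul]
      · obtain ⟨d, rfl⟩ : ∃ d, i = j + d := ⟨i - j, by omega⟩
        have h3 : j + d - j = d := by omega
        rw [h.dec j d, smul_smul]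
        have h2 := A5_nn ((2 : ℝ) ^ (j + d) * (3 * (1 / 2) ^ j) * (1 / 4) ^ (d + 1)) (by positivity)
          _ 2 (A5_RD h (j + d + 1) j)
        refine h2.trans (le_of_eq ?_)
        simp only [cc, if_neg hij, h3]
        have h4 : (2 : ℝ) ^ j * (1 / 2) ^ j = 1 := by rw [← mul_pow]; norm_num
        have h5 : ((1 : ℝ) / 4) ^ d = (1 / 2) ^ d * (1 / 2) ^ d := by rw [← mul_pow]; norm_num
        have h6 : (2 : ℝ) ^ d * (1 / 2) ^ d = 1 := by rw [← mul_pow]; norm_num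
        rw [pow_add, pow_succ (1 / 4 : ℝ) d, h5]
        calc (2 : ℝ) ^ j * 2 ^ d * (3 * (1 / 2) ^ j) * ((1 / 2) ^ d * (1 / 2) ^ d * (1 / 4)) * 2
            = (2 ^ j * (1 / 2) ^ j) * (2 ^ d * (1 / 2) ^ d) * (3 / 2 * (1 / 2) ^ d) := by ring
          _ = 3 / 2 * (1 / 2) ^ d := by rw [h4, h6, one_mul, one_mul]

theorem p_A5 : S_A5 := by
  refine ⟨?_, A5_col⟩
  intro B _ _ R h i j
  exact A5_norm R h i j

end Pool.Agent.Exo
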