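import Pool.Agent.Lib.MP_935088_an.EX.Stm

/-!
# MP_935088_an: piece A6
-/

set_option autoImplicit false

open MeasureTheory Filter Topology Finset

namespace Pool.Agent.Exo

private theorem A6_sum {B : Type} [NormedAddCommGroup B] (F : Y B) :
    Summable (fun i => ‖F i‖) := by
  have h := (lp.memℓp F).summable (by norm_num)
  simpa using h

private theorem A6_norm {B : Type} [NormedAddCommGroup B] [NormedSpace ℝ B]
    {R : ℕ → B →L[ℝ] B} (hR : Fam R) (j : ℕ) : ‖Vo R j‖ ≤ 3 := by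
  cases j with
  | zero =>
    show ‖R 0‖ ≤ 3
    linarith [hR.norm 0]
  | succ k =>
    show ‖(3 * (1 / 2 : ℝ) ^ k) • R k‖ ≤ 3
    have h1 : (1 / 2 : ℝ) ^ k ≤ 1 := pow_le_one₀ (by norm_num) (by norm_num)
    have h0 : (0 : ℝ) ≤ (1 / 2 : ℝ) ^ k := by positivity
    have h2 := norm_smul_le (3 * (1 / 2 : ℝ) ^ k) (R k)
    have h3 : ‖(3 * (1 / 2 : ℝ) ^ k)‖ = 3 * (1 / 2 : ℝ) ^ k := by
      rw [Real.norm_eq_abs, abs_of_nonneg (by positivity)]
    rw [h3] at h2
    have h4 := mul_le_mul_of_nonneg_left (hR.norm k) (by positivity : 0 ≤ 3 * (1 / 2 : ℝ) ^ k)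
    linarith

private theorem A6_term {B : Type} [NormedAddCommGroup B] [NormedSpace ℝ B]
    {R : ℕ → B →L[ℝ] B} (hR : Fam R) (g : B) (k : ℕ) :
    Vo R (k + 1) (Uo R (k + 1) g) = R (k + 1) g - R k g := by
  have h := congrArg (fun T : B →L[ℝ] B => T g) (hR.step k)
  have h1 : R (k + 1) g - R k g = (3 : ℝ) • (R k ((1 - R (k + 1)) g)) := h
  rw [h1]
  show (3 * (1 / 2 : ℝ) ^ k) • R k ((2 : ℝ) ^ k • (1 - R (k + 1)) g) = _
  rw [map_smul, smul_smul]
  congr 1
  rw [mul_assoc, ← mul_pow]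
  norm_num

theorem p_A6 : S_A6 := by
  intro B _ _ R hR F g hF
  have hsum : Summable (fun j => ‖Vo R j (F j)‖) := by
    refine Summable.of_nonneg_of_le (fun j => norm_nonneg _) (fun j => ?_)
      ((A6_sum F).mul_left 3)
    calc ‖Vo R j (F j)‖ ≤ ‖Vo R j‖ * ‖F j‖ := (Vo R j).le_opNorm _
      _ ≤ 3 * ‖F j‖ := mul_le_mul_of_nonneg_right (A6_norm hR j) (norm_nonneg _)
  rw [hasSum_iff_tendsto_nat_of_summable_norm hsum, ← tendsto_add_atTop_iff_nat 1]
  have key : ∀ N, ∑ j ∈ range (N + 1), Vo R j (F j) = R N g := by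
    intro N
    induction N with
    | zero =>
      rw [zero_add, sum_range_one, hF 0]
      rfl
    | succ N ih =>
      rw [sum_range_succ, ih, hF, A6_term hR]
      abel
  simp only [key]
  exact hR.lim g

end Pool.Agent.Exo
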