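import Pool.Agent.Lib.MP_935088_an.EX.Stm

/-! Piece [EX A7]: the projection. -/

open MeasureTheory Filter Topology Finset

namespace Pool.Agent.Exo

theorem A7_cc_nonneg (i j : ℕ) : 0 ≤ cc i j := by
  cases i with
  | zero => cases j with
    | zero => simp [cc]
    | succ j => simp only [cc]; positivity
  | succ i => cases j with
    | zero => simp only [cc]; positivity
    | succ j =>
      simp only [cc]
      split
      · positivity
      · positivity

theorem A7_Vo {B : Type} [NormedAddCommGroup B] [NormedSpace ℝ B] (R : ℕ → B →L[ℝ] B)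
    (h : Fam R) (j : ℕ) : ‖Vo R j‖ ≤ 3 := by
  cases j with
  | zero => exact (h.norm 0).trans (by norm_num)
  | succ j =>
    simp only [Vo]
    rw [norm_smul, Real.norm_of_nonneg (by positivity)]
    have h1 : ((1 : ℝ) / 2) ^ j ≤ 1 := pow_le_one₀ (by norm_num) (by norm_num)
    have h2 : 0 ≤ ((1 : ℝ) / 2) ^ j := by positivity
    have h3 := h.norm j
    have h4 := norm_nonneg (R j)
    calc 3 * (1 / 2 : ℝ) ^ j * ‖R j‖ ≤ 3 * 1 * 1 := by gcongr
      _ = 3 := by norm_num

theorem A7_Vsum {B : Type} [NormedAddCommGroup B] [NormedSpace ℝ B] [CompleteSpace B]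
    (R : ℕ → B →L[ℝ] B) (h : Fam R) (F : Y B) : Summable (fun j => Vo R j (F j)) := by
  have hF : Summable (fun j => ‖F j‖) := by
    have h := (lp.memℓp F).summable (by norm_num)
    simpa using h
  refine Summable.of_norm_bounded (hF.mul_left 3) fun j => ?_
  exact ((Vo R j).le_opNorm _).trans (mul_le_mul_of_nonneg_right (A7_Vo R h j) (norm_nonneg _))

theorem p_A7 (hA3 : S_A3) (hA4 : S_A4) (hA5 : S_A5) (hA6 : S_A6) : S_A7 := by
  intro B _ _ _ R h
  have hT : ∀ j, ∃ S : B →L[ℝ] Y B, ‖S‖ ≤ 12 ∧ ∀ (g : B) (i : ℕ), (S g) i = (Uo R i * Vo R j) g := by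
    intro j
    refine hA4 B B (fun i => Uo R i * Vo R j) 12 (by norm_num) fun g N => ?_
    obtain ⟨hs, ht⟩ := hA5.2 j
    calc ∑ i ∈ range N, ‖(Uo R i * Vo R j) g‖ ≤ ∑ i ∈ range N, cc i j * ‖g‖ := by
          refine Finset.sum_le_sum fun i _ => ?_
          exact ((Uo R i * Vo R j).le_opNorm g).trans
            (mul_le_mul_of_nonneg_right (hA5.1 B R h i j) (norm_nonneg _))
      _ = (∑ i ∈ range N, cc i j) * ‖g‖ := by rw [Finset.sum_mul]
      _ ≤ 12 * ‖g‖ := by
          refine mul_le_mul_of_nonneg_right ?_ (norm_nonneg _)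
          exact (hs.sum_le_tsum _ fun i _ => A7_cc_nonneg i j).trans ht
  choose T hTn hTv using hT
  obtain ⟨P, _, hP⟩ := hA3 B (Y B) T 12 hTn
  have hval : ∀ (F : Y B) (k : ℕ), (P F) k = Uo R k (∑' j, Vo R j (F j)) := by
    intro F k
    have h1 : HasSum (fun j => (T j (F j)) k) ((P F) k) :=
      (hP F).mapL (lp.evalCLM ℝ (fun _ : ℕ => B) 1 k)
    have h2 : HasSum (fun j => Uo R k (Vo R j (F j))) (Uo R k (∑' j, Vo R j (F j))) :=
      (A7_Vsum R h F).hasSum.mapL (Uo R k)
    have h3 : (fun j => (T j (F j)) k) = fun j => Uo R k (Vo R j (F j)) := by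
      funext j
      rw [hTv]
      rfl
    rw [h3] at h1
    exact h1.unique h2
  refine ⟨P, ?_, hval⟩
  ext F k
  have h1 : (P * P) F = P (P F) := rfl
  rw [h1, hval (P F) k]
  have h2 := hA6 B R h (P F) (∑' j, Vo R j (F j)) (hval F)
  rw [h2.tsum_eq, hval F k]

end Pool.Agent.Exo
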