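import Pool.Agent.Lib.MP_935088_an.EX.Stm

/-! Piece [EX B1]: `L₁[0,1]` is complemented in its bidual (dyadic martingales). -/

set_option autoImplicit false

open MeasureTheory Filter Topology Finset

namespace Pool.Agent.Exo

theorem B1_raise (hM1 : S_M1) (n m : ℕ) (f : ℕ → ℝ) :
    cylL (n + m) (fun x => f (x / 2 ^ m)) = cylL n f := by
  induction m with
  | zero => simp
  | succ m ih =>
    rw [← ih, ← hM1.2.2.2.2 (n + m) (fun x => f (x / 2 ^ m))]
    have : (fun x => f (x / 2 ^ (m + 1))) = fun x => f (x / 2 / 2 ^ m) := by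
      funext x
      rw [Nat.div_div_eq_div_mul, pow_succ']
    rw [this]
    rfl

theorem B1_floor (n : ℕ) (t : ℝ) : ⌊2 ^ n * t⌋₊ = ⌊2 ^ (n + 1) * t⌋₊ / 2 := by
  have h := Nat.floor_div_natCast (2 ^ (n + 1) * t) 2
  rw [← h]
  congr 1
  rw [pow_succ]
  push_cast
  ring

theorem B1_meas (n : ℕ) : Measurable (fun t : ℝ => ⌊2 ^ n * t⌋₊) :=
  Nat.measurable_floor.comp (measurable_const.mul measurable_id)

/-- the dyadic filtration -/
noncomputable def B1_fil : Filtration ℕ (inferInstance : MeasurableSpace ℝ) where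
  seq n := MeasurableSpace.comap (fun t : ℝ => ⌊2 ^ n * t⌋₊) ⊤
  mono' := by
    apply monotone_nat_of_le_succ
    intro n
    rintro A ⟨S, -, rfl⟩
    refine ⟨(fun x => x / 2) ⁻¹' S, MeasurableSpace.measurableSet_top, ?_⟩
    ext t
    simp only [Set.mem_preimage]
    rw [B1_floor n t]
  le' n := (B1_meas n).comap_le

theorem B1_memLp (n : ℕ) (f : ℕ → ℝ) : Integrable (cyl n f) lam :=
  memLp_one_iff_integrable.1 (cyl_memLp n f)

theorem B1_int_nonneg (hM1 : S_M1) (n : ℕ) (f : ℕ → ℝ) (hf : ∀ x, 0 ≤ f x) :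
    ∫ t, cyl n f t ∂lam = (∑ x ∈ range (2 ^ n), f x) / 2 ^ n := by
  have h := hM1.2.2.1 n f
  rw [L1.norm_eq_integral_norm] at h
  have h2 : ∫ t, ‖(cylL n f : E) t‖ ∂lam = ∫ t, cyl n f t ∂lam := by
    apply integral_congr_ae
    filter_upwards [(cyl_memLp n f).coeFn_toLp] with t ht
    show ‖(cylL n f : E) t‖ = cyl n f t
    unfold cylL
    rw [ht, Real.norm_eq_abs, abs_of_nonneg]
    exact hf _
  rw [← h2, h]
  unfold l1
  congr 1
  exact sum_congr rfl fun x _ => abs_of_nonneg (hf x)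

theorem B1_int (hM1 : S_M1) (n : ℕ) (f : ℕ → ℝ) :
    ∫ t, cyl n f t ∂lam = (∑ x ∈ range (2 ^ n), f x) / 2 ^ n := by
  have h1 := B1_int_nonneg hM1 n (fun x => f x + |f x|) (fun x => by
    have := neg_abs_le (f x); linarith)
  have h2 := B1_int_nonneg hM1 n (fun x => |f x|) (fun x => abs_nonneg _)
  have h3 : ∫ t, cyl n (fun x => f x + |f x|) t ∂lam =
      ∫ t, cyl n f t ∂lam + ∫ t, cyl n (fun x => |f x|) t ∂lam := by
    rw [← integral_add (B1_memLp n f) (B1_memLp n _)]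
    rfl
  rw [sum_add_distrib] at h1
  have h4 : ∫ t, cyl n f t ∂lam = ∫ t, cyl n (fun x => f x + |f x|) t ∂lam -
    ∫ t, cyl n (fun x => |f x|) t ∂lam := by rw [h3]; ring
  rw [h4, h1, h2]
  ring

theorem B1_norm (hM1 : S_M1) (n : ℕ) (f : ℕ → ℝ) :
    eLpNorm (cyl n f) 1 lam = ENNReal.ofReal (l1 n f) := by
  rw [← hM1.2.2.1 n f]
  unfold cylL
  rw [Lp.norm_toLp, ENNReal.ofReal_toReal (cyl_memLp n f).eLpNorm_ne_top]

theorem B1_sum_two (N : ℕ) (h : ℕ → ℝ) :
    ∑ x ∈ range (2 * N), h x = ∑ x ∈ range N, (h (2 * x) + h (2 * x + 1)) := by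
  induction N with
  | zero => simp
  | succ N ih =>
    rw [show 2 * (N + 1) = 2 * N + 1 + 1 by ring, sum_range_succ, sum_range_succ, ih,
      sum_range_succ]
    ring

/-- the martingale property -/
theorem B1_mart (hM1 : S_M1) (a : ℕ → ℕ → ℝ)
    (ha : ∀ n x, x < 2 ^ n → a n x = a (n + 1) (2 * x) + a (n + 1) (2 * x + 1)) :
    Martingale (fun n => cyl n (fun x => 2 ^ n * a n x)) B1_fil lam := by
  apply martingale_of_setIntegral_eq_succ
  · intro n
    have h1 : Measurable[B1_fil n] (cyl n (fun x => 2 ^ n * a n x)) := by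
      intro A _
      exact ⟨(fun x => 2 ^ n * a n x) ⁻¹' A, MeasurableSpace.measurableSet_top, rfl⟩
    exact h1.stronglyMeasurable
  · intro n
    exact B1_memLp n _
  · rintro n A ⟨S, -, rfl⟩
    classical
    have hA : MeasurableSet ((fun t : ℝ => ⌊2 ^ n * t⌋₊) ⁻¹' S) :=
      B1_meas n (MeasurableSpace.measurableSet_top)
    rw [← integral_indicator hA, ← integral_indicator hA]
    have e1 : ((fun t : ℝ => ⌊2 ^ n * t⌋₊) ⁻¹' S).indicator (cyl n (fun x => 2 ^ n * a n x)) =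
        cyl n (fun x => if x ∈ S then 2 ^ n * a n x else 0) := by
      funext t
      simp only [Set.indicator, Set.mem_preimage, cyl]
    have e2 : ((fun t : ℝ => ⌊2 ^ n * t⌋₊) ⁻¹' S).indicator
          (cyl (n + 1) (fun x => 2 ^ (n + 1) * a (n + 1) x)) =
        cyl (n + 1) (fun x => if x / 2 ∈ S then 2 ^ (n + 1) * a (n + 1) x else 0) := by
      funext t
      simp only [Set.indicator, Set.mem_preimage, cyl]
      rw [B1_floor n t]
    show ∫ t, ((fun t : ℝ => ⌊2 ^ n * t⌋₊) ⁻¹' S).indicator (cyl n (fun x => 2 ^ n * a n x)) t ∂lam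
      = ∫ t, ((fun t : ℝ => ⌊2 ^ n * t⌋₊) ⁻¹' S).indicator
          (cyl (n + 1) (fun x => 2 ^ (n + 1) * a (n + 1) x)) t ∂lam
    rw [e1, e2, B1_int hM1, B1_int hM1, pow_succ' 2 n, pow_succ' (2 : ℝ) n, B1_sum_two, sum_div,
      sum_div]
    apply sum_congr rfl
    intro x hx
    have hx' := ha n x (mem_range.1 hx)
    have i1 : 2 * x / 2 = x := by omega
    have i2 : (2 * x + 1) / 2 = x := by omega
    rw [i1, i2]
    by_cases hS : x ∈ S
    · simp only [hS, if_true]
      rw [hx']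
      field_simp
    · simp only [hS, if_false]
      simp

theorem p_B1 (hM1 : S_M1) (hM4 : S_M4) (hM9 : S_M9) : S_B1 := by
  choose c hc1 hc2 using hM9
  -- consistency of the functionals
  have hcons : ∀ n x, x < 2 ^ n → c n x = c (n + 1) (2 * x) + c (n + 1) (2 * x + 1) := by
    intro n x hx
    have hcl : IsClosed {g : E | c n x g = (c (n + 1) (2 * x) + c (n + 1) (2 * x + 1)) g} :=
      isClosed_eq (c n x).continuous (c (n + 1) (2 * x) + c (n + 1) (2 * x + 1)).continuous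
    have hall : ∀ g : E, g ∈ {g : E | c n x g = (c (n + 1) (2 * x) + c (n + 1) (2 * x + 1)) g} := by
      have hsub : {g : E | ∃ (n : ℕ) (f : ℕ → ℝ), g = cylL n f} ⊆
          {g : E | c n x g = (c (n + 1) (2 * x) + c (n + 1) (2 * x + 1)) g} := by
        rintro g ⟨k, f, rfl⟩
        simp only [Set.mem_ofPred_eq]
        rw [← B1_raise hM1 k (n + 1) f]
        generalize (fun x => f (x / 2 ^ (n + 1))) = f'
        have e1 := hc2 n (k + 1) f' x hx
        have e2 := hc2 (n + 1) k f' (2 * x) (by rw [pow_succ]; omega)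
        have e3 := hc2 (n + 1) k f' (2 * x + 1) (by rw [pow_succ]; omega)
        rw [show n + (k + 1) = k + (n + 1) by ring] at e1
        rw [show n + 1 + k = k + (n + 1) by ring] at e2 e3
        rw [_root_.add_apply, e1, e2, e3, ← add_div]
        congr 1
        rw [pow_succ 2 k, mul_two, sum_range_add]
        congr 1
        · apply sum_congr rfl; intro y _; congr 1; ring
        · apply sum_congr rfl; intro y _; congr 1; ring
      intro g
      have := hM4.closure_eq ▸ (Set.mem_univ g)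
      exact (hcl.closure_subset_iff.2 hsub) this
    ext g
    exact hall g
  -- the sums of the values
  have hbound : ∀ (Φ : StrongDual ℝ (StrongDual ℝ E)) (n : ℕ),
      ∑ x ∈ range (2 ^ n), |Φ (c n x)| ≤ ‖Φ‖ := by
    intro Φ n
    have h1 : ‖∑ x ∈ range (2 ^ n), (SignType.sign (Φ (c n x)) : ℝ) • c n x‖ ≤ 1 := by
      apply ContinuousLinearMap.opNorm_le_bound _ zero_le_one
      intro g
      rw [one_mul]
      refine le_trans ?_ (hc1 n g)
      rw [_root_.sum_apply]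
      refine (norm_sum_le _ _).trans (sum_le_sum fun x _ => ?_)
      rw [_root_.smul_apply, norm_smul, Real.norm_eq_abs, Real.norm_eq_abs]
      refine mul_le_of_le_one_left (abs_nonneg _) ?_
      rcases SignType.sign (Φ (c n x)) with _ | _ | _ <;> simp
    have h2 : ∑ x ∈ range (2 ^ n), |Φ (c n x)| =
        Φ (∑ x ∈ range (2 ^ n), (SignType.sign (Φ (c n x)) : ℝ) • c n x) := by
      rw [map_sum]
      apply sum_congr rfl
      intro x _
      rw [map_smul, smul_eq_mul, sign_mul_self]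
    rw [h2]
    calc Φ (∑ x ∈ range (2 ^ n), (SignType.sign (Φ (c n x)) : ℝ) • c n x)
        ≤ ‖Φ (∑ x ∈ range (2 ^ n), (SignType.sign (Φ (c n x)) : ℝ) • c n x)‖ := Real.le_norm_self _
      _ ≤ ‖Φ‖ * ‖∑ x ∈ range (2 ^ n), (SignType.sign (Φ (c n x)) : ℝ) • c n x‖ := Φ.le_opNorm _
      _ ≤ ‖Φ‖ * 1 := mul_le_mul_of_nonneg_left h1 (norm_nonneg Φ)
      _ = ‖Φ‖ := mul_one _
  -- the martingale
  set F : StrongDual ℝ (StrongDual ℝ E) → ℕ → ℝ → ℝ :=
    fun Φ n => cyl n (fun x => 2 ^ n * Φ (c n x)) with hF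
  have hmart : ∀ Φ, Martingale (F Φ) B1_fil lam := by
    intro Φ
    apply B1_mart hM1 (fun n x => Φ (c n x))
    intro n x hx
    rw [← map_add, ← hcons n x hx]
  have hnorm : ∀ Φ n, eLpNorm (F Φ n) 1 lam ≤ (‖Φ‖₊ : ENNReal) := by
    intro Φ n
    rw [hF, B1_norm hM1]
    have : l1 n (fun x => 2 ^ n * Φ (c n x)) ≤ ‖Φ‖ := by
      refine le_trans (le_of_eq ?_) (hbound Φ n)
      unfold l1
      rw [sum_div]
      apply sum_congr rfl
      intro x _
      rw [abs_mul, abs_of_pos (by positivity : (0 : ℝ) < 2 ^ n)]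
      field_simp
    refine (ENNReal.ofReal_le_ofReal this).trans (le_of_eq ?_)
    exact ofReal_norm Φ
  have hlim : ∀ Φ, ∃ g : E, ‖g‖ ≤ ‖Φ‖ ∧ ∀ᵐ t ∂lam, Tendsto (fun n => F Φ n t) atTop (𝓝 (g t)) := by
    intro Φ
    have h1 := (hmart Φ).submartingale.ae_tendsto_limitProcess (hnorm Φ)
    have hfm : ∀ n, AEStronglyMeasurable (F Φ n) lam := fun n =>
      (cyl_meas n _).aestronglyMeasurable
    have h2 : MemLp (Filtration.limitProcess (F Φ) B1_fil lam) 1 lam :=
      Filtration.memLp_limitProcess_of_eLpNorm_bdd hfm (hnorm Φ)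
    refine ⟨h2.toLp _, ?_, ?_⟩
    · rw [Lp.norm_toLp]
      have h3 : eLpNorm (Filtration.limitProcess (F Φ) B1_fil lam) 1 lam ≤ (‖Φ‖₊ : ENNReal) := by
        refine (Lp.eLpNorm_lim_le_liminf_eLpNorm hfm _ h1).trans ?_
        refine (liminf_le_liminf (Eventually.of_forall (hnorm Φ))).trans ?_
        simp
      have := ENNReal.toReal_mono ENNReal.coe_ne_top h3
      simpa using this
    · filter_upwards [h1, h2.coeFn_toLp] with t ht ht2
      rw [ht2]
      exact ht
  choose L hL1 hL2 using hlim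
  have hadd : ∀ Φ Ψ, L (Φ + Ψ) = L Φ + L Ψ := by
    intro Φ Ψ
    apply Lp.ext
    filter_upwards [hL2 Φ, hL2 Ψ, hL2 (Φ + Ψ), Lp.coeFn_add (L Φ) (L Ψ)] with t h1 h2 h3 h4
    rw [h4, Pi.add_apply]
    refine tendsto_nhds_unique h3 ((h1.add h2).congr fun n => ?_)
    simp only [hF, cyl, _root_.add_apply]
    ring
  have hsmul : ∀ (r : ℝ) Φ, L (r • Φ) = r • L Φ := by
    intro r Φ
    apply Lp.ext
    filter_upwards [hL2 Φ, hL2 (r • Φ), Lp.coeFn_smul r (L Φ)] with t h1 h3 h4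
    rw [h4, Pi.smul_apply]
    refine tendsto_nhds_unique h3 ((h1.const_smul r).congr fun n => ?_)
    simp only [hF, cyl, _root_.smul_apply, smul_eq_mul]
    ring
  refine ⟨LinearMap.mkContinuous
    { toFun := L, map_add' := hadd, map_smul' := hsmul } 1 (fun Φ => by
      rw [one_mul]; exact hL1 Φ), ?_⟩
  intro g
  have hcl : IsClosed {g : E | (LinearMap.mkContinuous
    ({ toFun := L, map_add' := hadd, map_smul' := hsmul } :
      StrongDual ℝ (StrongDual ℝ E) →ₗ[ℝ] E) 1 (fun Φ => by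
      rw [one_mul]; exact hL1 Φ)) (NormedSpace.inclusionInDoubleDual ℝ E g) = g} :=
    isClosed_eq (by fun_prop) continuous_id
  have hsub : {g : E | ∃ (n : ℕ) (f : ℕ → ℝ), g = cylL n f} ⊆
      {g : E | (LinearMap.mkContinuous
    ({ toFun := L, map_add' := hadd, map_smul' := hsmul } :
      StrongDual ℝ (StrongDual ℝ E) →ₗ[ℝ] E) 1 (fun Φ => by
      rw [one_mul]; exact hL1 Φ)) (NormedSpace.inclusionInDoubleDual ℝ E g) = g} := by
    rintro g ⟨m, φ, rfl⟩
    show L (NormedSpace.inclusionInDoubleDual ℝ E (cylL m φ)) = cylL m φ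
    apply Lp.ext
    have hlt : ∀ᵐ t ∂lam, 0 ≤ t ∧ t < 1 := by
      have h1 : ∀ᵐ t ∂lam, t ∈ Set.Icc (0 : ℝ) 1 := ae_restrict_mem measurableSet_Icc
      have h2 : ∀ᵐ t ∂lam, t ≠ (1 : ℝ) := by
        apply ae_restrict_of_ae
        simp [ae_iff, measure_singleton]
      filter_upwards [h1, h2] with t h1 h2
      exact ⟨h1.1, lt_of_le_of_ne h1.2 h2⟩
    filter_upwards [hL2 (NormedSpace.inclusionInDoubleDual ℝ E (cylL m φ)), hlt,
      (cyl_memLp m φ).coeFn_toLp] with t h1 h2 h3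
    have h4 : (cylL m φ : E) t = cyl m φ t := h3
    rw [h4]
    refine tendsto_nhds_unique h1 ?_
    apply tendsto_const_nhds.congr'
    filter_upwards [eventually_ge_atTop m] with n hn
    obtain ⟨k, rfl⟩ := Nat.exists_eq_add_of_le hn
    simp only [hF]
    have hx : ⌊2 ^ (m + k) * t⌋₊ < 2 ^ (m + k) := by
      have : (2 : ℝ) ^ (m + k) * t < ((2 ^ (m + k) : ℕ) : ℝ) := by
        push_cast
        exact mul_lt_of_lt_one_right (by positivity) h2.2
      exact (Nat.floor_lt (by have := h2.1; positivity)).2 this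
    have h5 : c (m + k) ⌊2 ^ (m + k) * t⌋₊ (cylL m φ) = φ (⌊2 ^ (m + k) * t⌋₊ / 2 ^ k) / 2 ^ (m + k) := by
      rw [← B1_raise hM1 m k φ]
      have := hc2 (m + k) 0 (fun x => φ (x / 2 ^ k)) _ hx
      simpa using this
    show cyl m φ t = 2 ^ (m + k) * (NormedSpace.inclusionInDoubleDual ℝ E (cylL m φ))
      (c (m + k) ⌊2 ^ (m + k) * t⌋₊)
    rw [NormedSpace.dual_def, h5]
    have h6 : ⌊2 ^ (m + k) * t⌋₊ / 2 ^ k = ⌊2 ^ m * t⌋₊ := by
      have h := Nat.floor_div_natCast (2 ^ (m + k) * t) (2 ^ k)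
      rw [← h]
      congr 1
      push_cast
      rw [pow_add]
      field_simp
    rw [h6]
    unfold cyl
    field_simp
  have := hM4.closure_eq ▸ (Set.mem_univ g)
  exact (hcl.closure_subset_iff.2 hsub) this

end Pool.Agent.Exo
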