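import Pool.Agent.Lib.MP_935088_an.EX.Stm

/-!
# MP_935088_an, project EX, piece B2: complemented subspaces
-/

set_option autoImplicit false

open MeasureTheory Filter Topology Finset

namespace Pool.Agent.Exo

theorem p_B2 : S_B2 := by
  intro X B _ _ _ _ J Q hQJ hB
  obtain ⟨p, hp⟩ := hB
  let J1 : StrongDual ℝ B →L[ℝ] StrongDual ℝ X :=
    (ContinuousLinearMap.compL ℝ X B ℝ).flip J
  let J2 : StrongDual ℝ (StrongDual ℝ X) →L[ℝ] StrongDual ℝ (StrongDual ℝ B) :=
    (ContinuousLinearMap.compL ℝ (StrongDual ℝ B) (StrongDual ℝ X) ℝ).flip J1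
  refine ⟨Q.comp (p.comp J2), fun x => ?_⟩
  have h : J2 (NormedSpace.inclusionInDoubleDual ℝ X x) =
      NormedSpace.inclusionInDoubleDual ℝ B (J x) := by
    ext b
    rfl
  change Q (p (J2 (NormedSpace.inclusionInDoubleDual ℝ X x))) = x
  rw [h, hp, hQJ]

end Pool.Agent.Exo
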