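import Pool.Agent.Lib.MP_935088_an.EX.Stm

set_option autoImplicit false
set_option maxSynthPendingDepth 3

open MeasureTheory Filter Topology Finset

namespace Pool.Agent.Exo

section B3
variable {Γ X : Type} [NormedAddCommGroup X] [NormedSpace ℝ X]

/-- the coordinate `Φ_γ` -/
private noncomputable def B3_co (γ : Γ)
    (Φ : StrongDual ℝ (StrongDual ℝ (lp (fun _ : Γ => X) 1))) :
    StrongDual ℝ (StrongDual ℝ X) :=
  LinearMap.mkContinuous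
    { toFun := fun f => Φ (f.comp (lp.evalCLM ℝ (fun _ : Γ => X) 1 γ))
      map_add' := fun f g => by rw [ContinuousLinearMap.add_comp, map_add]
      map_smul' := fun c f => by rw [ContinuousLinearMap.smul_comp, map_smul]; rfl }
    ‖Φ‖ (fun f => by
      change ‖Φ (f.comp (lp.evalCLM ℝ (fun _ : Γ => X) 1 γ))‖ ≤ _
      refine (Φ.le_opNorm _).trans (mul_le_mul_of_nonneg_left ?_ (norm_nonneg _))
      refine ContinuousLinearMap.opNorm_le_bound _ (norm_nonneg _) fun F => ?_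
      change ‖f (F γ)‖ ≤ _
      exact (f.le_opNorm _).trans
        (mul_le_mul_of_nonneg_left (lp.norm_apply_le_norm (by simp) F γ) (norm_nonneg _)))

private theorem B3_co_apply (γ : Γ)
    (Φ : StrongDual ℝ (StrongDual ℝ (lp (fun _ : Γ => X) 1))) (f : StrongDual ℝ X) :
    B3_co γ Φ f = Φ (f.comp (lp.evalCLM ℝ (fun _ : Γ => X) 1 γ)) := rfl

private theorem B3_sum1 (Φ : StrongDual ℝ (StrongDual ℝ (lp (fun _ : Γ => X) 1)))
    (G : Finset Γ) (x : Γ → StrongDual ℝ X) (hx : ∀ γ, ‖x γ‖ ≤ 1) :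
    ∑ γ ∈ G, B3_co γ Φ (x γ) ≤ ‖Φ‖ := by
  have h1 : ∑ γ ∈ G, B3_co γ Φ (x γ) =
      Φ (∑ γ ∈ G, (x γ).comp (lp.evalCLM ℝ (fun _ : Γ => X) 1 γ)) := by
    rw [map_sum]; rfl
  rw [h1]
  have h2 : ‖∑ γ ∈ G, (x γ).comp (lp.evalCLM ℝ (fun _ : Γ => X) 1 γ)‖ ≤ 1 := by
    refine ContinuousLinearMap.opNorm_le_bound _ zero_le_one fun F => ?_
    rw [ContinuousLinearMap.sum_apply]
    have h3 := lp.sum_rpow_le_norm_rpow (p := 1) (by simp) F G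
    simp only [ENNReal.toReal_one, Real.rpow_one] at h3
    rw [one_mul]
    refine (norm_sum_le _ _).trans (le_trans (sum_le_sum fun γ _ => ?_) h3)
    change ‖x γ (F γ)‖ ≤ ‖F γ‖
    calc ‖x γ (F γ)‖ ≤ ‖x γ‖ * ‖F γ‖ := (x γ).le_opNorm _
      _ ≤ 1 * ‖F γ‖ := mul_le_mul_of_nonneg_right (hx γ) (norm_nonneg _)
      _ = ‖F γ‖ := one_mul _
  calc Φ (∑ γ ∈ G, (x γ).comp (lp.evalCLM ℝ (fun _ : Γ => X) 1 γ))
      ≤ ‖Φ (∑ γ ∈ G, (x γ).comp (lp.evalCLM ℝ (fun _ : Γ => X) 1 γ))‖ := Real.le_norm_self _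
    _ ≤ ‖Φ‖ * ‖∑ γ ∈ G, (x γ).comp (lp.evalCLM ℝ (fun _ : Γ => X) 1 γ)‖ := Φ.le_opNorm _
    _ ≤ ‖Φ‖ * 1 := mul_le_mul_of_nonneg_left h2 (norm_nonneg _)
    _ = ‖Φ‖ := mul_one _

private theorem B3_sum2 (Φ : StrongDual ℝ (StrongDual ℝ (lp (fun _ : Γ => X) 1)))
    (G : Finset Γ) : ∑ γ ∈ G, ‖B3_co γ Φ‖ ≤ ‖Φ‖ := by
  have key : ∀ ε > 0, ∑ γ ∈ G, ‖B3_co γ Φ‖ ≤ ‖Φ‖ + G.card * ε := by
    intro ε hε
    have h1 : ∀ γ : Γ, ∃ x : StrongDual ℝ X, ‖x‖ ≤ 1 ∧ ‖B3_co γ Φ‖ - ε ≤ B3_co γ Φ x := by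
      intro γ
      obtain ⟨x, hx1, hx2⟩ := ContinuousLinearMap.exists_lt_apply_of_lt_opNorm (B3_co γ Φ)
        (show ‖B3_co γ Φ‖ - ε < ‖B3_co γ Φ‖ by linarith)
      rcases le_total 0 (B3_co γ Φ x) with h | h
      · refine ⟨x, hx1.le, ?_⟩
        rw [Real.norm_of_nonneg h] at hx2
        exact hx2.le
      · refine ⟨-x, by rw [norm_neg]; exact hx1.le, ?_⟩
        rw [Real.norm_of_nonpos h] at hx2
        rw [map_neg]
        exact hx2.le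
    choose x hx1 hx2 using h1
    have h2 := B3_sum1 Φ G x hx1
    have h3 : ∑ γ ∈ G, (‖B3_co γ Φ‖ - ε) ≤ ∑ γ ∈ G, B3_co γ Φ (x γ) :=
      sum_le_sum fun γ _ => hx2 γ
    rw [sum_sub_distrib, sum_const, nsmul_eq_mul] at h3
    linarith
  refine le_of_forall_pos_le_add fun ε hε => ?_
  have h := key (ε / (G.card + 1)) (by positivity)
  have h2 : (G.card : ℝ) * (ε / (G.card + 1)) ≤ ε := by
    rw [mul_div_assoc', div_le_iff₀ (by positivity)]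
    nlinarith
  linarith

end B3

theorem p_B3 : S_B3 := by
  intro Γ X _ _ hX
  obtain ⟨p, hp⟩ := hX
  have hb : ∀ (Φ : StrongDual ℝ (StrongDual ℝ (lp (fun _ : Γ => X) 1))) (G : Finset Γ),
      ∑ γ ∈ G, ‖p (B3_co γ Φ)‖ ≤ ‖p‖ * ‖Φ‖ := by
    intro Φ G
    calc ∑ γ ∈ G, ‖p (B3_co γ Φ)‖ ≤ ∑ γ ∈ G, ‖p‖ * ‖B3_co γ Φ‖ :=
          sum_le_sum fun γ _ => p.le_opNorm _
      _ = ‖p‖ * ∑ γ ∈ G, ‖B3_co γ Φ‖ := by rw [mul_sum]
      _ ≤ ‖p‖ * ‖Φ‖ := mul_le_mul_of_nonneg_left (B3_sum2 Φ G) (norm_nonneg _)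
  have hs : ∀ Φ : StrongDual ℝ (StrongDual ℝ (lp (fun _ : Γ => X) 1)),
      Summable (fun γ => ‖p (B3_co γ Φ)‖) := fun Φ =>
    summable_of_sum_le (fun _ => norm_nonneg _) (hb Φ)
  have hm : ∀ Φ : StrongDual ℝ (StrongDual ℝ (lp (fun _ : Γ => X) 1)),
      Memℓp (fun γ => p (B3_co γ Φ)) 1 := fun Φ => by
    apply memℓp_gen
    simpa using hs Φ
  refine ⟨LinearMap.mkContinuous
    { toFun := fun Φ => ⟨fun γ => p (B3_co γ Φ), hm Φ⟩
      map_add' := fun Φ Ψ => by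
        apply lp.ext
        funext γ
        change p (B3_co γ (Φ + Ψ)) = p (B3_co γ Φ) + p (B3_co γ Ψ)
        rw [← map_add]
        congr 1
      map_smul' := fun c Φ => by
        apply lp.ext
        funext γ
        change p (B3_co γ (c • Φ)) = c • p (B3_co γ Φ)
        rw [← map_smul]
        congr 1 } ‖p‖ (fun Φ => ?_), fun F => ?_⟩
  · change ‖(⟨fun γ => p (B3_co γ Φ), hm Φ⟩ : lp (fun _ : Γ => X) 1)‖ ≤ ‖p‖ * ‖Φ‖
    rw [lp.norm_eq_tsum_rpow (by simp)]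
    simp only [ENNReal.toReal_one, Real.rpow_one, div_one]
    exact (hs Φ).tsum_le_of_sum_le (hb Φ)
  · apply lp.ext
    funext γ
    change p (B3_co γ (NormedSpace.inclusionInDoubleDual ℝ _ F)) = F γ
    have h1 : B3_co γ (NormedSpace.inclusionInDoubleDual ℝ _ F) =
        NormedSpace.inclusionInDoubleDual ℝ X (F γ) := by
      ext f
      rw [B3_co_apply]
      rfl
    rw [h1, hp]

end Pool.Agent.Exo
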