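import Pool.Agent.Lib.MP_935088_an.EX.Stm

/-! B4: uncountable `ℓ₁`-sums are not separable. -/

open MeasureTheory Filter Topology Finset

namespace Pool.Agent.Exo

theorem p_B4 : S_B4 := by
  classical
  intro Γ X _ _ _ _ hs
  obtain ⟨x, hx⟩ := exists_ne (0 : X)
  have hx0 : 0 < ‖x‖ := norm_pos_iff.2 hx
  let S : Γ → lp (fun _ : Γ => X) 1 := fun a => lp.single 1 a x
  have hd : ∀ a b : Γ, a ≠ b → ‖x‖ ≤ dist (S a) (S b) := by
    intro a b hab
    rw [dist_eq_norm]
    have h := lp.norm_apply_le_norm (p := 1) one_ne_zero (S a - S b) a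
    have h2 : (S a - S b : lp (fun _ : Γ => X) 1) a = x := by
      rw [lp.coeFn_sub, Pi.sub_apply]
      simp [S, hab]
    rw [h2] at h
    exact h
  have hc : (Set.univ : Set Γ).Countable := by
    refine Set.PairwiseDisjoint.countable_of_isOpen
      (s := fun a : Γ => Metric.ball (S a) (‖x‖ / 2)) ?_ ?_ ?_
    · intro a _ b _ hab
      refine Metric.ball_disjoint_ball ?_
      have := hd a b hab
      linarith
    · intro a _
      exact Metric.isOpen_ball
    · intro a _
      exact Metric.nonempty_ball.2 (by positivity)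
  exact Set.not_countable_univ hc

end Pool.Agent.Exo
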