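import Mathlib
import Pool.Agent.Lib.MP_935088_an.EX.Stm

/-!
# MP_935088_an, EX: piece L0 (small perturbations)
-/

set_option autoImplicit false

open MeasureTheory Filter Topology Finset

namespace Pool.Agent.Exo

theorem p_L0 : S_L0 := by
  intro B _ _ _ D hD F hF
  let b := Module.finBasis ℝ F
  let m := Module.finrank ℝ F
  have hext : ∀ j : Fin m, ∃ φ : StrongDual ℝ B, ∀ x : F, φ x = b.repr x j := by
    intro j
    obtain ⟨g, hg, _⟩ := exists_extension_norm_eq F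
      (LinearMap.toContinuousLinearMap (b.coord j))
    exact ⟨g, fun x => by rw [hg]; rfl⟩
  choose φ hφ using hext
  obtain ⟨C, hC⟩ : ∃ C, C = ∑ j, ‖φ j‖ := ⟨_, rfl⟩
  have hC0 : 0 ≤ C := by
    rw [hC]
    exact Finset.sum_nonneg fun j _ => norm_nonneg _
  have hd : ∀ j : Fin m, ∃ d ∈ D, ‖((b j : F) : B) - d‖ ≤ 1 / (2 * (C + 1)) := by
    intro j
    obtain ⟨d, hd, h⟩ := Metric.mem_closure_iff.1 (hD ((b j : F) : B)) (1 / (2 * (C + 1)))
      (by positivity)
    refine ⟨d, hd, ?_⟩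
    rw [← dist_eq_norm]
    exact h.le
  choose d hdD hdn using hd
  obtain ⟨N, hN⟩ : ∃ N : B →L[ℝ] B, N = ∑ j, (φ j).smulRight (((b j : F) : B) - d j) := ⟨_, rfl⟩
  have hNapp : ∀ x, N x = ∑ j, φ j x • (((b j : F) : B) - d j) := by
    intro x
    rw [hN, _root_.sum_apply]
    rfl
  have hNn : ‖N‖ ≤ 1 / 2 := by
    calc ‖N‖ ≤ ∑ j, ‖(φ j).smulRight (((b j : F) : B) - d j)‖ := by
          rw [hN]
          exact norm_sum_le _ _
      _ ≤ ∑ j, ‖φ j‖ * (1 / (2 * (C + 1))) := by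
          refine Finset.sum_le_sum fun j _ => ?_
          rw [ContinuousLinearMap.norm_smulRight_apply]
          exact mul_le_mul_of_nonneg_left (hdn j) (norm_nonneg _)
      _ = C * (1 / (2 * (C + 1))) := by rw [← Finset.sum_mul, ← hC]
      _ ≤ 1 / 2 := by
          rw [mul_one_div, div_le_div_iff₀ (by positivity) (by positivity)]
          linarith
  let u : (B →L[ℝ] B)ˣ := Units.oneSub N (lt_of_le_of_lt hNn (by norm_num))
  have hu : (u : B →L[ℝ] B) = 1 - N := rfl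
  have hNle : ∀ x, ‖N x‖ ≤ 1 / 2 * ‖x‖ := fun x =>
    (N.le_opNorm x).trans (mul_le_mul_of_nonneg_right hNn (norm_nonneg _))
  refine ⟨((u⁻¹ : (B →L[ℝ] B)ˣ) : B →L[ℝ] B), 1 - N, ?_, ?_, ?_, ?_, ?_⟩
  · refine ContinuousLinearMap.opNorm_le_bound _ (by norm_num) fun x => ?_
    have h1 : (1 - N) (((u⁻¹ : (B →L[ℝ] B)ˣ) : B →L[ℝ] B) x) = x := by
      have : (u : B →L[ℝ] B) * ((u⁻¹ : (B →L[ℝ] B)ˣ) : B →L[ℝ] B) = 1 := u.mul_inv
      rw [hu] at this
      exact congrArg (fun f : B →L[ℝ] B => f x) this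
    set z := ((u⁻¹ : (B →L[ℝ] B)ˣ) : B →L[ℝ] B) x with hz
    have h2 : z = x + N z := by
      rw [sub_apply] at h1
      rw [← h1]
      simp
    have h3 : ‖z‖ ≤ ‖x‖ + ‖N z‖ := by
      calc ‖z‖ = ‖x + N z‖ := by rw [← h2]
        _ ≤ _ := norm_add_le _ _
    have h4 := hNle z
    linarith
  · refine ContinuousLinearMap.opNorm_le_bound _ (by norm_num) fun x => ?_
    have h1 : (1 - N) x = x - N x := rfl
    rw [h1]
    have h3 : ‖x - N x‖ ≤ ‖x‖ + ‖N x‖ := norm_sub_le _ _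
    have h4 := hNle x
    have h5 := norm_nonneg x
    linarith
  · have : ((u⁻¹ : (B →L[ℝ] B)ˣ) : B →L[ℝ] B) * (u : B →L[ℝ] B) = 1 := u.inv_mul
    rwa [hu] at this
  · have : (u : B →L[ℝ] B) * ((u⁻¹ : (B →L[ℝ] B)ˣ) : B →L[ℝ] B) = 1 := u.mul_inv
    rwa [hu] at this
  · intro f hf
    have h1 : (1 - N) f = f - N f := rfl
    have h2 : (f : B) = ∑ j, φ j f • ((b j : F) : B) := by
      have h3 := b.sum_repr (⟨f, hf⟩ : F)
      have h4 := congrArg (fun y : F => (y : B)) h3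
      simp only [Submodule.coe_sum, Submodule.coe_smul] at h4
      rw [← h4]
      refine Finset.sum_congr rfl fun j _ => ?_
      have h5 := hφ j ⟨f, hf⟩
      simp only at h5
      rw [h4, h5]
    have h3 : f - N f = ∑ j, φ j f • d j := by
      have h6 : N f = ∑ j, φ j f • ((b j : F) : B) - ∑ j, φ j f • d j := by
        rw [hNapp, ← Finset.sum_sub_distrib]
        exact Finset.sum_congr rfl fun j _ => smul_sub _ _ _
      rw [h6, ← h2]
      abel
    rw [h1, h3]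
    exact D.sum_mem fun j _ => D.smul_mem _ (hdD j)

end Pool.Agent.Exo
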