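import Pool.Agent.Lib.MP_935088_an.EX.Stm

/-!
# MP_935088_an: piece L1
-/

set_option autoImplicit false

open MeasureTheory Filter Topology Finset

namespace Pool.Agent.Exo

private theorem L1_raise (hM1 : S_M1) (n m : ℕ) (f : ℕ → ℝ) :
    ∃ f' : ℕ → ℝ, cylL n f = cylL (n + m) f' := by
  obtain ⟨-, -, -, -, h5⟩ := hM1
  induction m with
  | zero => exact ⟨f, rfl⟩
  | succ m ih =>
    obtain ⟨f', hf'⟩ := ih
    exact ⟨fun x => f' (x / 2), by rw [hf', ← h5 (n + m) f']; rfl⟩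

private noncomputable def L1_D (hM1 : S_M1) (n : ℕ) : Submodule ℝ E where
  carrier := {g | ∃ f, g = cylL n f}
  add_mem' := by
    rintro a b ⟨f, rfl⟩ ⟨g, rfl⟩
    exact ⟨fun x => f x + g x, (hM1.1 n f g).symm⟩
  zero_mem' := by
    refine ⟨fun _ => 0 * 0, ?_⟩
    rw [hM1.2.1 n 0 (fun _ => 0), zero_smul]
  smul_mem' := by
    rintro c a ⟨f, rfl⟩
    exact ⟨fun x => c * f x, (hM1.2.1 n c f).symm⟩

private theorem L1_mono (hM1 : S_M1) {n m : ℕ} (h : n ≤ m) {g : E} (hg : g ∈ L1_D hM1 n) :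
    g ∈ L1_D hM1 m := by
  obtain ⟨f, rfl⟩ := hg
  obtain ⟨k, rfl⟩ := Nat.exists_eq_add_of_le h
  exact L1_raise hM1 n k f

theorem p_L1 (hM1 : S_M1) (hM4 : S_M4) (hL0 : S_L0) : S_L1 := by
  intro F hF
  let D : Submodule ℝ E :=
    { carrier := {g | ∃ (n : ℕ), g ∈ L1_D hM1 n}
      add_mem' := by
        rintro a b ⟨n, hn⟩ ⟨m, hm⟩
        exact ⟨max n m, add_mem (L1_mono hM1 (le_max_left _ _) hn)
          (L1_mono hM1 (le_max_right _ _) hm)⟩
      zero_mem' := ⟨0, zero_mem _⟩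
      smul_mem' := by
        rintro c a ⟨n, hn⟩
        exact ⟨n, Submodule.smul_mem _ c hn⟩ }
  have hD : Dense (D : Set E) := hM4
  obtain ⟨T, T', h1, h2, h3, h4, h5⟩ := hL0 E D hD F hF
  obtain ⟨s, hs⟩ := (Module.Finite.iff_fg.1 hF)
  have h6 : ∀ t : Finset E, (∀ x ∈ t, x ∈ F) → ∃ n, ∀ x ∈ t, T' x ∈ L1_D hM1 n := by
    classical
    intro t
    induction t using Finset.induction_on with
    | empty => exact fun _ => ⟨0, fun x hx => absurd hx (notMem_empty x)⟩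
    | insert a t ha ih =>
      intro ht
      obtain ⟨n, hn⟩ := ih fun x hx => ht x (mem_insert_of_mem hx)
      obtain ⟨m, hm⟩ := h5 a (ht a (mem_insert_self _ _))
      refine ⟨max n m, fun x hx => ?_⟩
      rcases mem_insert.1 hx with h | h
      · rw [h]
        exact L1_mono hM1 (le_max_right _ _) hm
      · exact L1_mono hM1 (le_max_left _ _) (hn x h)
  obtain ⟨n, hn⟩ := h6 s (fun x hx => by
    rw [← hs]
    exact Submodule.subset_span hx)
  refine ⟨n, T, T', h1, h2, h3, h4, fun f hf => ?_⟩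
  have h7 : F ≤ (L1_D hM1 n).comap (T' : E →ₗ[ℝ] E) := by
    rw [← hs, Submodule.span_le]
    intro x hx
    exact hn x hx
  obtain ⟨φ, hφ⟩ := h7 hf
  refine ⟨φ, ?_⟩
  have h8 : T (T' f) = f := by
    have := congrArg (fun S : E →L[ℝ] E => S f) h3
    exact this
  have h9 : T' f = cylL n φ := hφ
  rw [← h9, h8]

end Pool.Agent.Exo
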