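import Pool.Agent.Lib.MP_935088_an.EX.Stm

set_option autoImplicit false
set_option maxSynthPendingDepth 3

open MeasureTheory Filter Topology Finset

namespace Pool.Agent.Exo

section L3
variable {Γ X : Type} [NormedAddCommGroup X] [NormedSpace ℝ X]

/-- elements supported in `G` -/
private def L3_D (G : Set Γ) : Submodule ℝ (lp (fun _ : Γ => X) 1) where
  carrier := {F | ∀ γ, γ ∉ G → F γ = 0}
  add_mem' := by
    intro a b ha hb γ hγ
    rw [lp.coeFn_add, Pi.add_apply, ha γ hγ, hb γ hγ, add_zero]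
  zero_mem' := by intro γ _; rfl
  smul_mem' := by
    intro c a ha γ hγ
    rw [lp.coeFn_smul, Pi.smul_apply, ha γ hγ, smul_zero]

/-- elements with finite support -/
private def L3_Df : Submodule ℝ (lp (fun _ : Γ => X) 1) where
  carrier := {F | ∃ G : Finset Γ, ∀ γ, γ ∉ G → F γ = 0}
  add_mem' := by
    classical
    rintro a b ⟨G, ha⟩ ⟨H, hb⟩
    refine ⟨G ∪ H, fun γ hγ => ?_⟩
    rw [Finset.mem_union, not_or] at hγ
    rw [lp.coeFn_add, Pi.add_apply, ha γ hγ.1, hb γ hγ.2, add_zero]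
  zero_mem' := ⟨∅, fun γ _ => rfl⟩
  smul_mem' := by
    rintro c a ⟨G, ha⟩
    refine ⟨G, fun γ hγ => ?_⟩
    rw [lp.coeFn_smul, Pi.smul_apply, ha γ hγ, smul_zero]

private theorem L3_eq [DecidableEq Γ] (G : Finset Γ) (F : lp (fun _ : Γ => X) 1)
    (hF : ∀ γ, γ ∉ G → F γ = 0) :
    F = ∑ γ ∈ G, lp.single 1 γ (F γ) := by
  apply lp.ext
  funext δ
  rw [lp.coeFn_sum, Finset.sum_apply]
  by_cases h : δ ∈ G
  · rw [Finset.sum_eq_single_of_mem δ h]
    · rw [lp.single_apply_self]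
    · intro b _ hb
      rw [lp.single_apply_ne]
      exact hb.symm
  · rw [hF δ h, Finset.sum_eq_zero]
    intro b hb
    rw [lp.single_apply_ne]
    rintro rfl
    exact h hb

private theorem L3_dense :
    Dense ((L3_Df (Γ := Γ) (X := X) : Submodule ℝ (lp (fun _ : Γ => X) 1)) :
      Set (lp (fun _ : Γ => X) 1)) := by
  classical
  intro F
  have h := lp.hasSum_single (p := 1) (by simp) F
  refine mem_closure_of_tendsto h (Filter.Eventually.of_forall fun G => ?_)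
  refine Submodule.sum_mem _ fun γ _ => ?_
  refine ⟨{γ}, fun δ hδ => ?_⟩
  rw [lp.single_apply_ne]
  simpa using hδ

end L3

theorem p_L3 (hL0 : S_L0) : S_L3 := by
  classical
  intro Γ X _ _ _ hX
  obtain ⟨l, hl⟩ := hX
  refine ⟨4 * |l|, fun F hF => ?_⟩
  obtain ⟨T, T', hT, hT', hTT', hT'T, hD⟩ := hL0 (lp (fun _ : Γ => X) 1) L3_Df L3_dense F hF
  -- a finite set supporting everything
  have hG : ∃ G : Finset Γ, ∀ f ∈ F, ∀ γ, γ ∉ G → (T' f) γ = 0 := by
    have hfg : F.FG := Module.Finite.iff_fg.1 hF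
    obtain ⟨s, hs⟩ := hfg
    have h1 : ∀ f ∈ s, ∃ G : Finset Γ, ∀ γ, γ ∉ G → (T' f) γ = 0 := by
      intro f hf
      exact hD f (by rw [← hs]; exact Submodule.subset_span hf)
    choose! g hg using h1
    refine ⟨s.biUnion g, fun f hf => ?_⟩
    have h2 : F ≤ (L3_D (↑(s.biUnion g) : Set Γ)).comap
        (T' : lp (fun _ : Γ => X) 1 →ₗ[ℝ] lp (fun _ : Γ => X) 1) := by
      rw [← hs, Submodule.span_le]
      intro f hf γ hγ
      refine hg f hf γ fun hc => hγ ?_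
      exact Finset.mem_coe.2 (Finset.mem_biUnion.2 ⟨f, hf, hc⟩)
    intro γ hγ
    exact h2 hf γ (fun hc => hγ (Finset.mem_coe.1 hc))
  obtain ⟨G, hG⟩ := hG
  -- the coordinates
  have hfin : ∀ γ : Γ, ∃ (n : ℕ) (x : Fin n → X),
      F.map (((lp.evalCLM ℝ (fun _ : Γ => X) 1 γ).comp T' : _ →L[ℝ] X) : _ →ₗ[ℝ] X) ≤
        Submodule.span ℝ (Set.range x) ∧
      ∀ a : Fin n → ℝ, ‖∑ i, a i • x i‖ ≤ ∑ i, |a i| ∧ ∑ i, |a i| ≤ l * ‖∑ i, a i • x i‖ :=
    fun γ => hl _ inferInstance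
  choose n x hx1 hx2 using hfin
  let ι : Type := Σ γ : G, Fin (n γ)
  let y : ι → lp (fun _ : Γ => X) 1 := fun i => lp.single 1 (i.1 : Γ) (x i.1 i.2)
  let e : Fin (Fintype.card ι) ≃ ι := (Fintype.equivFin ι).symm
  have hYsum : ∀ b : ι → ℝ, ∑ i : ι, b i • y i =
      ∑ γ ∈ G, lp.single 1 γ ((fun γ => if h : γ ∈ G then
        ∑ i : Fin (n γ), b ⟨⟨γ, h⟩, i⟩ • x γ i else 0) γ) := by
    intro b
    rw [Fintype.sum_sigma, ← Finset.sum_coe_sort G]
    refine Finset.sum_congr rfl fun γ _ => ?_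
    have h1 : (if h : (γ : Γ) ∈ G then
        ∑ i : Fin (n γ), b ⟨⟨γ, h⟩, i⟩ • x γ i else 0) =
        ∑ i : Fin (n γ), b ⟨γ, i⟩ • x γ i := by
      rw [dif_pos γ.2]
    beta_reduce
    rw [h1]
    apply lp.ext
    funext δ
    rw [lp.coeFn_sum, Finset.sum_apply]
    by_cases hδ : δ = γ
    · subst hδ
      rw [lp.single_apply_self]
      refine Finset.sum_congr rfl fun i _ => ?_
      rw [lp.coeFn_smul, Pi.smul_apply]
      change b ⟨γ, i⟩ • (lp.single 1 (γ : Γ) (x γ i) : lp (fun _ : Γ => X) 1) γ = _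
      rw [lp.single_apply_self]
    · rw [lp.single_apply_ne _ _ _ hδ]
      refine Finset.sum_eq_zero fun i _ => ?_
      rw [lp.coeFn_smul, Pi.smul_apply]
      change b ⟨γ, i⟩ • (lp.single 1 (γ : Γ) (x γ i) : lp (fun _ : Γ => X) 1) δ = _
      rw [lp.single_apply_ne _ _ _ hδ, smul_zero]
  have hYnorm : ∀ b : ι → ℝ, ‖∑ i : ι, b i • y i‖ =
      ∑ γ : G, ‖∑ i : Fin (n γ), b ⟨γ, i⟩ • x γ i‖ := by
    intro b
    rw [hYsum]
    have h1 := lp.norm_sum_single (p := 1) (by simp) (fun γ : Γ => if h : γ ∈ G then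
        ∑ i : Fin (n γ), b ⟨⟨γ, h⟩, i⟩ • x γ i else 0) G
    simp only [ENNReal.toReal_one, Real.rpow_one] at h1
    rw [h1, ← Finset.sum_coe_sort G]
    refine Finset.sum_congr rfl fun γ _ => ?_
    rw [dif_pos γ.2]
  have hup : ∀ b : ι → ℝ, ‖∑ i : ι, b i • y i‖ ≤ ∑ i, |b i| := by
    intro b
    rw [hYnorm, Fintype.sum_sigma]
    exact Finset.sum_le_sum fun γ _ => (hx2 γ (fun i => b ⟨γ, i⟩)).1
  have hlo : ∀ b : ι → ℝ, ∑ i, |b i| ≤ |l| * ‖∑ i : ι, b i • y i‖ := by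
    intro b
    rw [hYnorm, Fintype.sum_sigma, Finset.mul_sum]
    refine Finset.sum_le_sum fun γ _ => ((hx2 γ (fun i => b ⟨γ, i⟩)).2).trans ?_
    exact mul_le_mul_of_nonneg_right (le_abs_self l) (norm_nonneg _)
  have hTa : ∀ z, T (T' z) = z := fun z => by
    have := congrArg (fun S : lp (fun _ : Γ => X) 1 →L[ℝ] lp (fun _ : Γ => X) 1 => S z) hTT'
    exact this
  have hTb : ∀ z, T' (T z) = z := fun z => by
    have := congrArg (fun S : lp (fun _ : Γ => X) 1 →L[ℝ] lp (fun _ : Γ => X) 1 => S z) hT'T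
    exact this
  refine ⟨Fintype.card ι, fun j => (1 / 2 : ℝ) • T (y (e j)), ?_, ?_⟩
  · intro f hf
    -- `T' f` in the span of `y`
    have h1 : T' f ∈ Submodule.span ℝ (Set.range y) := by
      rw [L3_eq G (T' f) (hG f hf)]
      refine Submodule.sum_mem _ fun γ hγ => ?_
      have h2 : (T' f) γ ∈ Submodule.span ℝ (Set.range (x γ)) :=
        hx1 γ (Submodule.mem_map_of_mem hf)
      have h3 : (Submodule.span ℝ (Set.range (x γ))).map
          (lp.lsingle (𝕜 := ℝ) (E := fun _ : Γ => X) 1 γ) ≤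
          Submodule.span ℝ (Set.range y) := by
        rw [Submodule.map_span_le]
        rintro _ ⟨i, rfl⟩
        exact Submodule.subset_span ⟨(⟨⟨γ, hγ⟩, i⟩ : ι), rfl⟩
      exact h3 (Submodule.mem_map_of_mem h2)
    have h4 : (Submodule.span ℝ (Set.range y)).map
        (T : lp (fun _ : Γ => X) 1 →ₗ[ℝ] lp (fun _ : Γ => X) 1) ≤
        Submodule.span ℝ (Set.range fun j => (1 / 2 : ℝ) • T (y (e j))) := by
      rw [Submodule.map_span_le]
      rintro _ ⟨i, rfl⟩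
      have h5 : T (y i) = (2 : ℝ) • ((1 / 2 : ℝ) • T (y (e (e.symm i)))) := by
        rw [smul_smul, Equiv.apply_symm_apply]; norm_num
      change T (y i) ∈ _
      rw [h5]
      exact Submodule.smul_mem _ _ (Submodule.subset_span ⟨e.symm i, rfl⟩)
    rw [← hTa f]
    exact h4 (Submodule.mem_map_of_mem h1)
  · intro a
    let b : ι → ℝ := fun i => a (e.symm i)
    have h1 : ∑ j, a j • ((1 / 2 : ℝ) • T (y (e j))) = (1 / 2 : ℝ) • T (∑ i : ι, b i • y i) := by
      rw [map_sum, Finset.smul_sum]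
      rw [← Equiv.sum_comp e (fun i : ι => (1 / 2 : ℝ) • T (b i • y i))]
      refine Finset.sum_congr rfl fun j _ => ?_
      rw [map_smul, smul_comm]
      change _ = (1 / 2 : ℝ) • a (e.symm (e j)) • T (y (e j))
      rw [Equiv.symm_apply_apply, smul_comm]
    have h2 : ∑ j, |a j| = ∑ i : ι, |b i| := by
      rw [← Equiv.sum_comp e (fun i : ι => |b i|)]
      refine Finset.sum_congr rfl fun j _ => ?_
      change _ = |a (e.symm (e j))|
      rw [Equiv.symm_apply_apply]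
    rw [h1, h2]
    have h3 : ‖(1 / 2 : ℝ) • T (∑ i : ι, b i • y i)‖ = 1 / 2 * ‖T (∑ i : ι, b i • y i)‖ := by
      rw [norm_smul, Real.norm_of_nonneg (by norm_num)]
    rw [h3]
    constructor
    · have h4 : ‖T (∑ i : ι, b i • y i)‖ ≤ 2 * ‖∑ i : ι, b i • y i‖ :=
        (T.le_opNorm _).trans (mul_le_mul_of_nonneg_right hT (norm_nonneg _))
      have h5 := hup b
      linarith
    · have h4 : ‖∑ i : ι, b i • y i‖ ≤ 2 * ‖T (∑ i : ι, b i • y i)‖ := by
        have h6 : ‖T' (T (∑ i : ι, b i • y i))‖ ≤ 2 * ‖T (∑ i : ι, b i • y i)‖ :=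
          (T'.le_opNorm _).trans (mul_le_mul_of_nonneg_right hT' (norm_nonneg _))
        rwa [hTb] at h6
      have h5 := hlo b
      have h7 := mul_le_mul_of_nonneg_left h4 (abs_nonneg l)
      calc ∑ i : ι, |b i| ≤ |l| * ‖∑ i : ι, b i • y i‖ := h5
        _ ≤ |l| * (2 * ‖T (∑ i : ι, b i • y i)‖) := h7
        _ = 4 * |l| * (1 / 2 * ‖T (∑ i : ι, b i • y i)‖) := by ring

end Pool.Agent.Exo
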