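import Pool.Agent.Lib.MP_935088_an.EX.Stm

set_option autoImplicit false

open MeasureTheory Filter Topology Finset

namespace Pool.Agent.Exo

private theorem M1_floor_eq (k : ℕ) (s : ℝ) (hs : s ∈ Set.Ico (k : ℝ) (k + 1)) : ⌊s⌋₊ = k := by
  rw [Nat.floor_eq_iff ((Nat.cast_nonneg k).trans hs.1)]
  exact ⟨hs.1, hs.2⟩

private theorem M1_int (h : ℕ → ℝ) (N : ℕ) :
    ∫ s in (0 : ℝ)..(N : ℝ), h ⌊s⌋₊ = ∑ x ∈ range N, h x := by
  have hint : ∀ k : ℕ, IntervalIntegrable (fun s : ℝ => h ⌊s⌋₊) volume (k : ℝ) ((k + 1 : ℕ) : ℝ) := by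
    intro k
    rw [intervalIntegrable_iff_integrableOn_Ico_of_le (by push_cast; linarith)]
    have : IntegrableOn (fun _ : ℝ => h k) (Set.Ico (k : ℝ) ((k + 1 : ℕ) : ℝ)) volume :=
      integrableOn_const (by simp) (by simp)
    refine this.congr_fun ?_ measurableSet_Ico
    intro s hs
    have hs' : s ∈ Set.Ico (k : ℝ) (k + 1) := by simpa using hs
    simp only [M1_floor_eq k s hs']
  have key := intervalIntegral.sum_integral_adjacent_intervals (a := fun k : ℕ => (k : ℝ))
    (f := fun s : ℝ => h ⌊s⌋₊) (μ := volume) (n := N) (fun k _ => hint k)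
  rw [Nat.cast_zero] at key
  rw [← key]
  refine Finset.sum_congr rfl fun k _ => ?_
  have e1 : ∫ s in (k : ℝ)..((k + 1 : ℕ) : ℝ), h ⌊s⌋₊ = ∫ s in (k : ℝ)..((k + 1 : ℕ) : ℝ), h k := by
    refine intervalIntegral.integral_congr_Ioo_of_le (by push_cast; linarith) ?_
    intro s hs
    have hs' : s ∈ Set.Ico (k : ℝ) (k + 1) := by
      have := Set.Ioo_subset_Ico_self hs
      simpa using this
    simp only [M1_floor_eq k s hs']
  rw [e1]
  simp

private theorem M1_norm (n : ℕ) (f : ℕ → ℝ) : ‖cylL n f‖ = l1 n f := by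
  have h1 : ‖cylL n f‖ = ∫ t, ‖cyl n f t‖ ∂lam := by
    rw [L1.norm_eq_integral_norm]
    refine integral_congr_ae ?_
    filter_upwards [(cyl_memLp n f).coeFn_toLp] with t ht
    have : (cylL n f) t = cyl n f t := ht
    rw [this]
  rw [h1]
  have h2 : ∫ t, ‖cyl n f t‖ ∂lam = ∫ t in (0 : ℝ)..1, |f ⌊2 ^ n * t⌋₊| := by
    rw [intervalIntegral.integral_of_le zero_le_one, ← integral_Icc_eq_integral_Ioc]
    rfl
  rw [h2]
  have h3 := intervalIntegral.integral_comp_mul_left (a := (0 : ℝ)) (b := 1) (c := (2 : ℝ) ^ n)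
    (fun s : ℝ => |f ⌊s⌋₊|) (by positivity)
  rw [h3, mul_zero, mul_one]
  have h4 := M1_int (fun x => |f x|) (2 ^ n)
  push_cast at h4
  rw [h4]
  unfold l1
  rw [smul_eq_mul]
  ring

private theorem M1_add (n : ℕ) (f g : ℕ → ℝ) :
    cylL n (fun x => f x + g x) = cylL n f + cylL n g :=
  MemLp.toLp_add (cyl_memLp n f) (cyl_memLp n g)

private theorem M1_smul (n : ℕ) (c : ℝ) (f : ℕ → ℝ) :
    cylL n (fun x => c * f x) = c • cylL n f :=
  MemLp.toLp_const_smul c (cyl_memLp n f)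

theorem p_M1 : S_M1 := by
  refine ⟨M1_add, M1_smul, M1_norm, ?_, ?_⟩
  · intro n f g
    have h0 : cylL n f - cylL n g = cylL n (fun x => f x + (-1) * g x) := by
      rw [M1_add, M1_smul, neg_one_smul, sub_eq_add_neg]
    have h1 : cylL n f = cylL n g ↔ l1 n (fun x => f x + (-1) * g x) = 0 := by
      rw [← sub_eq_zero, h0, ← norm_eq_zero, M1_norm]
    rw [h1]
    unfold l1
    have h2 : (0 : ℝ) < 2 ^ n := by positivity
    rw [div_eq_zero_iff, or_iff_left h2.ne', Finset.sum_eq_zero_iff_of_nonneg (fun _ _ => abs_nonneg _)]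
    constructor
    · intro h x hx
      have := h x (mem_range.1 hx)
      simp [this]
    · intro h x hx
      have := h x (mem_range.2 hx)
      rw [abs_eq_zero] at this
      linarith
  · intro n f
    have : cyl (n + 1) (fun x => f (x / 2)) = cyl n f := by
      funext t
      unfold cyl
      have : ⌊(2 : ℝ) ^ n * t⌋₊ = ⌊(2 : ℝ) ^ (n + 1) * t⌋₊ / 2 := by
        rw [← Nat.floor_div_natCast]
        congr 1
        push_cast
        rw [pow_succ]
        ring
      rw [this]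
    unfold cylL
    simp only [this]

end Pool.Agent.Exo
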