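import Pool.Agent.Lib.MP_935088_an.EX.Stm

/-!
# M2: the digit flips preserve Lebesgue measure
-/

set_option autoImplicit false

open MeasureTheory Filter Topology Finset

namespace Pool.Agent.Exo

private theorem M2_Nh (i : ℕ) : (2 : ℝ) ^ (i + 1) * (1 / 2) ^ (i + 1) = 1 := by
  rw [← mul_pow]
  norm_num

private theorem M2_up (i : ℕ) (t : ℝ) :
    ⌊(2 : ℝ) ^ (i + 1) * (t + (1 / 2) ^ (i + 1))⌋ = ⌊(2 : ℝ) ^ (i + 1) * t⌋ + 1 := by
  rw [mul_add, M2_Nh, Int.floor_add_one]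

private theorem M2_down (i : ℕ) (t : ℝ) :
    ⌊(2 : ℝ) ^ (i + 1) * (t - (1 / 2) ^ (i + 1))⌋ = ⌊(2 : ℝ) ^ (i + 1) * t⌋ - 1 := by
  rw [mul_sub, M2_Nh, Int.floor_sub_one]

private theorem M2_measE (i : ℕ) : MeasurableSet {t : ℝ | Even ⌊(2 : ℝ) ^ (i + 1) * t⌋} := by
  have h1 : Measurable fun t : ℝ => ⌊(2 : ℝ) ^ (i + 1) * t⌋ :=
    Int.measurable_floor.comp (measurable_const.mul measurable_id)
  exact h1 (MeasurableSet.of_discrete (s := {n : ℤ | Even n}))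

private theorem M2_meas (i : ℕ) : Measurable (flip i) := by
  unfold flip
  exact Measurable.ite (M2_measE i) (measurable_id.add_const _) (measurable_id.sub_const _)

private theorem M2_vol (i : ℕ) : MeasurePreserving (flip i) volume volume := by
  refine ⟨M2_meas i, ?_⟩
  ext A hA
  rw [Measure.map_apply (M2_meas i) hA]
  set S : Set ℝ := {t : ℝ | Even ⌊(2 : ℝ) ^ (i + 1) * t⌋} with hS
  have hSm : MeasurableSet S := M2_measE i
  set h : ℝ := (1 / 2) ^ (i + 1) with hh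
  have h1 : flip i ⁻¹' A ∩ S = (fun t => t + h) ⁻¹' (A \ S) := by
    ext t
    simp only [Set.mem_inter_iff, Set.mem_preimage, Set.mem_sdiff, hS, Set.mem_ofPred_eq, flip]
    rw [M2_up]
    constructor
    · rintro ⟨h2, h3⟩
      rw [if_pos h3] at h2
      exact ⟨h2, by rw [Int.even_add_one]; exact not_not.2 h3⟩
    · rintro ⟨h2, h3⟩
      rw [Int.even_add_one, not_not] at h3
      rw [if_pos h3]
      exact ⟨h2, h3⟩
  have h2 : flip i ⁻¹' A \ S = (fun t => t + (-h)) ⁻¹' (A ∩ S) := by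
    ext t
    simp only [Set.mem_inter_iff, Set.mem_preimage, Set.mem_sdiff, hS, Set.mem_ofPred_eq, flip]
    rw [← sub_eq_add_neg, M2_down]
    constructor
    · rintro ⟨h2, h3⟩
      rw [if_neg h3] at h2
      exact ⟨h2, by rw [Int.even_sub_one]; exact h3⟩
    · rintro ⟨h2, h3⟩
      rw [Int.even_sub_one] at h3
      rw [if_neg h3]
      exact ⟨h2, h3⟩
  rw [← measure_inter_add_sdiff (flip i ⁻¹' A) hSm, h1, h2, measure_preimage_add_right,
    measure_preimage_add_right, add_comm, measure_inter_add_sdiff A hSm]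

private theorem M2_invol (i : ℕ) (t : ℝ) : flip i (flip i t) = t := by
  by_cases h : Even ⌊(2 : ℝ) ^ (i + 1) * t⌋
  · have h1 : flip i t = t + (1 / 2) ^ (i + 1) := by
      unfold flip
      rw [if_pos h]
    rw [h1]
    unfold flip
    rw [M2_up, if_neg (by rw [Int.even_add_one]; exact not_not.2 h)]
    ring
  · have h1 : flip i t = t - (1 / 2) ^ (i + 1) := by
      unfold flip
      rw [if_neg h]
    rw [h1]
    unfold flip
    rw [M2_down, if_pos (by rw [Int.even_sub_one]; exact h)]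
    ring

private theorem M2_maps (i : ℕ) (t : ℝ) (ht : t ∈ Set.Ico (0 : ℝ) 1) :
    flip i t ∈ Set.Ico (0 : ℝ) 1 := by
  obtain ⟨h0, h1⟩ := ht
  have hN : (0 : ℝ) < 2 ^ (i + 1) := by positivity
  have hh : (0 : ℝ) < (1 / 2) ^ (i + 1) := by positivity
  have hNh := M2_Nh i
  have ha : (0 : ℝ) ≤ 2 ^ (i + 1) * t := by positivity
  have hb : (2 : ℝ) ^ (i + 1) * t < 2 ^ (i + 1) := by nlinarith
  unfold flip
  split_ifs with h
  · refine ⟨by positivity, ?_⟩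
    have h2 : ⌊(2 : ℝ) ^ (i + 1) * t⌋ < 2 ^ (i + 1) := by
      rw [Int.floor_lt]
      push_cast
      exact hb
    have h3 : ⌊(2 : ℝ) ^ (i + 1) * t⌋ + 1 < 2 ^ (i + 1) := by
      rcases h with ⟨k, hk⟩
      have : (2 : ℤ) ^ (i + 1) = 2 * 2 ^ i := by ring
      omega
    have h4 : (2 : ℝ) ^ (i + 1) * t < ⌊(2 : ℝ) ^ (i + 1) * t⌋ + 1 := Int.lt_floor_add_one _
    have h5 : ((⌊(2 : ℝ) ^ (i + 1) * t⌋ : ℝ)) + 1 + 1 ≤ 2 ^ (i + 1) := by
      have h6 : ⌊(2 : ℝ) ^ (i + 1) * t⌋ + 1 + 1 ≤ 2 ^ (i + 1) := by omega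
      exact_mod_cast h6
    have h7 : (2 : ℝ) ^ (i + 1) * (t + (1 / 2) ^ (i + 1)) < 2 ^ (i + 1) * 1 := by
      rw [mul_add, hNh]
      linarith
    exact lt_of_mul_lt_mul_left h7 hN.le
  · refine ⟨?_, by linarith⟩
    have h2 : 0 ≤ ⌊(2 : ℝ) ^ (i + 1) * t⌋ := Int.floor_nonneg.2 ha
    have h3 : 1 ≤ ⌊(2 : ℝ) ^ (i + 1) * t⌋ := by
      rcases Int.not_even_iff_odd.1 h with ⟨k, hk⟩
      omega
    have h4 : ((⌊(2 : ℝ) ^ (i + 1) * t⌋ : ℝ)) ≤ (2 : ℝ) ^ (i + 1) * t := Int.floor_le _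
    have h5 : (1 : ℝ) ≤ (⌊(2 : ℝ) ^ (i + 1) * t⌋ : ℝ) := by exact_mod_cast h3
    have h7 : (2 : ℝ) ^ (i + 1) * 0 ≤ 2 ^ (i + 1) * (t - (1 / 2) ^ (i + 1)) := by
      rw [mul_sub, hNh]
      linarith
    exact le_of_mul_le_mul_left h7 hN

theorem p_M2 : S_M2 := by
  intro i
  have h1 : flip i ⁻¹' Set.Ico (0 : ℝ) 1 = Set.Ico (0 : ℝ) 1 := by
    ext t
    constructor
    · intro h
      rw [← M2_invol i t]
      exact M2_maps i _ h
    · exact M2_maps i t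
  have h2 := (M2_vol i).restrict_preimage (s := Set.Ico (0 : ℝ) 1) measurableSet_Ico
  rw [h1, Measure.restrict_congr_set Ico_ae_eq_Icc] at h2
  exact h2

end Pool.Agent.Exo
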