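import Pool.Agent.Lib.MP_935088_an.EX.Stm

set_option autoImplicit false

open MeasureTheory Filter Topology Finset

namespace Pool.Agent.Exo

private theorem M3_xor_even (x N : ℕ) (h : Even (x / 2 ^ N)) : x ^^^ 2 ^ N = x + 2 ^ N := by
  have h1 : (x ^^^ 2 ^ N) / 2 ^ N = x / 2 ^ N + 1 := by
    rw [Nat.xor_div_two_pow, Nat.div_self (by positivity), Nat.xor_one_of_even h]
  have h2 : (x ^^^ 2 ^ N) % 2 ^ N = x % 2 ^ N := by
    rw [Nat.xor_mod_two_pow, Nat.mod_self, Nat.xor_zero]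
  have h3 := Nat.div_add_mod (x ^^^ 2 ^ N) (2 ^ N)
  have h4 := Nat.div_add_mod x (2 ^ N)
  rw [h1, h2, mul_add, mul_one] at h3
  omega

private theorem M3_xor_odd (x N : ℕ) (h : ¬ Even (x / 2 ^ N)) : x = (x ^^^ 2 ^ N) + 2 ^ N := by
  have ho : Odd (x / 2 ^ N) := Nat.not_even_iff_odd.1 h
  have h1 : (x ^^^ 2 ^ N) / 2 ^ N = x / 2 ^ N - 1 := by
    rw [Nat.xor_div_two_pow, Nat.div_self (by positivity), Nat.xor_one_of_odd ho]
  have h2 : (x ^^^ 2 ^ N) % 2 ^ N = x % 2 ^ N := by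
    rw [Nat.xor_mod_two_pow, Nat.mod_self, Nat.xor_zero]
  have h3 := Nat.div_add_mod (x ^^^ 2 ^ N) (2 ^ N)
  have h4 := Nat.div_add_mod x (2 ^ N)
  obtain ⟨k, hk⟩ := ho
  rw [h1, h2] at h3
  rw [hk] at h3 h4
  have h5 : 2 * k + 1 - 1 = 2 * k := by omega
  rw [h5] at h3
  rw [mul_add, mul_one] at h4
  omega

private theorem M3_even (a : ℝ) (ha : 0 ≤ a) : Even ⌊a⌋ ↔ Even ⌊a⌋₊ := by
  rw [← Int.natCast_floor_eq_floor ha]
  exact Int.even_coe_nat _

theorem p_M3 : S_M3 := by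
  intro i n f t ht0 ht1
  have hnn : ∀ k : ℕ, (0 : ℝ) ≤ 2 ^ k * t := fun k => by positivity
  have hdiv : ∀ a b : ℕ, ⌊(2 : ℝ) ^ (a + b) * t⌋₊ / 2 ^ b = ⌊(2 : ℝ) ^ a * t⌋₊ := by
    intro a b
    rw [← Nat.floor_div_natCast]
    congr 1
    push_cast
    rw [pow_add]
    field_simp
  constructor
  · intro hin
    obtain ⟨N, rfl⟩ : ∃ N, n = i + 1 + N := ⟨n - (i + 1), by omega⟩
    have hN : i + 1 + N - 1 - i = N := by omega
    unfold cyl
    rw [hN]
    congr 1
    have hd := hdiv (i + 1) N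
    unfold flip
    have hpow : (2 : ℝ) ^ (i + 1 + N) * (1 / 2) ^ (i + 1) = ((2 ^ N : ℕ) : ℝ) := by
      push_cast
      rw [pow_add, mul_right_comm, ← mul_pow]
      norm_num
    split_ifs with he
    · rw [M3_even _ (hnn _), ← hd] at he
      rw [M3_xor_even _ _ he, mul_add, hpow, Nat.floor_add_natCast (hnn _)]
    · rw [M3_even _ (hnn _), ← hd] at he
      have h1 := M3_xor_odd _ _ he
      rw [mul_sub, hpow, Nat.floor_sub_natCast]
      omega
  · intro hni
    obtain ⟨N, rfl⟩ : ∃ N, i = n + N := ⟨i - n, by omega⟩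
    unfold cyl
    congr 1
    have hd := hdiv n (N + 1)
    have hle : (0 : ℝ) ≤ flip (n + N) t ∧
        ⌊(2 : ℝ) ^ (n + (N + 1)) * flip (n + N) t⌋₊ / 2 ^ (N + 1)
          = ⌊(2 : ℝ) ^ (n + (N + 1)) * t⌋₊ / 2 ^ (N + 1) := by
      unfold flip
      have hpow : (2 : ℝ) ^ (n + (N + 1)) * (1 / 2) ^ (n + N + 1) = ((1 : ℕ) : ℝ) := by
        rw [show n + N + 1 = n + (N + 1) by ring, ← mul_pow]
        norm_num
      have hsplit : ∀ z : ℕ, z / 2 ^ (N + 1) = z / 2 / 2 ^ N := by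
        intro z
        rw [pow_succ, mul_comm, Nat.div_div_eq_div_mul]
      split_ifs with he
      · rw [show n + N + 1 = n + (N + 1) by ring] at he
        rw [M3_even _ (hnn _)] at he
        refine ⟨by positivity, ?_⟩
        rw [mul_add, hpow, Nat.floor_add_natCast (hnn _), hsplit, hsplit]
        congr 1
        obtain ⟨k, hk⟩ := he
        omega
      · rw [show n + N + 1 = n + (N + 1) by ring] at he
        rw [M3_even _ (hnn _)] at he
        have ho := Nat.not_even_iff_odd.1 he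
        obtain ⟨k, hk⟩ := ho
        constructor
        · have h1 : (1 : ℝ) ≤ 2 ^ (n + (N + 1)) * t := by
            have h2 := Nat.floor_le (hnn (n + (N + 1)))
            have h3 : (1 : ℝ) ≤ (⌊(2 : ℝ) ^ (n + (N + 1)) * t⌋₊ : ℝ) := by
              have : 1 ≤ ⌊(2 : ℝ) ^ (n + (N + 1)) * t⌋₊ := by omega
              exact_mod_cast this
            linarith
          have h4 : (0 : ℝ) < 2 ^ (n + (N + 1)) := by positivity
          have h5 : (2 : ℝ) ^ (n + (N + 1)) * (t - (1 / 2) ^ (n + N + 1)) ≥ 0 := by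
            rw [mul_sub, hpow]
            push_cast
            linarith
          exact nonneg_of_mul_nonneg_right h5 h4
        · rw [mul_sub, hpow, Nat.floor_sub_natCast, hsplit, hsplit]
          congr 1
          omega
    have h6 := hdiv n (N + 1)
    have h7 : ⌊(2 : ℝ) ^ (n + (N + 1)) * flip (n + N) t⌋₊ / 2 ^ (N + 1)
        = ⌊(2 : ℝ) ^ n * flip (n + N) t⌋₊ := by
      rw [← Nat.floor_div_natCast]
      congr 1
      push_cast
      rw [pow_add]
      field_simp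
    rw [← h7, hle.2, h6]

end Pool.Agent.Exo
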