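import Pool.Agent.Lib.MP_935088_an.EX.Stm

/-!
# M4: density of the cylinder functions
-/

set_option autoImplicit false

open MeasureTheory Filter Topology Finset

namespace Pool.Agent.Exo

private lemma M4_approx (h : ℝ → ℝ) (hc : Continuous h) (ε : ℝ) (hε : 0 < ε) :
    ∃ (n : ℕ) (f : ℕ → ℝ), ∀ t ∈ Set.Icc (0 : ℝ) 1, ‖h t - cyl n f t‖ ≤ ε := by
  have hu := isCompact_Icc.uniformContinuousOn_of_continuous
    (hc.continuousOn (s := Set.Icc (0 : ℝ) 1))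
  rw [Metric.uniformContinuousOn_iff] at hu
  obtain ⟨δ, hδ, hd⟩ := hu ε hε
  obtain ⟨n, hn⟩ := exists_pow_lt_of_lt_one hδ (by norm_num : (1 / 2 : ℝ) < 1)
  refine ⟨n, fun x => h (x / 2 ^ n), fun t ht => ?_⟩
  have h2 : (0 : ℝ) < 2 ^ n := by positivity
  have h1 : (⌊2 ^ n * t⌋₊ : ℝ) ≤ 2 ^ n * t := Nat.floor_le (mul_nonneg h2.le ht.1)
  have h3 : 2 ^ n * t < (⌊2 ^ n * t⌋₊ : ℝ) + 1 := Nat.lt_floor_add_one _
  have h4 : (⌊2 ^ n * t⌋₊ : ℝ) / 2 ^ n ≤ t := by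
    rw [div_le_iff₀ h2]
    linarith
  have h5 : t < (⌊2 ^ n * t⌋₊ : ℝ) / 2 ^ n + (1 / 2) ^ n := by
    have e : (⌊2 ^ n * t⌋₊ : ℝ) / 2 ^ n + (1 / 2) ^ n = ((⌊2 ^ n * t⌋₊ : ℝ) + 1) / 2 ^ n := by
      rw [one_div, inv_pow]
      ring
    rw [e, lt_div_iff₀ h2]
    linarith
  have h6 : (⌊2 ^ n * t⌋₊ : ℝ) / 2 ^ n ∈ Set.Icc (0 : ℝ) 1 :=
    ⟨by positivity, h4.trans ht.2⟩
  have h7 := hd t ht _ h6 (by
    rw [Real.dist_eq, abs_lt]
    constructor <;> linarith)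
  rw [dist_eq_norm] at h7
  exact h7.le

theorem p_M4 : S_M4 := by
  intro g
  rw [Metric.mem_closure_iff]
  intro ε hε
  have hg : Integrable (g : ℝ → ℝ) lam := L1.integrable_coeFn g
  obtain ⟨h, hh1, hh2⟩ := hg.exists_boundedContinuous_integral_sub_le (ε := ε / 4) (by positivity)
  obtain ⟨n, f, hf⟩ := M4_approx h h.continuous (ε / 4) (by positivity)
  refine ⟨cylL n f, ⟨n, f, rfl⟩, ?_⟩
  rw [dist_eq_norm, L1.norm_eq_integral_norm]
  have hcy : Integrable (cyl n f) lam := memLp_one_iff_integrable.mp (cyl_memLp n f)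
  have e1 : ∫ t, ‖(g - cylL n f : E) t‖ ∂lam = ∫ t, ‖g t - cyl n f t‖ ∂lam := by
    refine integral_congr_ae ?_
    filter_upwards [Lp.coeFn_sub g (cylL n f), (cyl_memLp n f).coeFn_toLp] with t h1 h2
    rw [h1, Pi.sub_apply]
    unfold cylL
    rw [h2]
  rw [e1]
  have e2 : ∫ t, ‖g t - cyl n f t‖ ∂lam ≤ ∫ t, (‖g t - h t‖ + ε / 4) ∂lam := by
    refine integral_mono_ae (hg.sub hcy).norm ((hg.sub hh2).norm.add (integrable_const _)) ?_
    filter_upwards [ae_restrict_mem measurableSet_Icc] with t ht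
    have h1 := hf t ht
    have h2 := norm_add_le (g t - h t) (h t - cyl n f t)
    rw [sub_add_sub_cancel] at h2
    change ‖g t - cyl n f t‖ ≤ ‖g t - h t‖ + ε / 4
    linarith
  have e3 : ∫ t, (‖g t - h t‖ + ε / 4) ∂lam = ∫ t, ‖g t - h t‖ ∂lam + ε / 4 := by
    have hi : Integrable (fun t => ‖g t - h t‖) lam := (hg.sub hh2).norm
    rw [integral_add hi (integrable_const _)]
    simp
  linarith

end Pool.Agent.Exo
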