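import Pool.Agent.Lib.MP_935088_an.EX.Stm

/-! Piece M5: bounded approximation by cylinder functions -/

set_option autoImplicit false

open MeasureTheory Filter Topology Finset

namespace Pool.Agent.Exo

private lemma M5_clamp {a b K : ℝ} (ha : |a| ≤ K) :
    |a - max (-K) (min K b)| ≤ |a - b| := by
  rw [abs_le] at ha
  rcases le_total K b with h | h
  · rw [min_eq_left h, max_eq_right (by linarith), abs_of_nonpos (by linarith),
      abs_of_nonpos (by linarith)]
    linarith
  · rw [min_eq_right h]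
    rcases le_total (-K) b with h2 | h2
    · rw [max_eq_right h2]
    · rw [max_eq_left h2, abs_of_nonneg (by linarith), abs_of_nonneg (by linarith)]
      linarith

theorem p_M5 (hM4 : S_M4) : S_M5 := by
  intro g K hK hg ε hε
  obtain ⟨h, ⟨n, f₀, rfl⟩, hd⟩ := hM4.exists_dist_lt g hε
  refine ⟨n, fun x => max (-K) (min K (f₀ x)), fun x => ?_, ?_⟩
  · rw [abs_le]
    exact ⟨le_max_left _ _, max_le (by linarith) (min_le_left _ _)⟩
  · rw [dist_eq_norm] at hd
    refine le_trans ?_ hd.le
    refine Lp.norm_le_norm_of_ae_le ?_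
    have h1 : (cylL n f₀ : ℝ → ℝ) =ᵐ[lam] cyl n f₀ := MemLp.coeFn_toLp _
    have h2 : (cylL n (fun x => max (-K) (min K (f₀ x))) : ℝ → ℝ) =ᵐ[lam]
        cyl n (fun x => max (-K) (min K (f₀ x))) := MemLp.coeFn_toLp _
    filter_upwards [hg, h1, h2, Lp.coeFn_sub g (cylL n f₀),
      Lp.coeFn_sub g (cylL n (fun x => max (-K) (min K (f₀ x))))] with t a1 a2 a3 a4 a5
    rw [a4, a5, Pi.sub_apply, Pi.sub_apply, a2, a3, Real.norm_eq_abs, Real.norm_eq_abs]
    unfold cyl
    exact M5_clamp a1

end Pool.Agent.Exo
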