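import Pool.Agent.Lib.MP_935088_an.EX.Stm

set_option autoImplicit false

open MeasureTheory Filter Topology Finset

namespace Pool.Agent.Exo

/-- composition with the flip -/
noncomputable def M6_C (h : S_M2) (i : ℕ) : E →L[ℝ] E :=
  (Lp.compMeasurePreservingₗᵢ ℝ (flip i) (h i)).toContinuousLinearMap

theorem M6_C_norm (h : S_M2) (i : ℕ) : ‖M6_C h i‖ ≤ 1 := by
  refine ContinuousLinearMap.opNorm_le_bound _ zero_le_one (fun g => ?_)
  rw [one_mul]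
  exact ((Lp.compMeasurePreservingₗᵢ ℝ (flip i) (h i)).norm_map g).le

theorem M6_lt : ∀ᵐ t ∂lam, 0 ≤ t ∧ t < 1 := by
  have h1 : ∀ᵐ t ∂lam, t ∈ Set.Icc (0 : ℝ) 1 := ae_restrict_mem measurableSet_Icc
  have h2 : ∀ᵐ t ∂lam, t ≠ 1 := by
    have : ∀ᵐ t ∂(volume : Measure ℝ), t ≠ 1 := by
      rw [ae_iff]
      simp
    exact ae_restrict_of_ae this
  filter_upwards [h1, h2] with t ht1 ht2
  exact ⟨ht1.1, lt_of_le_of_ne ht1.2 ht2⟩

theorem M6_C_lt (h : S_M2) (h3 : S_M3) (i n : ℕ) (f : ℕ → ℝ) (hi : i < n) :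
    M6_C h i (cylL n f) = cylL n (fun x => f (x ^^^ 2 ^ (n - 1 - i))) := by
  have e : M6_C h i (cylL n f) =
      ((cyl_memLp n f).comp_measurePreserving (h i)).toLp _ := rfl
  rw [e]
  unfold cylL
  rw [MemLp.toLp_eq_toLp_iff]
  filter_upwards [M6_lt] with t ht
  exact (h3 i n f t ht.1 ht.2).1 hi

theorem M6_C_ge (h : S_M2) (h3 : S_M3) (i n : ℕ) (f : ℕ → ℝ) (hi : n ≤ i) :
    M6_C h i (cylL n f) = cylL n f := by
  have e : M6_C h i (cylL n f) =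
      ((cyl_memLp n f).comp_measurePreserving (h i)).toLp _ := rfl
  rw [e]
  unfold cylL
  rw [MemLp.toLp_eq_toLp_iff]
  filter_upwards [M6_lt] with t ht
  exact (h3 i n f t ht.1 ht.2).2 hi

/-- the average -/
noncomputable def M6_Av (h : S_M2) (i : ℕ) : E →L[ℝ] E :=
  (1 / 2 : ℝ) • (ContinuousLinearMap.id ℝ E + M6_C h i)

theorem M6_norm (h : S_M2) (i : ℕ) : ‖M6_Av h i‖ ≤ 1 := by
  unfold M6_Av
  rw [norm_smul]
  have h1 : ‖ContinuousLinearMap.id ℝ E + M6_C h i‖ ≤ 1 + 1 :=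
    (norm_add_le _ _).trans (add_le_add ContinuousLinearMap.norm_id_le (M6_C_norm h i))
  have h2 : ‖(1 / 2 : ℝ)‖ = 1 / 2 := by norm_num
  rw [h2]
  linarith

theorem M6_apply (h : S_M2) (i : ℕ) (g : E) :
    M6_Av h i g = (1 / 2 : ℝ) • (g + M6_C h i g) := rfl

theorem M6_cyl1 (h1 : S_M1) (h : S_M2) (h3 : S_M3) (i n : ℕ) (f : ℕ → ℝ) (hi : i < n) :
    M6_Av h i (cylL n f) = cylL n (avg (n - 1 - i) f) := by
  rw [M6_apply, M6_C_lt h h3 i n f hi, ← h1.1, ← h1.2.1]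
  congr 1
  funext x
  unfold avg
  ring

theorem M6_cyl2 (h : S_M2) (h3 : S_M3) (i n : ℕ) (f : ℕ → ℝ) (hi : n ≤ i) :
    M6_Av h i (cylL n f) = cylL n f := by
  rw [M6_apply, M6_C_ge h h3 i n f hi, ← two_smul ℝ, smul_smul]
  norm_num

theorem M6_avg_comm (j k : ℕ) (f : ℕ → ℝ) : avg j (avg k f) = avg k (avg j f) := by
  funext x
  unfold avg
  rw [Nat.xor_right_comm x (2 ^ j) (2 ^ k)]
  ring

theorem M6_raise (h1 : S_M1) (n : ℕ) (f : ℕ → ℝ) (m : ℕ) :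
    ∃ f' : ℕ → ℝ, cylL n f = cylL (n + m) f' := by
  induction m with
  | zero => exact ⟨f, rfl⟩
  | succ m ih =>
    obtain ⟨f', hf'⟩ := ih
    exact ⟨fun x => f' (x / 2), by rw [hf', ← add_assoc, h1.2.2.2.2]⟩

theorem M6_comm_cyl (h1 : S_M1) (h : S_M2) (h3 : S_M3) (i j n : ℕ) (f : ℕ → ℝ) :
    M6_Av h i (M6_Av h j (cylL n f)) = M6_Av h j (M6_Av h i (cylL n f)) := by
  obtain ⟨f', hf'⟩ := M6_raise h1 n f (i + j + 1)
  have hi : i < n + (i + j + 1) := by omega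
  have hj : j < n + (i + j + 1) := by omega
  rw [hf', M6_cyl1 h1 h h3 j _ _ hj, M6_cyl1 h1 h h3 i _ _ hi, M6_cyl1 h1 h h3 i _ _ hi,
    M6_cyl1 h1 h h3 j _ _ hj, M6_avg_comm]

theorem M6_comm (h1 : S_M1) (h : S_M2) (h3 : S_M3) (h4 : S_M4) (i j : ℕ) :
    M6_Av h i * M6_Av h j = M6_Av h j * M6_Av h i := by
  apply ContinuousLinearMap.ext
  intro g
  have hc : Continuous (fun g : E => (M6_Av h i * M6_Av h j) g) :=
    (M6_Av h i * M6_Av h j).continuous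
  have hc' : Continuous (fun g : E => (M6_Av h j * M6_Av h i) g) :=
    (M6_Av h j * M6_Av h i).continuous
  have := Continuous.ext_on h4 hc hc' (by
    rintro _ ⟨n, f, rfl⟩
    exact M6_comm_cyl h1 h h3 i j n f)
  exact congrFun this g

theorem p_M6 (hM1 : S_M1) (hM2 : S_M2) (hM3 : S_M3) (hM4 : S_M4) : S_M6 := by
  refine ⟨M6_Av hM2, ⟨M6_norm hM2, M6_comm hM1 hM2 hM3 hM4, ?_⟩,
    fun i n f hi => M6_cyl1 hM1 hM2 hM3 i n f hi, fun i n f hi => M6_cyl2 hM2 hM3 i n f hi⟩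
  refine hM4.mono ?_
  rintro _ ⟨n, f, rfl⟩
  exact ⟨n, fun i hi => M6_cyl2 hM2 hM3 i n f hi⟩

end Pool.Agent.Exo
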