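import Pool.Agent.Lib.MP_935088_an.EX.Stm

set_option autoImplicit false

open MeasureTheory Filter Topology Finset

namespace Pool.Agent.Exo

private theorem M7_map (a b c d : ℝ) (ha : 0 < a) :
    Measure.map (fun t : ℝ => a * t + b) (volume.restrict (Set.Ioc c d)) =
      ENNReal.ofReal a⁻¹ • volume.restrict (Set.Ioc (a * c + b) (a * d + b)) := by
  have hm : Measurable (fun t : ℝ => a * t + b) := by fun_prop
  have h1 : Measure.map (fun t : ℝ => a * t + b) volume = ENNReal.ofReal a⁻¹ • volume := by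
    have h2 : (fun t : ℝ => a * t + b) = (fun t : ℝ => t + b) ∘ (fun t : ℝ => a * t) := rfl
    rw [h2, ← Measure.map_map (by fun_prop) (by fun_prop), Real.map_volume_mul_left ha.ne',
      Measure.map_smul, map_add_right_eq_self, abs_of_pos (inv_pos.2 ha)]
  have h3 : (fun t : ℝ => a * t + b) ⁻¹' (Set.Ioc (a * c + b) (a * d + b)) = Set.Ioc c d := by
    ext t
    simp only [Set.mem_preimage, Set.mem_Ioc]
    constructor
    · rintro ⟨h, h'⟩
      exact ⟨by nlinarith, by nlinarith⟩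
    · rintro ⟨h, h'⟩
      exact ⟨by nlinarith, by nlinarith⟩
  have h4 := Measure.restrict_map (μ := volume) hm
    (measurableSet_Ioc (a := a * c + b) (b := a * d + b))
  rw [h3, h1, Measure.restrict_smul] at h4
  exact h4.symm

private theorem M7_lam : lam = volume.restrict (Set.Ioc (0 : ℝ) 1) :=
  (Measure.restrict_congr_set Ioc_ae_eq_Icc).symm

/-- well defined on classes -/
private theorem M7_congr (w φ : ℝ → ℝ) (hw : Measurable w) (hφ : Measurable φ) (C : ENNReal)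
    (h : ∀ f : ℝ → ℝ, Measurable f → ∫⁻ t, ‖w t * f (φ t)‖ₑ ∂lam ≤ C * ∫⁻ t, ‖f t‖ₑ ∂lam)
    (f g : ℝ → ℝ) (hf : Measurable f) (hg : Measurable g) (hfg : f =ᵐ[lam] g) :
    (fun t => w t * f (φ t)) =ᵐ[lam] fun t => w t * g (φ t) := by
  have h1 := h (fun t => f t - g t) (hf.sub hg)
  have h2 : ∫⁻ t, ‖f t - g t‖ₑ ∂lam = 0 := by
    rw [lintegral_eq_zero_iff (by fun_prop)]
    filter_upwards [hfg] with t ht
    simp [ht]
  rw [h2, mul_zero] at h1
  have h3 := le_antisymm h1 (zero_le)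
  rw [lintegral_eq_zero_iff (by fun_prop)] at h3
  filter_upwards [h3] with t ht
  have h4 : w t * (f (φ t) - g (φ t)) = 0 := by simpa using ht
  linarith

private theorem M7_meas (g : E) : Measurable (g : ℝ → ℝ) := (Lp.stronglyMeasurable g).measurable

private theorem M7_norm (g : E) : ENNReal.ofReal ‖g‖ = ∫⁻ t, ‖g t‖ₑ ∂lam := by
  rw [Lp.norm_def, eLpNorm_one_eq_lintegral_enorm, ENNReal.ofReal_toReal]
  have := (Lp.memLp g).2
  rw [eLpNorm_one_eq_lintegral_enorm] at this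
  exact this.ne

private theorem M7_op (w φ : ℝ → ℝ) (hw : Measurable w) (hφ : Measurable φ) (C : ENNReal)
    (hC : C ≠ ⊤)
    (h : ∀ f : ℝ → ℝ, Measurable f → ∫⁻ t, ‖w t * f (φ t)‖ₑ ∂lam ≤ C * ∫⁻ t, ‖f t‖ₑ ∂lam) :
    ∃ S : E →L[ℝ] E, ‖S‖ ≤ C.toReal ∧ ∀ g : E, (S g : ℝ → ℝ) =ᵐ[lam] fun t => w t * g (φ t) := by
  have hm : ∀ g : E, MemLp (fun t => w t * g (φ t)) 1 lam := by
    intro g
    refine ⟨(hw.mul ((M7_meas g).comp hφ)).aestronglyMeasurable, ?_⟩
    rw [eLpNorm_one_eq_lintegral_enorm]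
    refine lt_of_le_of_lt (h g (M7_meas g)) ?_
    rw [← M7_norm]
    exact ENNReal.mul_lt_top hC.lt_top ENNReal.ofReal_lt_top
  let S0 : E →ₗ[ℝ] E :=
    { toFun := fun g => (hm g).toLp _
      map_add' := by
        intro f g
        rw [← MemLp.toLp_add, MemLp.toLp_eq_toLp_iff]
        have h1 := M7_congr w φ hw hφ C h (f + g : E) (fun t => f t + g t) (M7_meas _)
          ((M7_meas f).add (M7_meas g)) (Lp.coeFn_add f g)
        filter_upwards [h1] with t ht
        rw [ht]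
        simp only [Pi.add_apply]
        ring
      map_smul' := by
        intro c g
        rw [RingHom.id_apply, ← MemLp.toLp_const_smul, MemLp.toLp_eq_toLp_iff]
        have h1 := M7_congr w φ hw hφ C h (c • g : E) (fun t => c * g t) (M7_meas _)
          ((M7_meas g).const_mul c) (Lp.coeFn_smul c g)
        filter_upwards [h1] with t ht
        rw [ht]
        simp only [Pi.smul_apply, smul_eq_mul]
        ring }
  refine ⟨S0.mkContinuous C.toReal ?_, LinearMap.mkContinuous_norm_le _ ENNReal.toReal_nonneg _,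
    fun g => ?_⟩
  · intro g
    have h1 : ENNReal.ofReal ‖S0 g‖ ≤ ENNReal.ofReal (C.toReal * ‖g‖) := by
      rw [M7_norm, ENNReal.ofReal_mul ENNReal.toReal_nonneg, ENNReal.ofReal_toReal hC, M7_norm]
      refine le_trans (le_of_eq ?_) (h g (M7_meas g))
      refine lintegral_congr_ae ?_
      have h2 : (S0 g : ℝ → ℝ) =ᵐ[lam] fun t => w t * g (φ t) := (hm g).coeFn_toLp
      filter_upwards [h2] with t ht
      rw [ht]
    exact (ENNReal.ofReal_le_ofReal_iff (by positivity)).1 h1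
  · exact (hm g).coeFn_toLp

/-- the maps -/
private noncomputable def M7_psi (k : ℕ) (t : ℝ) : ℝ := 2 ^ (k + 1) * t + (-1)

private noncomputable def M7_phi (k : ℕ) (t : ℝ) : ℝ := (1 / 2) ^ (k + 1) * t + (1 / 2) ^ (k + 1)

private noncomputable def M7_I (k : ℕ) : Set ℝ := Set.Ioc ((1 / 2) ^ (k + 1)) ((1 / 2) ^ k)

private theorem M7_psi_meas (k : ℕ) : Measurable (M7_psi k) := by unfold M7_psi; fun_prop

private theorem M7_phi_meas (k : ℕ) : Measurable (M7_phi k) := by unfold M7_phi; fun_prop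

private theorem M7_I_meas (k : ℕ) : MeasurableSet (M7_I k) := measurableSet_Ioc

private theorem M7_I_sub (k : ℕ) : M7_I k ⊆ Set.Ioc (0 : ℝ) 1 := by
  intro t ht
  refine ⟨lt_trans (by positivity) ht.1, ht.2.trans ?_⟩
  exact pow_le_one₀ (by norm_num) (by norm_num)

private theorem M7_disj {k l : ℕ} (hkl : k < l) {t : ℝ} (hk : t ∈ M7_I k) : t ∉ M7_I l := by
  intro hl
  have h1 : (1 / 2 : ℝ) ^ l ≤ (1 / 2) ^ (k + 1) :=
    pow_le_pow_of_le_one (by norm_num) (by norm_num) hkl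
  exact absurd (hl.2.trans h1) (not_le.2 hk.1)

private theorem M7_map_psi (k : ℕ) : Measure.map (M7_psi k) (volume.restrict (M7_I k)) =
    ENNReal.ofReal ((2 ^ (k + 1) : ℝ)⁻¹) • lam := by
  have h := M7_map (2 ^ (k + 1)) (-1) ((1 / 2) ^ (k + 1)) ((1 / 2) ^ k) (by positivity)
  have h1 : (2 : ℝ) ^ (k + 1) * (1 / 2) ^ (k + 1) = 1 := by
    rw [← mul_pow]; norm_num
  have h2 : (2 : ℝ) ^ (k + 1) * (1 / 2) ^ k = 2 := by
    rw [pow_succ, mul_right_comm, ← mul_pow]; norm_num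
  rw [h1, h2] at h
  rw [M7_lam]
  have h3 : (1 : ℝ) + -1 = 0 := by norm_num
  have h4 : (2 : ℝ) + -1 = 1 := by norm_num
  rw [h3, h4] at h
  exact h

private theorem M7_map_phi (k : ℕ) : Measure.map (M7_phi k) lam =
    ENNReal.ofReal (2 ^ (k + 1)) • volume.restrict (M7_I k) := by
  have h := M7_map ((1 / 2) ^ (k + 1)) ((1 / 2) ^ (k + 1)) 0 1 (by positivity)
  rw [M7_lam]
  have h1 : ((1 / 2 : ℝ) ^ (k + 1))⁻¹ = 2 ^ (k + 1) := by
    rw [one_div, inv_pow, inv_inv]
  rw [h1] at h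
  have h2 : (1 / 2 : ℝ) ^ (k + 1) * 0 + (1 / 2) ^ (k + 1) = (1 / 2) ^ (k + 1) := by ring
  have h3 : (1 / 2 : ℝ) ^ (k + 1) * 1 + (1 / 2) ^ (k + 1) = (1 / 2) ^ k := by
    rw [pow_succ]; ring
  rw [h2, h3] at h
  exact h

private theorem M7_hT (k : ℕ) (f : ℝ → ℝ) (hf : Measurable f) :
    ∫⁻ t, ‖(M7_I k).indicator (fun _ => (2 : ℝ) ^ (k + 1)) t * f (M7_psi k t)‖ₑ ∂lam =
      ∫⁻ t, ‖f t‖ₑ ∂lam := by
  have h1 : ∀ t, ‖(M7_I k).indicator (fun _ => (2 : ℝ) ^ (k + 1)) t * f (M7_psi k t)‖ₑ =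
      (M7_I k).indicator (fun t => ENNReal.ofReal (2 ^ (k + 1)) * ‖f (M7_psi k t)‖ₑ) t := by
    intro t
    by_cases ht : t ∈ M7_I k
    · rw [Set.indicator_of_mem ht, Set.indicator_of_mem ht, enorm_mul]
      congr 1
      rw [Real.enorm_eq_ofReal (by positivity)]
    · rw [Set.indicator_of_notMem ht, Set.indicator_of_notMem ht]
      simp
  simp_rw [h1]
  rw [lintegral_indicator (M7_I_meas k), M7_lam, Measure.restrict_restrict (M7_I_meas k),
    Set.inter_eq_left.2 (M7_I_sub k), lintegral_const_mul _ (by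
      exact (hf.comp (M7_psi_meas k)).enorm)]
  have h2 : ∫⁻ t, ‖f (M7_psi k t)‖ₑ ∂(volume.restrict (M7_I k)) =
      ∫⁻ t, ‖f t‖ₑ ∂(Measure.map (M7_psi k) (volume.restrict (M7_I k))) := by
    rw [lintegral_map hf.enorm (M7_psi_meas k)]
  rw [h2, M7_map_psi, lintegral_smul_measure, ← M7_lam, smul_eq_mul, ← mul_assoc,
    ← ENNReal.ofReal_mul (by positivity), mul_inv_cancel₀ (by positivity), ENNReal.ofReal_one,
    one_mul]

private theorem M7_hT' (k : ℕ) (f : ℝ → ℝ) (hf : Measurable f) :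
    ∫⁻ t, ‖((2 : ℝ) ^ (k + 1))⁻¹ * f (M7_phi k t)‖ₑ ∂lam =
      ∫⁻ t in M7_I k, ‖f t‖ₑ := by
  have h1 : ∀ t, ‖((2 : ℝ) ^ (k + 1))⁻¹ * f (M7_phi k t)‖ₑ =
      ENNReal.ofReal ((2 ^ (k + 1))⁻¹) * ‖f (M7_phi k t)‖ₑ := by
    intro t
    rw [enorm_mul]
    congr 1
    rw [Real.enorm_eq_ofReal (by positivity)]
  simp_rw [h1]
  rw [lintegral_const_mul _ (by exact (hf.comp (M7_phi_meas k)).enorm)]
  have h2 : ∫⁻ t, ‖f (M7_phi k t)‖ₑ ∂lam =
      ∫⁻ t, ‖f t‖ₑ ∂(Measure.map (M7_phi k) lam) := by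
    rw [lintegral_map hf.enorm (M7_phi_meas k)]
  rw [h2, M7_map_phi, lintegral_smul_measure, smul_eq_mul, ← mul_assoc,
    ← ENNReal.ofReal_mul (by positivity), inv_mul_cancel₀ (by positivity), ENNReal.ofReal_one,
    one_mul]

private theorem M7_le (k : ℕ) (f : ℝ → ℝ) :
    ∫⁻ t in M7_I k, ‖f t‖ₑ ≤ ∫⁻ t, ‖f t‖ₑ ∂lam := by
  rw [M7_lam]
  exact lintegral_mono' (Measure.restrict_mono_set _ (M7_I_sub k)) le_rfl

theorem p_M7 : S_M7 := by
  have hT := fun k => M7_op ((M7_I k).indicator (fun _ => (2 : ℝ) ^ (k + 1))) (M7_psi k)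
    (measurable_const.indicator (M7_I_meas k)) (M7_psi_meas k) 1 ENNReal.one_ne_top
    (fun f hf => by rw [M7_hT k f hf, one_mul])
  have hT' := fun k => M7_op (fun _ => ((2 : ℝ) ^ (k + 1))⁻¹) (M7_phi k)
    measurable_const (M7_phi_meas k) 1 ENNReal.one_ne_top
    (fun f hf => by rw [M7_hT' k f hf, one_mul]; exact M7_le k f)
  choose T hT1 hT2 using hT
  choose T' hT'1 hT'2 using hT'
  refine ⟨T, T', fun k => by simpa using hT1 k, fun g N => ?_, fun k l g => ?_⟩
  · have h1 : ∀ k, ENNReal.ofReal ‖T' k g‖ = ∫⁻ t in M7_I k, ‖g t‖ₑ := by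
      intro k
      rw [M7_norm, ← M7_hT' k g (M7_meas g)]
      refine lintegral_congr_ae ?_
      filter_upwards [hT'2 k g] with t ht
      rw [ht]
    have h2 : ENNReal.ofReal (∑ k ∈ range N, ‖T' k g‖) ≤ ENNReal.ofReal ‖g‖ := by
      rw [ENNReal.ofReal_sum_of_nonneg (fun k _ => norm_nonneg _)]
      simp_rw [h1]
      rw [← lintegral_biUnion_finset]
      · rw [M7_norm]
        have h5 : lam = volume.restrict (Set.Ioc (0 : ℝ) 1) := M7_lam
        refine lintegral_mono' ?_ le_rfl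
        calc volume.restrict (⋃ b ∈ range N, M7_I b) ≤ volume.restrict (Set.Ioc (0 : ℝ) 1) :=
              Measure.restrict_mono_set _ (Set.iUnion₂_subset fun k _ => M7_I_sub k)
          _ = lam := h5.symm
      · intro k _ l _ hkl
        refine Set.disjoint_left.2 fun t hk hl => ?_
        rcases lt_or_gt_of_ne hkl with h | h
        · exact M7_disj h hk hl
        · exact M7_disj h hl hk
      · exact fun k _ => M7_I_meas k
    exact (ENNReal.ofReal_le_ofReal_iff (norm_nonneg _)).1 h2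
  · have h1 := hT'2 k (T l g)
    have h2 := M7_congr (fun _ => ((2 : ℝ) ^ (k + 1))⁻¹) (M7_phi k) measurable_const
      (M7_phi_meas k) 1 (fun f hf => by rw [M7_hT' k f hf, one_mul]; exact M7_le k f)
      (T l g) (fun t => (M7_I l).indicator (fun _ => (2 : ℝ) ^ (l + 1)) t * g (M7_psi l t))
      (M7_meas _) ((measurable_const.indicator (M7_I_meas l)).mul
        ((M7_meas g).comp (M7_psi_meas l))) (hT2 l g)
    have hmem : ∀ t ∈ Set.Ioc (0 : ℝ) 1, M7_phi k t ∈ M7_I k := by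
      intro t ht
      have hp : (0 : ℝ) < (1 / 2) ^ (k + 1) := by positivity
      have h3 : (1 / 2 : ℝ) ^ k = 2 * (1 / 2) ^ (k + 1) := by rw [pow_succ]; ring
      refine ⟨?_, ?_⟩
      · unfold M7_phi
        nlinarith [mul_pos hp ht.1]
      · unfold M7_phi
        rw [h3]
        nlinarith [ht.2]
    have hlam : ∀ᵐ t ∂lam, t ∈ Set.Ioc (0 : ℝ) 1 := by
      rw [M7_lam]; exact ae_restrict_mem measurableSet_Ioc
    refine Lp.ext ?_
    by_cases hkl : k = l
    · subst hkl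
      rw [if_pos rfl]
      filter_upwards [h1, h2, hlam] with t ht1 ht2 ht
      rw [ht1, ht2, Set.indicator_of_mem (hmem t ht)]
      have h4 : M7_psi k (M7_phi k t) = t := by
        unfold M7_psi M7_phi
        have h5 : (2 : ℝ) ^ (k + 1) * (1 / 2) ^ (k + 1) = 1 := by rw [← mul_pow]; norm_num
        calc (2 : ℝ) ^ (k + 1) * ((1 / 2) ^ (k + 1) * t + (1 / 2) ^ (k + 1)) + -1
            = ((2 : ℝ) ^ (k + 1) * (1 / 2) ^ (k + 1)) * (t + 1) - 1 := by ring
          _ = t := by rw [h5]; ring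
      rw [h4, ← mul_assoc, inv_mul_cancel₀ (by positivity), one_mul]
    · rw [if_neg hkl]
      filter_upwards [h1, h2, hlam, Lp.coeFn_zero ℝ 1 lam] with t ht1 ht2 ht ht0
      rw [ht1, ht2, ht0]
      have h4 : M7_phi k t ∉ M7_I l := by
        rcases lt_or_gt_of_ne hkl with h | h
        · exact M7_disj h (hmem t ht)
        · intro h'
          exact M7_disj h h' (hmem t ht)
      rw [Set.indicator_of_notMem h4]
      simp

end Pool.Agent.Exo
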