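import Pool.Agent.Lib.MP_935088_an.EX.Stm

/-!
# MP_935088_an: piece M8
-/

set_option autoImplicit false

open MeasureTheory Filter Topology Finset

namespace Pool.Agent.Exo

theorem p_M8 (hM7 : S_M7) (hA3 : S_A3) (hA4 : S_A4) : S_M8 := by
  obtain ⟨T, T', hT, hT', hTT⟩ := hM7
  obtain ⟨J, -, hJ⟩ := hA3 E E T 1 hT
  obtain ⟨Q, -, hQ⟩ := hA4 E E T' 1 zero_le_one (fun g N => by
    rw [one_mul]
    exact hT' g N)
  refine ⟨J, Q, fun F => ?_⟩
  ext1
  funext k
  rw [hQ]
  have h1 : HasSum (fun j => T' k (T j (F j))) (T' k (J F)) := (hJ F).mapL (T' k)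
  have h2 : HasSum (fun j => T' k (T j (F j))) (F k) := by
    have h3 : (fun j => T' k (T j (F j))) = fun j => if j = k then F k else 0 := by
      funext j
      rw [hTT]
      by_cases h : k = j
      · rw [if_pos h, if_pos h.symm, h]
      · rw [if_neg h, if_neg (Ne.symm h)]
    rw [h3]
    exact hasSum_ite_eq k (F k)
  exact h1.unique h2

end Pool.Agent.Exo
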