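import Pool.Agent.Lib.MP_935088_an.EX.Stm

set_option autoImplicit false

open MeasureTheory Filter Topology Finset

namespace Pool.Agent.Exo

/-- dyadic interval -/
private def M9_I (n x : ℕ) : Set ℝ := {t | 0 ≤ t ∧ ⌊2 ^ n * t⌋₊ = x}

private theorem M9_I_eq (n x : ℕ) : M9_I n x = Set.Ico ((x : ℝ) / 2 ^ n) ((x + 1 : ℝ) / 2 ^ n) := by
  have h2 : (0 : ℝ) < 2 ^ n := by positivity
  ext t
  simp only [M9_I, Set.mem_setOf_eq, Set.mem_Ico]
  rw [div_le_iff₀ h2, lt_div_iff₀ h2]
  constructor
  · rintro ⟨h0, h⟩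
    have h1 : (0 : ℝ) ≤ 2 ^ n * t := by positivity
    have := (Nat.floor_eq_iff h1).1 h
    constructor
    · linarith [this.1, mul_comm (2 ^ n : ℝ) t]
    · linarith [this.2, mul_comm (2 ^ n : ℝ) t]
  · rintro ⟨h1, h3⟩
    have h4 : (0 : ℝ) ≤ t * 2 ^ n := le_trans (Nat.cast_nonneg x) h1
    have h0 : 0 ≤ t := nonneg_of_mul_nonneg_left h4 h2
    refine ⟨h0, ?_⟩
    rw [Nat.floor_eq_iff (by positivity)]
    rw [mul_comm]
    exact ⟨h1, h3⟩

private theorem M9_I_meas (n x : ℕ) : MeasurableSet (M9_I n x) := by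
  rw [M9_I_eq]; exact measurableSet_Ico

private theorem M9_I_disj (n : ℕ) (s : Set ℕ) : s.PairwiseDisjoint (M9_I n) := by
  intro x _ y _ hxy
  refine Set.disjoint_left.2 ?_
  rintro t ⟨_, h1⟩ ⟨_, h2⟩
  exact hxy (h1.symm.trans h2)

private theorem M9_union (n m x : ℕ) :
    M9_I n x = ⋃ y ∈ range (2 ^ m), M9_I (n + m) (x * 2 ^ m + y) := by
  have key : ∀ t : ℝ, ⌊2 ^ n * t⌋₊ = ⌊2 ^ (n + m) * t⌋₊ / 2 ^ m := by
    intro t
    have h := Nat.floor_div_natCast (K := ℝ) (2 ^ (n + m) * t) (2 ^ m)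
    rw [← h]
    congr 1
    push_cast
    rw [pow_add]
    field_simp
  ext t
  simp only [M9_I, Set.mem_setOf_eq, Set.mem_iUnion, mem_range, exists_prop]
  constructor
  · rintro ⟨h0, h⟩
    refine ⟨⌊2 ^ (n + m) * t⌋₊ % 2 ^ m, Nat.mod_lt _ (by positivity), h0, ?_⟩
    rw [← h, key t]
    exact (Nat.div_add_mod' _ _).symm
  · rintro ⟨y, hy, h0, h⟩
    refine ⟨h0, ?_⟩
    rw [key t, h, mul_comm, Nat.mul_add_div (by positivity), Nat.div_eq_of_lt hy, add_zero]

private theorem M9_lam (n x : ℕ) (hx : x < 2 ^ n) : lam.real (M9_I n x) = 1 / 2 ^ n := by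
  have h2 : (0 : ℝ) < 2 ^ n := by positivity
  rw [M9_I_eq]
  have hsub : Set.Ico ((x : ℝ) / 2 ^ n) ((x + 1 : ℝ) / 2 ^ n) ∩ Set.Icc 0 1 =
      Set.Ico ((x : ℝ) / 2 ^ n) ((x + 1 : ℝ) / 2 ^ n) := by
    refine Set.inter_eq_left.2 ?_
    rintro t ⟨h1, h3⟩
    refine ⟨le_trans (by positivity) h1, le_trans h3.le ?_⟩
    rw [div_le_one h2]
    exact_mod_cast hx
  rw [Measure.real, Measure.restrict_apply measurableSet_Ico, hsub, Real.volume_Ico,
    ENNReal.toReal_ofReal]
  · ring
  · rw [← sub_div]; ring_nf; positivity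

private noncomputable def M9_c (n x : ℕ) : E →L[ℝ] ℝ :=
  LinearMap.mkContinuous
    { toFun := fun g : E => ∫ t in M9_I n x, g t ∂lam
      map_add' := by
        intro g h
        have hg : Integrable (fun t => g t) (lam.restrict (M9_I n x)) :=
          (L1.integrable_coeFn g).restrict
        have hh : Integrable (fun t => h t) (lam.restrict (M9_I n x)) :=
          (L1.integrable_coeFn h).restrict
        rw [← integral_add hg hh]
        exact integral_congr_ae (ae_restrict_of_ae (Lp.coeFn_add g h))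
      map_smul' := by
        intro c g
        simp only [RingHom.id_apply, smul_eq_mul]
        rw [← integral_const_mul]
        exact integral_congr_ae (ae_restrict_of_ae (Lp.coeFn_smul c g)) }
    1 (by
      intro g
      simp only [LinearMap.coe_mk, AddHom.coe_mk, one_mul]
      rw [L1.norm_eq_integral_norm]
      refine (norm_integral_le_integral_norm _).trans ?_
      exact setIntegral_le_integral (L1.integrable_coeFn g).norm
        (Eventually.of_forall fun t => norm_nonneg _))

private theorem M9_c_apply (n x : ℕ) (g : E) : M9_c n x g = ∫ t in M9_I n x, g t ∂lam := rfl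

theorem p_M9 : S_M9 := by
  intro n
  refine ⟨M9_c n, ?_, ?_⟩
  · intro g
    calc ∑ x ∈ range (2 ^ n), |M9_c n x g| ≤ ∑ x ∈ range (2 ^ n), ∫ t in M9_I n x, ‖g t‖ ∂lam := by
          refine sum_le_sum fun x _ => ?_
          rw [M9_c_apply, ← Real.norm_eq_abs]
          exact norm_integral_le_integral_norm _
      _ = ∫ t in ⋃ x ∈ range (2 ^ n), M9_I n x, ‖g t‖ ∂lam := by
          rw [integral_biUnion_finset]
          · intro x _; exact M9_I_meas n x
          · exact M9_I_disj n _
          · intro x _; exact (L1.integrable_coeFn g).norm.integrableOn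
      _ ≤ ∫ t, ‖g t‖ ∂lam :=
          setIntegral_le_integral (L1.integrable_coeFn g).norm
            (Eventually.of_forall fun t => norm_nonneg _)
      _ = ‖g‖ := (L1.norm_eq_integral_norm g).symm
  · intro m f x hx
    rw [M9_c_apply]
    have h1 : ∫ t in M9_I n x, cylL (n + m) f t ∂lam = ∫ t in M9_I n x, cyl (n + m) f t ∂lam :=
      integral_congr_ae (ae_restrict_of_ae (MemLp.coeFn_toLp _))
    rw [h1, M9_union n m x, integral_biUnion_finset]
    · rw [sum_div]
      refine sum_congr rfl fun y hy => ?_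
      have hy' := mem_range.1 hy
      have h3 : ∫ t in M9_I (n + m) (x * 2 ^ m + y), cyl (n + m) f t ∂lam =
          ∫ t in M9_I (n + m) (x * 2 ^ m + y), f (x * 2 ^ m + y) ∂lam := by
        refine setIntegral_congr_fun (M9_I_meas _ _) ?_
        rintro t ⟨_, ht⟩
        simp only [cyl, ht]
      rw [h3, setIntegral_const, M9_lam]
      · simp [smul_eq_mul]; ring
      · calc x * 2 ^ m + y < x * 2 ^ m + 2 ^ m := by omega
          _ = (x + 1) * 2 ^ m := by ring
          _ ≤ 2 ^ n * 2 ^ m := Nat.mul_le_mul_right _ hx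
          _ = 2 ^ (n + m) := (pow_add _ _ _).symm
    · intro y _; exact M9_I_meas _ _
    · intro y _ y' _ hyy
      exact M9_I_disj (n + m) Set.univ (Set.mem_univ _) (Set.mem_univ _) (by
        intro h; exact hyy (by simpa using h))
    · intro y _
      have : Integrable (cyl (n + m) f) lam := memLp_one_iff_integrable.1 (cyl_memLp (n + m) f)
      exact this.integrableOn

end Pool.Agent.Exo
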