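import Pool.Agent.Lib.MP_935088_an.EX.Stm

set_option autoImplicit false

open MeasureTheory Filter Topology Finset

namespace Pool.Agent.Exo

theorem Main_aux (hS1 : S_S1) (hS9 : S_S9) (hZ4 : S_Z4) (hZ6 : S_Z6)
    (X : Submodule ℝ E) (x : ℕ → X) (c C : ℝ) (hc : 0 < c) (hxc : ∀ n, c ≤ ‖x n‖) (hxU : Up2 x C)
    (htree : ∀ (T : ℕ → ℕ → X) (M : ℝ), Tree T M →
      Tendsto (fun n => rad (2 ^ n) (T n)) atTop (𝓝 0))
    (Γ : Type) (γ₀ : Γ) (Ω : Type) (m : MeasurableSpace Ω) (μ : Measure Ω)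
    (Θ : lp (fun _ : Γ => X) 1 ≃L[ℝ] Lp ℝ 1 μ) : False := by
  classical
  by_cases hD : ∃ A, Diffuse μ A
  · obtain ⟨A, hA⟩ := hD
    obtain ⟨T, hT, hT1⟩ := hZ4 Ω m μ A hA
    set F : ℕ → ℕ → lp (fun _ : Γ => X) 1 := fun n i => Θ.symm (T n i) with hF
    have hb : ∀ g : Lp ℝ 1 μ, ‖Θ.symm g‖ ≤ ‖(Θ.symm : Lp ℝ 1 μ →L[ℝ] lp (fun _ : Γ => X) 1)‖ * ‖g‖ :=
      fun g => (Θ.symm : Lp ℝ 1 μ →L[ℝ] lp (fun _ : Γ => X) 1).le_opNorm g
    set N := ‖(Θ.symm : Lp ℝ 1 μ →L[ℝ] lp (fun _ : Γ => X) 1)‖ with hN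
    have hN0 : 0 ≤ N := by rw [hN]; exact ContinuousLinearMap.opNorm_nonneg _
    have hFT : Tree F N := by
      refine ⟨?_, ?_, ?_⟩
      · intro n i hi
        simp only [hF]
        rw [hT.split n i hi, map_add]
      · intro n
        calc ∑ i ∈ range (2 ^ n), ‖F n i‖ ≤ ∑ i ∈ range (2 ^ n), N * ‖T n i‖ :=
              Finset.sum_le_sum fun i _ => hb _
          _ = N * ∑ i ∈ range (2 ^ n), ‖T n i‖ := by rw [Finset.mul_sum]
          _ ≤ N * 1 := mul_le_mul_of_nonneg_left (hT.bdd n) hN0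
          _ = N := mul_one _
      · intro η hη
        obtain ⟨n₀, h₀⟩ := hT.small (η / (N + 1)) (by positivity)
        refine ⟨n₀, fun n hn i hi => ?_⟩
        calc ‖F n i‖ ≤ N * ‖T n i‖ := hb _
          _ ≤ (N + 1) * (η / (N + 1)) :=
              mul_le_mul (by linarith) (h₀ n hn i hi) (norm_nonneg _) (by linarith)
          _ = η := by field_simp
    have hcoord : ∀ γ, Tendsto (fun n => rad (2 ^ n) (fun i => (F n i) γ)) atTop (𝓝 0) := by
      intro γ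
      have hle : ∀ G : lp (fun _ : Γ => X) 1, ‖G γ‖ ≤ ‖G‖ :=
        fun G => lp.norm_apply_le_norm one_ne_zero G γ
      refine htree (fun n i => (F n i) γ) N ⟨?_, ?_, ?_⟩
      · intro n i hi
        rw [hFT.split n i hi]
        rfl
      · intro n
        exact le_trans (Finset.sum_le_sum fun i _ => hle _) (hFT.bdd n)
      · intro η hη
        obtain ⟨n₀, h₀⟩ := hFT.small η hη
        exact ⟨n₀, fun n hn i hi => le_trans (hle _) (h₀ n hn i hi)⟩
    have hlim := (hS9 Γ X F N hFT).1 hcoord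
    set K := ‖(Θ : lp (fun _ : Γ => X) 1 →L[ℝ] Lp ℝ 1 μ)‖ with hK
    have hK0 : 0 ≤ K := by rw [hK]; exact ContinuousLinearMap.opNorm_nonneg _
    have hlow : ∀ n, 1 / (K + 1) ≤ rad (2 ^ n) (F n) := by
      intro n
      refine (hS1 (lp (fun _ : Γ => X) 1) (2 ^ n) (F n) (F n)).2.2.2.2 _ ?_
      intro S _
      have h1 := hT1 n S
      have h2 : Θ (∑ i ∈ range (2 ^ n), (if i ∈ S then (1 : ℝ) else -1) • F n i) =
          ∑ i ∈ range (2 ^ n), (if i ∈ S then (1 : ℝ) else -1) • T n i := by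
        rw [map_sum]
        refine Finset.sum_congr rfl fun i _ => ?_
        rw [map_smul]
        simp [hF]
      have h3 : ‖Θ (∑ i ∈ range (2 ^ n), (if i ∈ S then (1 : ℝ) else -1) • F n i)‖ ≤
          K * ‖∑ i ∈ range (2 ^ n), (if i ∈ S then (1 : ℝ) else -1) • F n i‖ :=
        (Θ : lp (fun _ : Γ => X) 1 →L[ℝ] Lp ℝ 1 μ).le_opNorm _
      rw [h2, h1] at h3
      rw [div_le_iff₀ (by linarith)]
      nlinarith [norm_nonneg (∑ i ∈ range (2 ^ n), (if i ∈ S then (1 : ℝ) else -1) • F n i)]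
    have h0 : (1 : ℝ) / (K + 1) ≤ 0 := ge_of_tendsto' hlim hlow
    have : (0 : ℝ) < 1 / (K + 1) := by positivity
    linarith
  · push Not at hD
    set L : X →L[ℝ] lp (fun _ : Γ => X) 1 :=
      LinearMap.mkContinuous
        { toFun := fun v => lp.single 1 γ₀ v
          map_add' := fun a b => by
            ext i
            by_cases h : i = γ₀
            · subst h; simp
            · simp
          map_smul' := fun a b => by
            ext i
            by_cases h : i = γ₀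
            · subst h; simp
            · simp } 1
        (fun v => by
          simp only [LinearMap.coe_mk, AddHom.coe_mk, one_mul]
          exact le_of_eq (lp.norm_single (E := fun _ : Γ => X) one_pos _ _)) with hL
    have hLn : ∀ v, ‖L v‖ = ‖v‖ := fun v => lp.norm_single (E := fun _ : Γ => X) one_pos _ _
    set K := ‖(Θ : lp (fun _ : Γ => X) 1 →L[ℝ] Lp ℝ 1 μ)‖ with hK
    have hK0 : 0 ≤ K := by rw [hK]; exact ContinuousLinearMap.opNorm_nonneg _
    have hup : Up2 (fun n => Θ (L (x n))) (K * C) := by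
      intro S e he
      have h2 : Θ (L (∑ n ∈ S, e n • x n)) = ∑ n ∈ S, e n • Θ (L (x n)) := by
        rw [map_sum, map_sum]
        refine Finset.sum_congr rfl fun i _ => ?_
        rw [map_smul, map_smul]
      rw [← h2]
      calc ‖Θ (L (∑ n ∈ S, e n • x n))‖ ≤ K * ‖L (∑ n ∈ S, e n • x n)‖ :=
            (Θ : lp (fun _ : Γ => X) 1 →L[ℝ] Lp ℝ 1 μ).le_opNorm _
        _ = K * ‖∑ n ∈ S, e n • x n‖ := by rw [hLn]
        _ ≤ K * (C * √(S.card : ℝ)) := mul_le_mul_of_nonneg_left (hxU S e he) hK0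
        _ = K * C * √(S.card : ℝ) := by ring
    have hlim := hZ6 Ω m μ hD _ _ hup
    set N := ‖(Θ.symm : Lp ℝ 1 μ →L[ℝ] lp (fun _ : Γ => X) 1)‖ with hN
    have hN0 : 0 ≤ N := by rw [hN]; exact ContinuousLinearMap.opNorm_nonneg _
    have hlow : ∀ n, c ≤ N * ‖Θ (L (x n))‖ := by
      intro n
      have h1 : ‖Θ.symm (Θ (L (x n)))‖ ≤ N * ‖Θ (L (x n))‖ :=
        (Θ.symm : Lp ℝ 1 μ →L[ℝ] lp (fun _ : Γ => X) 1).le_opNorm _
      rw [ContinuousLinearEquiv.symm_apply_apply, hLn] at h1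
      exact le_trans (hxc n) h1
    have hlim2 : Tendsto (fun n => N * ‖Θ (L (x n))‖) atTop (𝓝 (N * 0)) := hlim.const_mul N
    have h0 : c ≤ N * 0 := ge_of_tendsto' hlim2 hlow
    linarith

theorem p_Main (hS1 : S_S1) (hS9 : S_S9) (hZ4 : S_Z4) (hZ6 : S_Z6) (hL2 : S_L2) (hL3 : S_L3)
    (hB1 : S_B1) (hB2 : S_B2) (hB3 : S_B3) (hB4 : S_B4) (hW4 : S_W4) : S_Main := by
  classical
  obtain ⟨X, hX, hXc, ⟨x, c, C, hc, hxc, hxU⟩, ⟨w, ws, D, hwD, hdual, hws⟩, htree⟩ := hW4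
  obtain ⟨Q, hQ⟩ := hX
  have : CompleteSpace X := hXc.completeSpace_coe
  have hSL : SL1 X := hL2 X X.subtypeL Q w ws D hQ hwD hdual hws
  have hCB : CB X := hB2 X E X.subtypeL Q hQ hB1
  have : Nontrivial X := ⟨⟨w 0, 0, fun h => by
    have := hdual 0 0
    rw [h] at this
    simp at this⟩⟩
  refine ⟨X, ⟨Q, hQ⟩, ?_, fun Γ hΓ => ⟨hL3 Γ X hSL, hB3 Γ X hCB, fun h => hB4 Γ X, ?_⟩⟩
  · intro hfin
    have hli : LinearIndependent ℝ w := by
      rw [linearIndependent_iff']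
      intro s g hg i hi
      have := congrArg (ws i) hg
      rw [map_sum, map_zero] at this
      simp only [map_smul, hdual, smul_eq_mul, mul_ite, mul_one, mul_zero] at this
      rw [Finset.sum_ite_eq s i g, if_pos hi] at this
      exact this
    have := hli.finite
    exact not_finite ℕ
  · intro Ω m μ
    obtain ⟨γ₀⟩ := hΓ
    exact ⟨fun Θ => Main_aux hS1 hS9 hZ4 hZ6 X x c C hc hxc hxU htree Γ γ₀ Ω m μ Θ⟩

end Pool.Agent.Exo
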