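import Pool.Agent.Lib.MP_935088_an.EX.Stm

/-!
# MP_935088_an, project EX, piece N1: recursions for `ip`, `l1`, `num`
-/

set_option autoImplicit false

open MeasureTheory Filter Topology Finset

namespace Pool.Agent.Exo

private theorem N1_sum (F : ℕ → ℝ) (m : ℕ) :
    ∑ x ∈ range (2 * m), F x = ∑ y ∈ range m, F (2 * y) + ∑ y ∈ range m, F (2 * y + 1) := by
  induction m with
  | zero => simp
  | succ m ih =>
    rw [show 2 * (m + 1) = 2 * m + 1 + 1 by ring, sum_range_succ, sum_range_succ, ih,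
      sum_range_succ, sum_range_succ]
    ring

private theorem N1_even (y j : ℕ) : (2 * y) ^^^ 2 ^ (j + 1) = 2 * (y ^^^ 2 ^ j) := by
  have h0 : 2 * y / 2 = y := by omega
  have h3 : 2 ^ (j + 1) / 2 = 2 ^ j := by rw [pow_succ]; omega
  have h2 : (2 * (y ^^^ 2 ^ j)) / 2 = y ^^^ 2 ^ j := by omega
  apply Nat.eq_of_testBit_eq
  intro i
  rcases i with _ | i
  · simp [pow_succ]
  · rw [Nat.testBit_xor, Nat.testBit_succ, Nat.testBit_succ, Nat.testBit_succ, h0, h2, h3,
      Nat.testBit_xor]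

private theorem N1_odd (y j : ℕ) : (2 * y + 1) ^^^ 2 ^ (j + 1) = 2 * (y ^^^ 2 ^ j) + 1 := by
  have h0 : (2 * y + 1) / 2 = y := by omega
  have h3 : 2 ^ (j + 1) / 2 = 2 ^ j := by rw [pow_succ]; omega
  have h2 : (2 * (y ^^^ 2 ^ j) + 1) / 2 = y ^^^ 2 ^ j := by omega
  apply Nat.eq_of_testBit_eq
  intro i
  rcases i with _ | i
  · simp [pow_succ]
  · rw [Nat.testBit_xor, Nat.testBit_succ, Nat.testBit_succ, Nat.testBit_succ, h0, h2, h3,
      Nat.testBit_xor]

private theorem N1_even0 (y : ℕ) : (2 * y) ^^^ 2 ^ 0 = 2 * y + 1 := by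
  have h1 : (2 * y + 1) / 2 = y := by omega
  have h0 : 2 * y / 2 = y := by omega
  apply Nat.eq_of_testBit_eq
  intro i
  rcases i with _ | i
  · simp
  · rw [Nat.testBit_xor, Nat.testBit_succ, Nat.testBit_succ, Nat.testBit_succ, h0, h1]
    simp

private theorem N1_odd0 (y : ℕ) : (2 * y + 1) ^^^ 2 ^ 0 = 2 * y := by
  rw [← N1_even0 y, Nat.xor_assoc, Nat.xor_self, Nat.xor_zero]

private theorem N1_numev (n : ℕ) (g : ℕ → ℝ) (y : ℕ) :
    num (n + 1) g (2 * y) = num n (ev g) y + (ev g y - od g y) / 2 := by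
  unfold num
  rw [sum_range_succ']
  unfold avg
  rw [N1_even0]
  simp only [N1_even]
  unfold ev od
  ring_nf

private theorem N1_numod (n : ℕ) (g : ℕ → ℝ) (y : ℕ) :
    num (n + 1) g (2 * y + 1) = num n (od g) y - (ev g y - od g y) / 2 := by
  unfold num
  rw [sum_range_succ']
  unfold avg
  rw [N1_odd0]
  simp only [N1_odd]
  unfold ev od
  ring_nf

theorem p_N1 : S_N1 := by
  have hip : ∀ (n : ℕ) (f g : ℕ → ℝ),
      ip (n + 1) f g = (ip n (ev f) (ev g) + ip n (od f) (od g)) / 2 := by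
    intro n f g
    unfold ip
    rw [pow_succ' 2 n, N1_sum, pow_succ' (2 : ℝ) n]
    unfold ev od
    field_simp
  refine ⟨hip, ?_, ?_⟩
  · intro n f
    unfold l1
    rw [pow_succ' 2 n, N1_sum, pow_succ' (2 : ℝ) n]
    unfold ev od
    field_simp
  · intro n f g
    rw [hip]
    unfold ip
    have h : ∑ x ∈ range (2 ^ n), ev f x * ev (num (n + 1) g) x +
        ∑ x ∈ range (2 ^ n), od f x * od (num (n + 1) g) x =
        ∑ x ∈ range (2 ^ n), ev f x * num n (ev g) x +
        ∑ x ∈ range (2 ^ n), od f x * num n (od g) x +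
        (∑ x ∈ range (2 ^ n), (ev f x - od f x) * (ev g x - od g x)) / 2 := by
      rw [sum_div, ← sum_add_distrib, ← sum_add_distrib, ← sum_add_distrib]
      apply sum_congr rfl
      intro y _
      have e1 : ev (num (n + 1) g) y = num (n + 1) g (2 * y) := rfl
      have e2 : od (num (n + 1) g) y = num (n + 1) g (2 * y + 1) := rfl
      rw [e1, e2, N1_numev, N1_numod]
      ring
    rw [← add_div, h]
    ring

end Pool.Agent.Exo
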