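import Pool.Agent.Lib.MP_935088_an.EX.Stm

set_option autoImplicit false

open MeasureTheory Filter Topology Finset

namespace Pool.Agent.Exo

theorem N2_aux (s t : ℝ) (hs : 0 < s) (hs1 : s ≤ 1) (ht : |t| ≤ 1) :
    ((2 - s) * ((1 + t) ^ (1 + s / 4) + (1 - t) ^ (1 + s / 4)) +
      2 * s * (√((1 + t) ^ (1 + s / 4)) * √((1 - t) ^ (1 + s / 4)))) / 4 ≤ 1 := by
  have h1 : -1 ≤ t := (abs_le.mp ht).1
  have h2 : t ≤ 1 := (abs_le.mp ht).2
  have hb0 : 0 ≤ s / 4 := by linarith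
  have hb1 : s / 4 ≤ 1 := by linarith
  have p1 : (1 + t) ^ (s / 4) ≤ 1 + s / 4 * t :=
    rpow_one_add_le_one_add_mul_self h1 hb0 hb1
  have p2 : (1 - t) ^ (s / 4) ≤ 1 - s / 4 * t := by
    have := rpow_one_add_le_one_add_mul_self (s := -t) (by linarith) hb0 hb1
    simpa [sub_eq_add_neg] using this
  have q1 : (1 + t) ^ (1 + s / 4) ≤ (1 + t) * (1 + s / 4 * t) := by
    have e : (1 + t) ^ (1 + s / 4) = (1 + t) * (1 + t) ^ (s / 4) := by
      rw [Real.rpow_add' (by linarith) (by linarith), Real.rpow_one]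
    rw [e]
    exact mul_le_mul_of_nonneg_left p1 (by linarith)
  have q2 : (1 - t) ^ (1 + s / 4) ≤ (1 - t) * (1 - s / 4 * t) := by
    have e : (1 - t) ^ (1 + s / 4) = (1 - t) * (1 - t) ^ (s / 4) := by
      rw [Real.rpow_add' (by linarith) (by linarith), Real.rpow_one]
    rw [e]
    exact mul_le_mul_of_nonneg_left p2 (by linarith)
  have q3 : √((1 + t) ^ (1 + s / 4)) * √((1 - t) ^ (1 + s / 4)) ≤ 1 - t ^ 2 / 2 := by
    rw [← Real.sqrt_mul (Real.rpow_nonneg (by linarith) _), ← Real.mul_rpow (by linarith) (by linarith)]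
    have e0 : 0 ≤ (1 + t) * (1 - t) := mul_nonneg (by linarith) (by linarith)
    have e1 : (1 + t) * (1 - t) ≤ 1 := by nlinarith [sq_nonneg t]
    have e2 : ((1 + t) * (1 - t)) ^ (1 + s / 4) ≤ (1 + t) * (1 - t) := by
      rw [Real.rpow_add' e0 (by linarith), Real.rpow_one]
      have : ((1 + t) * (1 - t)) ^ (s / 4) ≤ 1 := Real.rpow_le_one e0 e1 hb0
      nlinarith
    have e3 : √(((1 + t) * (1 - t)) ^ (1 + s / 4)) ≤ √((1 - t ^ 2 / 2) ^ 2) := by
      apply Real.sqrt_le_sqrt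
      nlinarith [sq_nonneg (t ^ 2)]
    rw [Real.sqrt_sq (by nlinarith [sq_nonneg t])] at e3
    exact e3
  have ht2 : 0 ≤ t ^ 2 := sq_nonneg t
  have r1 : (2 - s) * ((1 + t) ^ (1 + s / 4) + (1 - t) ^ (1 + s / 4)) ≤
      (2 - s) * ((1 + t) * (1 + s / 4 * t) + (1 - t) * (1 - s / 4 * t)) :=
    mul_le_mul_of_nonneg_left (by linarith) (by linarith)
  have r2 : 2 * s * (√((1 + t) ^ (1 + s / 4)) * √((1 - t) ^ (1 + s / 4))) ≤
      2 * s * (1 - t ^ 2 / 2) := mul_le_mul_of_nonneg_left q3 (by linarith)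
  have r3 : (2 - s) * ((1 + t) * (1 + s / 4 * t) + (1 - t) * (1 - s / 4 * t)) +
      2 * s * (1 - t ^ 2 / 2) = 4 - s ^ 2 * t ^ 2 / 2 := by ring
  have r4 : 0 ≤ s ^ 2 * t ^ 2 := by positivity
  linarith

theorem p_N2 : S_N2 := by
  intro s a b hs hs1 ha hb
  rcases eq_or_lt_of_le (add_nonneg ha hb) with h | h
  · have ha0 : a = 0 := by linarith
    have hb0 : b = 0 := by linarith
    subst ha0 hb0
    have : (0 : ℝ) ^ (1 + s / 4) = 0 := Real.zero_rpow (by linarith)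
    simp [this]
  · set c := (a + b) / 2 with hc
    have hc0 : 0 < c := by rw [hc]; linarith
    set t := (a - b) / (a + b) with ht
    have ht1 : |t| ≤ 1 := by
      rw [ht, abs_div, abs_of_pos h, div_le_one h, abs_le]
      constructor <;> linarith
    have ea : a = c * (1 + t) := by rw [hc, ht]; field_simp; ring
    have eb : b = c * (1 - t) := by rw [hc, ht]; field_simp; ring
    have h1 : 0 ≤ 1 + t := by linarith [(abs_le.mp ht1).1]
    have h2 : 0 ≤ 1 - t := by linarith [(abs_le.mp ht1).2]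
    have hx := N2_aux s t hs hs1 ht1
    have hcp : 0 ≤ c ^ (1 + s / 4) := Real.rpow_nonneg hc0.le _
    have fa : a ^ (1 + s / 4) = c ^ (1 + s / 4) * (1 + t) ^ (1 + s / 4) := by
      rw [ea, Real.mul_rpow hc0.le h1]
    have fb : b ^ (1 + s / 4) = c ^ (1 + s / 4) * (1 - t) ^ (1 + s / 4) := by
      rw [eb, Real.mul_rpow hc0.le h2]
    have fs : √(a ^ (1 + s / 4)) * √(b ^ (1 + s / 4)) =
        c ^ (1 + s / 4) * (√((1 + t) ^ (1 + s / 4)) * √((1 - t) ^ (1 + s / 4))) := by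
      rw [fa, fb, Real.sqrt_mul hcp, Real.sqrt_mul hcp]
      have := Real.mul_self_sqrt hcp
      calc _ = (√(c ^ (1 + s / 4)) * √(c ^ (1 + s / 4))) *
            (√((1 + t) ^ (1 + s / 4)) * √((1 - t) ^ (1 + s / 4))) := by ring
        _ = _ := by rw [this]
    rw [fs, fa, fb]
    calc _ = c ^ (1 + s / 4) * (((2 - s) * ((1 + t) ^ (1 + s / 4) + (1 - t) ^ (1 + s / 4)) +
      2 * s * (√((1 + t) ^ (1 + s / 4)) * √((1 - t) ^ (1 + s / 4)))) / 4) := by ring
      _ ≤ c ^ (1 + s / 4) * 1 := mul_le_mul_of_nonneg_left hx hcp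
      _ = c ^ (1 + s / 4) := mul_one _

end Pool.Agent.Exo
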