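import Pool.Agent.Lib.MP_935088_an.EX.Stm

set_option autoImplicit false

open MeasureTheory Filter Topology Finset

namespace Pool.Agent.Exo

private lemma N3_symm (s : ℝ) (n : ℕ) : ∀ f g : ℕ → ℝ, q s n f g = q s n g f := by
  induction n with
  | zero => intro f g; simp only [q]; ring
  | succ n ih =>
    intro f g
    simp only [q]
    rw [ih (ev f) (ev g), ih (od f) (od g), ih (ev f) (od g), ih (od f) (ev g)]
    ring

private lemma N3_lin (s : ℝ) (n : ℕ) : ∀ (c d : ℝ) (f g h : ℕ → ℝ),
    q s n (fun x => c * f x + d * g x) h = c * q s n f h + d * q s n g h := by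
  induction n with
  | zero => intro c d f g h; simp only [q]; ring
  | succ n ih =>
    intro c d f g h
    have e1 : ev (fun x => c * f x + d * g x) = fun x => c * ev f x + d * ev g x := rfl
    have e2 : od (fun x => c * f x + d * g x) = fun x => c * od f x + d * od g x := rfl
    simp only [q]
    rw [e1, e2, ih, ih, ih, ih]
    ring

private lemma N3_lin2 (s : ℝ) (n : ℕ) (c d : ℝ) (f g h : ℕ → ℝ) :
    q s n h (fun x => c * f x + d * g x) = c * q s n h f + d * q s n h g := by
  rw [N3_symm s n h, N3_lin, N3_symm s n f h, N3_symm s n g h]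

private lemma N3_quad (s : ℝ) (n : ℕ) (c d : ℝ) (f g : ℕ → ℝ) :
    q s n (fun x => c * f x + d * g x) (fun x => c * f x + d * g x) =
      c ^ 2 * q s n f f + 2 * c * d * q s n f g + d ^ 2 * q s n g g := by
  rw [N3_lin, N3_lin2, N3_lin2, N3_symm s n g f]
  ring

/-- Cauchy-Schwarz from positivity -/
private lemma N3_cs (s : ℝ) (n : ℕ) (hp : ∀ f, 0 ≤ q s n f f) (f g : ℕ → ℝ) :
    |q s n f g| ≤ √(q s n f f) * √(q s n g g) := by
  rw [← Real.sqrt_mul (hp f)]
  apply Real.abs_le_sqrt
  have h1 := hp (fun x => q s n g g * f x + (-(q s n f g)) * g x)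
  rw [N3_quad] at h1
  have hf := hp f
  have hg := hp g
  rcases hg.eq_or_lt with h0 | h0
  · -- q g g = 0
    rw [← h0]
    have h2 : ∀ t : ℝ, 0 ≤ q s n f f + 2 * t * q s n f g := by
      intro t
      have := hp (fun x => 1 * f x + t * g x)
      rw [N3_quad, ← h0] at this
      linarith
    have h3 : q s n f g = 0 := by
      by_contra hne
      have h4 := h2 (-(q s n f f + 1) / (2 * q s n f g))
      have h5 : 2 * (-(q s n f f + 1) / (2 * q s n f g)) * q s n f g = -(q s n f f + 1) := by
        field_simp
      linarith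
    rw [h3]; simp
  · have h2 : 0 ≤ q s n g g * (q s n f f * q s n g g - q s n f g ^ 2) := by nlinarith
    have h3 := nonneg_of_mul_nonneg_right h2 h0
    linarith

private lemma N3_ip (n : ℕ) (f g : ℕ → ℝ) :
    ip (n + 1) f g = (ip n (ev f) (ev g) + ip n (od f) (od g)) / 2 := by
  have key : ∀ (N : ℕ) (u : ℕ → ℝ),
      ∑ x ∈ range (2 * N), u x = ∑ y ∈ range N, u (2 * y) + ∑ y ∈ range N, u (2 * y + 1) := by
    intro N u
    induction N with
    | zero => simp
    | succ N ih =>
      rw [show 2 * (N + 1) = 2 * N + 1 + 1 by ring, sum_range_succ, sum_range_succ, ih,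
        sum_range_succ, sum_range_succ]
      ring
  unfold ip
  rw [pow_succ' (2 : ℕ) n, key]
  simp only [ev, od, pow_succ]
  field_simp

theorem p_N3 : S_N3 := by
  intro s hs0 hs1 n
  have hpos : ∀ n : ℕ, ∀ f : ℕ → ℝ, 0 ≤ q s n f f ∧ q s n f f ≤ ip n f f := by
    intro n
    induction n with
    | zero =>
      intro f
      simp only [q, ip]
      constructor
      · exact mul_self_nonneg _
      · simp
    | succ n ih =>
      intro f
      have hA := ih (ev f)
      have hB := ih (od f)
      have hC := N3_cs s n (fun f => (ih f).1) (ev f) (od f)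
      have h1 := Real.sq_sqrt hA.1
      have h2 := Real.sq_sqrt hB.1
      have h3 := sq_nonneg (√(q s n (ev f) (ev f)) - √(q s n (od f) (od f)))
      have h4 : |q s n (ev f) (od f)| ≤ (q s n (ev f) (ev f) + q s n (od f) (od f)) / 2 := by
        nlinarith
      have h5 := abs_le.1 h4
      simp only [q]
      rw [N3_symm s n (od f) (ev f), N3_ip]
      constructor
      · have h6 : 0 ≤ s * (2 * q s n (ev f) (od f) +
            (q s n (ev f) (ev f) + q s n (od f) (od f))) := mul_nonneg hs0 (by linarith)
        have h7 : 0 ≤ (2 - 2 * s) * (q s n (ev f) (ev f) + q s n (od f) (od f)) :=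
          mul_nonneg (by linarith) (by linarith)
        linarith
      · have h6 : 0 ≤ s * ((q s n (ev f) (ev f) + q s n (od f) (od f)) -
            2 * q s n (ev f) (od f)) := mul_nonneg hs0 (by linarith)
        linarith [hA.2, hB.2]
  intro f g
  refine ⟨(hpos n f).1, N3_symm s n f g,
    (le_abs_self _).trans (N3_cs s n (fun f => (hpos n f).1) f g), (hpos n f).2, ?_⟩
  have h := N3_quad s n 1 (-1) f g
  have e : (fun x => f x - g x) = fun x => 1 * f x + (-1) * g x := by
    funext x; ring
  rw [e, h]; ring

end Pool.Agent.Exo
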