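import Pool.Agent.Lib.MP_935088_an.EX.Stm

/-!
# MP_935088_an: piece N4
-/

set_option autoImplicit false

open MeasureTheory Filter Topology Finset

namespace Pool.Agent.Exo

theorem p_N4 (hN1 : S_N1) (hN3 : S_N3) : S_N4 := by
  intro s hs0 hs1 n
  obtain ⟨h1, -, h3⟩ := hN1
  induction n with
  | zero =>
    intro f
    unfold ip num q
    simp
  | succ n ih =>
    intro f
    have he := ih (ev f)
    have ho := ih (od f)
    obtain ⟨-, hsym, -, -, hlin⟩ := hN3 s hs0 hs1 n (ev f) (od f)
    obtain ⟨-, -, -, hq, -⟩ := hN3 s hs0 hs1 n (fun x => ev f x - od f x)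
      (fun x => ev f x - od f x)
    rw [hlin] at hq
    rw [h1, h3]
    have e : q s (n + 1) f f = ((2 - s) * (q s n (ev f) (ev f) + q s n (od f) (od f)) +
      s * (q s n (ev f) (od f) + q s n (od f) (ev f))) / 4 := rfl
    rw [e, ← hsym]
    have h4 := mul_le_mul_of_nonneg_left hq hs0
    linarith

end Pool.Agent.Exo
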