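import Pool.Agent.Lib.MP_935088_an.EX.Stm

/-!
# MP_935088_an: piece N5 (hypercontractivity for bounded functions)
-/

set_option autoImplicit false

open MeasureTheory Filter Topology Finset

namespace Pool.Agent.Exo

theorem N5_l1_nonneg (n : ℕ) (f : ℕ → ℝ) : 0 ≤ l1 n f := by
  unfold l1
  positivity

theorem p_N5 (hN1 : S_N1) (hN2 : S_N2) (hN3 : S_N3) : S_N5 := by
  intro s hs0 hs1 n
  obtain ⟨-, h2, -⟩ := hN1
  induction n with
  | zero =>
    intro f hf
    have h0 : |f 0| ≤ 1 := hf 0 (by norm_num)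
    have e1 : q s 0 f f = f 0 * f 0 := rfl
    have e2 : l1 0 f = |f 0| := by
      unfold l1
      simp
    rw [e1, e2, ← abs_mul_abs_self (f 0)]
    have hnn : 0 ≤ |f 0| := abs_nonneg _
    calc |f 0| * |f 0| = |f 0| ^ (2 : ℝ) := by
          rw [Real.rpow_two]; ring
      _ ≤ |f 0| ^ (1 + s / 4) := by
          rcases hnn.eq_or_lt with h | h
          · rw [← h, Real.zero_rpow (by norm_num), Real.zero_rpow (by linarith)]
          · exact Real.rpow_le_rpow_of_exponent_ge h h0 (by linarith)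
  | succ n ih =>
    intro f hf
    have hfe : ∀ x < 2 ^ n, |ev f x| ≤ 1 := by
      intro x hx
      exact hf (2 * x) (by rw [pow_succ]; omega)
    have hfo : ∀ x < 2 ^ n, |od f x| ≤ 1 := by
      intro x hx
      exact hf (2 * x + 1) (by rw [pow_succ]; omega)
    have he := ih (ev f) hfe
    have ho := ih (od f) hfo
    obtain ⟨hA0, hsym, hcs, -, -⟩ := hN3 s hs0.le hs1 n (ev f) (od f)
    obtain ⟨hB0, -, -, -, -⟩ := hN3 s hs0.le hs1 n (od f) (ev f)
    have hn := hN2 s (l1 n (ev f)) (l1 n (od f)) hs0 hs1 (N5_l1_nonneg n _) (N5_l1_nonneg n _)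
    have e : q s (n + 1) f f = ((2 - s) * (q s n (ev f) (ev f) + q s n (od f) (od f)) +
      s * (q s n (ev f) (od f) + q s n (od f) (ev f))) / 4 := rfl
    rw [e, ← hsym, h2]
    refine le_trans ?_ hn
    have hsA := Real.sqrt_le_sqrt he
    have hsB := Real.sqrt_le_sqrt ho
    have hprod : √(q s n (ev f) (ev f)) * √(q s n (od f) (od f)) ≤
        √((l1 n (ev f)) ^ (1 + s / 4)) * √((l1 n (od f)) ^ (1 + s / 4)) :=
      mul_le_mul hsA hsB (Real.sqrt_nonneg _) (Real.sqrt_nonneg _)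
    have h5 := mul_le_mul_of_nonneg_left (hcs.trans hprod) hs0.le
    have h6 : (2 - s) * (q s n (ev f) (ev f) + q s n (od f) (od f)) ≤
        (2 - s) * ((l1 n (ev f)) ^ (1 + s / 4) + (l1 n (od f)) ^ (1 + s / 4)) :=
      mul_le_mul_of_nonneg_left (add_le_add he ho) (by linarith)
    linarith

end Pool.Agent.Exo
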