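import Pool.Agent.Lib.MP_935088_an.EX.Stm

set_option autoImplicit false

open MeasureTheory Filter Topology Finset

namespace Pool.Agent.Exo

theorem p_N6 (hN4 : S_N4) (hN5 : S_N5) : S_N6 := by
  intro s K hs hs1 hK n u hu
  have h4 := hN4 s hs.le hs1 n (fun x => u x / K)
  have h5 := hN5 s hs hs1 n (fun x => u x / K) (fun x hx => by
    rw [abs_div, abs_of_pos hK, div_le_one hK]
    exact hu x hx)
  have hnum : num n (fun x => u x / K) = fun x => num n u x / K := by
    funext x
    simp only [num, avg]
    rw [Finset.sum_div]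
    refine Finset.sum_congr rfl fun j _ => ?_
    ring
  have e1 : ip n (fun x => u x / K) (fun x => u x / K) = ip n u u / K ^ 2 := by
    simp only [ip, div_mul_div_comm, ← Finset.sum_div]
    field_simp
  have e2 : ip n (fun x => u x / K) (num n (fun x => u x / K)) = ip n u (num n u) / K ^ 2 := by
    rw [hnum]
    simp only [ip, div_mul_div_comm, ← Finset.sum_div]
    field_simp
  have e3 : l1 n (fun x => u x / K) = l1 n u / K := by
    simp only [l1, abs_div, abs_of_pos hK, ← Finset.sum_div]
    field_simp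
  rw [e1, e2] at h4
  rw [e3] at h5
  have h6 : ip n u u / K ^ 2 ≤ s * (ip n u (num n u) / K ^ 2) + (l1 n u / K) ^ (1 + s / 4) := by
    linarith
  have hK2 : 0 < K ^ 2 := by positivity
  have h7 := mul_le_mul_of_nonneg_left h6 hK2.le
  have h8 : K ^ 2 * (ip n u u / K ^ 2) = ip n u u := by field_simp
  have h9 : K ^ 2 * (s * (ip n u (num n u) / K ^ 2) + (l1 n u / K) ^ (1 + s / 4)) =
      s * ip n u (num n u) + K ^ 2 * (l1 n u / K) ^ (1 + s / 4) := by field_simp
  rw [h8, h9] at h7
  exact h7

end Pool.Agent.Exo
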