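import Pool.Agent.Lib.MP_935088_an.EX.Stm

/-! Piece N7: maximum principle on the cube -/

set_option autoImplicit false

open MeasureTheory Filter Topology Finset

namespace Pool.Agent.Exo

private lemma N7_xor_lt {n x j : ℕ} (hx : x < 2 ^ n) (hj : j < n) : x ^^^ 2 ^ j < 2 ^ n :=
  Nat.xor_lt_two_pow hx (Nat.pow_lt_pow_right (by norm_num) hj)

private lemma N7_xor_xor (x j : ℕ) : (x ^^^ 2 ^ j) ^^^ 2 ^ j = x := by
  rw [Nat.xor_assoc, Nat.xor_self, Nat.xor_zero]

private lemma N7_sum_xor {n j : ℕ} (hj : j < n) (f : ℕ → ℝ) :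
    ∑ x ∈ range (2 ^ n), f (x ^^^ 2 ^ j) = ∑ x ∈ range (2 ^ n), f x := by
  refine Finset.sum_nbij' (fun x => x ^^^ 2 ^ j) (fun x => x ^^^ 2 ^ j) ?_ ?_ ?_ ?_ ?_
  · intro x hx
    exact mem_range.2 (N7_xor_lt (mem_range.1 hx) hj)
  · intro x hx
    exact mem_range.2 (N7_xor_lt (mem_range.1 hx) hj)
  · intro x _
    exact N7_xor_xor x j
  · intro x _
    exact N7_xor_xor x j
  · intro x _
    rfl

/-- a sign of `a`: `|t| ≤ 1` and `t * a = |a|` -/
private lemma N7_sign (a : ℝ) : ∃ t : ℝ, |t| ≤ 1 ∧ t * a = |a| := by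
  rcases le_total 0 a with h | h
  · exact ⟨1, by norm_num, by rw [one_mul, abs_of_nonneg h]⟩
  · exact ⟨-1, by norm_num, by rw [abs_of_nonpos h]; ring⟩

theorem p_N7 : S_N7 := by
  intro n u φ r K hr hK hφ hu
  constructor
  · obtain ⟨x, hx, hmax⟩ := Finset.exists_max_image (range (2 ^ n)) (fun x => |u x|)
      ⟨0, mem_range.2 (by positivity)⟩
    have hx' := mem_range.1 hx
    obtain ⟨t, ht, htu⟩ := N7_sign (u x)
    have hnum : 0 ≤ t * num n u x := by
      unfold num
      rw [Finset.mul_sum]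
      refine Finset.sum_nonneg fun j hj => ?_
      have h1 : |u (x ^^^ 2 ^ j)| ≤ |u x| :=
        hmax _ (mem_range.2 (N7_xor_lt hx' (mem_range.1 hj)))
      have h2 : t * u (x ^^^ 2 ^ j) ≤ |u (x ^^^ 2 ^ j)| := by
        calc t * u (x ^^^ 2 ^ j) ≤ |t * u (x ^^^ 2 ^ j)| := le_abs_self _
          _ = |t| * |u (x ^^^ 2 ^ j)| := abs_mul _ _
          _ ≤ 1 * |u (x ^^^ 2 ^ j)| := mul_le_mul_of_nonneg_right ht (abs_nonneg _)
          _ = _ := one_mul _
      unfold avg
      have h3 : t * (u x - (u x + u (x ^^^ 2 ^ j)) / 2) = (t * u x - t * u (x ^^^ 2 ^ j)) / 2 := by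
        ring
      rw [h3, htu]
      linarith
    have hle : |u x| ≤ K := by
      have h1 : t * u x + r * (t * num n u x) = t * φ x := by
        rw [← hu x hx']; ring
      have h2 : t * φ x ≤ K := by
        calc t * φ x ≤ |t * φ x| := le_abs_self _
          _ = |t| * |φ x| := abs_mul _ _
          _ ≤ 1 * K := mul_le_mul ht (hφ x hx') (abs_nonneg _) zero_le_one
          _ = K := one_mul _
      have h3 := mul_nonneg hr.le hnum
      rw [htu] at h1
      linarith
    intro y hy
    exact (hmax y (mem_range.2 hy)).trans hle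
  · unfold l1
    refine div_le_div_of_nonneg_right ?_ (by positivity)
    choose t ht htu using fun x => N7_sign (u x)
    have hsum : ∑ x ∈ range (2 ^ n), t x * φ x
        = ∑ x ∈ range (2 ^ n), |u x| + r * ∑ x ∈ range (2 ^ n), t x * num n u x := by
      rw [Finset.mul_sum, ← Finset.sum_add_distrib]
      refine Finset.sum_congr rfl fun x hx => ?_
      rw [← hu x (mem_range.1 hx), ← htu x]
      ring
    have hnum : 0 ≤ ∑ x ∈ range (2 ^ n), t x * num n u x := by
      have h1 : ∑ x ∈ range (2 ^ n), t x * num n u x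
          = ∑ j ∈ range n, ∑ x ∈ range (2 ^ n), t x * (u x - avg j u x) := by
        rw [Finset.sum_comm]
        refine Finset.sum_congr rfl fun x _ => ?_
        unfold num
        rw [Finset.mul_sum]
      rw [h1]
      refine Finset.sum_nonneg fun j hj => ?_
      have h2 : ∑ x ∈ range (2 ^ n), (|u x| - |u (x ^^^ 2 ^ j)|) / 2
          ≤ ∑ x ∈ range (2 ^ n), t x * (u x - avg j u x) := by
        refine Finset.sum_le_sum fun x _ => ?_
        have h3 : t x * u (x ^^^ 2 ^ j) ≤ |u (x ^^^ 2 ^ j)| := by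
          calc t x * u (x ^^^ 2 ^ j) ≤ |t x * u (x ^^^ 2 ^ j)| := le_abs_self _
            _ = |t x| * |u (x ^^^ 2 ^ j)| := abs_mul _ _
            _ ≤ 1 * |u (x ^^^ 2 ^ j)| := mul_le_mul_of_nonneg_right (ht x) (abs_nonneg _)
            _ = _ := one_mul _
        unfold avg
        have h4 : t x * (u x - (u x + u (x ^^^ 2 ^ j)) / 2)
            = (t x * u x - t x * u (x ^^^ 2 ^ j)) / 2 := by ring
        rw [h4, htu]
        linarith
      refine le_trans (le_of_eq ?_) h2
      rw [← Finset.sum_div, Finset.sum_sub_distrib,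
        N7_sum_xor (mem_range.1 hj) (fun x => |u x|), sub_self, zero_div]
    have hle : ∑ x ∈ range (2 ^ n), t x * φ x ≤ ∑ x ∈ range (2 ^ n), |φ x| := by
      refine Finset.sum_le_sum fun x _ => ?_
      calc t x * φ x ≤ |t x * φ x| := le_abs_self _
        _ = |t x| * |φ x| := abs_mul _ _
        _ ≤ 1 * |φ x| := mul_le_mul_of_nonneg_right (ht x) (abs_nonneg _)
        _ = _ := one_mul _
    have h3 := mul_nonneg hr.le hnum
    linarith

end Pool.Agent.Exo
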