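import Pool.Agent.Lib.MP_935088_an.EX.Stm

/-!
# N8: the bound for the solution of `u + r A u = φ`
-/

set_option autoImplicit false

open MeasureTheory Filter Topology Finset

namespace Pool.Agent.Exo

theorem p_N8 (hN6 : S_N6) (hN7 : S_N7) : S_N8 := by
  intro n u φ r K s hr hK hs hs1 hφ hu
  obtain ⟨hb, hl⟩ := hN7 n u φ r K hr hK hφ hu
  have h6 := hN6 s K hs hs1 hK n u hb
  have h2 : (0 : ℝ) < 2 ^ n := by positivity
  have hl0 : 0 ≤ l1 n u := by
    unfold l1
    positivity
  -- the inner product with `num`
  have hnum : ip n u (num n u) ≤ K * l1 n φ / r := by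
    have e1 : ip n u (num n u) = (∑ x ∈ range (2 ^ n), (u x * φ x - u x * u x) / r) / 2 ^ n := by
      unfold ip
      congr 1
      refine Finset.sum_congr rfl fun x hx => ?_
      have h := hu x (Finset.mem_range.mp hx)
      have h' : num n u x = (φ x - u x) / r := by
        field_simp
        linarith
      rw [h']
      ring
    rw [e1]
    have e2 : K * l1 n φ / r = (∑ x ∈ range (2 ^ n), K * |φ x| / r) / 2 ^ n := by
      unfold l1
      rw [← Finset.sum_div, ← Finset.mul_sum]
      ring
    rw [e2]
    refine div_le_div_of_nonneg_right ?_ h2.le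
    refine Finset.sum_le_sum fun x hx => ?_
    refine div_le_div_of_nonneg_right ?_ hr.le
    have hx' := hb x (Finset.mem_range.mp hx)
    have a1 : u x * φ x ≤ |u x| * |φ x| := by
      rw [← abs_mul]
      exact le_abs_self _
    have a2 : |u x| * |φ x| ≤ K * |φ x| := mul_le_mul_of_nonneg_right hx' (abs_nonneg _)
    nlinarith [mul_self_nonneg (u x)]
  have h7 : s * ip n u (num n u) ≤ s / r * K * l1 n φ := by
    have := mul_le_mul_of_nonneg_left hnum hs.le
    calc s * ip n u (num n u) ≤ s * (K * l1 n φ / r) := this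
      _ = s / r * K * l1 n φ := by ring
  have h8 : K ^ 2 * (l1 n u / K) ^ (1 + s / 4) ≤ K ^ 2 * (l1 n φ / K) ^ (1 + s / 4) := by
    refine mul_le_mul_of_nonneg_left ?_ (by positivity)
    exact Real.rpow_le_rpow (by positivity) (div_le_div_of_nonneg_right hl hK.le) (by positivity)
  linarith

end Pool.Agent.Exo
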