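import Pool.Agent.Lib.MP_935088_an.EX.Stm

/-!
# MP_935088_an: piece S1
-/

set_option autoImplicit false

open MeasureTheory Filter Topology Finset

namespace Pool.Agent.Exo

private theorem S1_card (N : ℕ) : (((range N).powerset.card : ℕ) : ℝ) = 2 ^ N := by
  rw [card_powerset, card_range]
  push_cast
  rfl

theorem p_S1 : S_S1 := by
  intro Z _ _ N f g
  have h2 : (0 : ℝ) < 2 ^ N := by positivity
  refine ⟨?_, ?_, ?_, ?_, ?_⟩
  · unfold rad
    positivity
  · unfold rad
    rw [div_le_iff₀ h2]
    calc ∑ S ∈ (range N).powerset, ‖∑ i ∈ range N, (if i ∈ S then (1 : ℝ) else -1) • f i‖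
        ≤ ∑ _S ∈ (range N).powerset, ∑ i ∈ range N, ‖f i‖ := by
          refine sum_le_sum fun S _ => ?_
          refine (norm_sum_le _ _).trans (sum_le_sum fun i _ => ?_)
          rw [norm_smul]
          split_ifs <;> simp
      _ = (∑ i ∈ range N, ‖f i‖) * 2 ^ N := by
          rw [sum_const, nsmul_eq_mul, S1_card, mul_comm]
  · unfold rad
    rw [← add_div, ← sum_add_distrib]
    refine div_le_div_of_nonneg_right (sum_le_sum fun S _ => ?_) h2.le
    have e : ∑ i ∈ range N, (if i ∈ S then (1 : ℝ) else -1) • (f i + g i) =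
        ∑ i ∈ range N, (if i ∈ S then (1 : ℝ) else -1) • f i +
        ∑ i ∈ range N, (if i ∈ S then (1 : ℝ) else -1) • g i := by
      rw [← sum_add_distrib]
      exact sum_congr rfl fun i _ => smul_add _ _ _
    rw [e]
    exact norm_add_le _ _
  · intro Z' _ _ T
    unfold rad
    rw [← mul_div_assoc, mul_sum]
    refine div_le_div_of_nonneg_right (sum_le_sum fun S _ => ?_) h2.le
    have e : ∑ i ∈ range N, (if i ∈ S then (1 : ℝ) else -1) • T (f i) =
        T (∑ i ∈ range N, (if i ∈ S then (1 : ℝ) else -1) • f i) := by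
      rw [map_sum]
      exact sum_congr rfl fun i _ => (map_smul T _ _).symm
    rw [e]
    exact T.le_opNorm _
  · intro θ hθ
    unfold rad
    rw [le_div_iff₀ h2]
    calc θ * 2 ^ N = ∑ _S ∈ (range N).powerset, θ := by
          rw [sum_const, nsmul_eq_mul, S1_card, mul_comm]
      _ ≤ _ := sum_le_sum fun S hS => hθ S (mem_powerset.1 hS)

end Pool.Agent.Exo
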