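import Pool.Agent.Lib.MP_935088_an.EX.Stm

set_option autoImplicit false

open MeasureTheory Filter Topology Finset

namespace Pool.Agent.Exo

private theorem S3_sub (hM1 : S_M1) (n : ℕ) (u a : ℕ → ℝ) :
    cylL n (fun x => u x - a x) = cylL n u - cylL n a := by
  have h := hM1.1 n (fun x => u x - a x) a
  simp only [sub_add_cancel] at h
  rw [eq_sub_iff_add_eq, ← h]

private theorem S3_zero (hM1 : S_M1) (n : ℕ) : cylL n (fun _ => 0) = 0 := by
  have h := hM1.2.1 n 0 (fun _ => 0)
  simpa using h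

private theorem S3_sum (hM1 : S_M1) (n m : ℕ) (h : ℕ → ℕ → ℝ) :
    cylL n (fun x => ∑ j ∈ range m, h j x) = ∑ j ∈ range m, cylL n (h j) := by
  induction m with
  | zero => simpa using S3_zero hM1 n
  | succ m ih =>
    simp_rw [sum_range_succ]
    rw [hM1.1 n (fun x => ∑ j ∈ range m, h j x) (h m), ih]

theorem p_S3 (hM1 : S_M1) : S_S3 := by
  intro Av R hD k n φ
  -- the finite dimensional space of cylinder functions
  let L : (Fin (2 ^ n) → ℝ) →ₗ[ℝ] E :=
    { toFun := fun v => cylL n (fun x => if h : x < 2 ^ n then v ⟨x, h⟩ else 0)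
      map_add' := by
        intro v w
        rw [← hM1.1]
        congr 1
        funext x
        by_cases h : x < 2 ^ n <;> simp [h]
      map_smul' := by
        intro c v
        rw [RingHom.id_apply, ← hM1.2.1]
        congr 1
        funext x
        by_cases h : x < 2 ^ n <;> simp [h] }
  have hL : ∀ f : ℕ → ℝ, cylL n f ∈ LinearMap.range L := by
    intro f
    refine ⟨fun x => f x, ?_⟩
    change cylL n (fun x => if h : x < 2 ^ n then f x else 0) = cylL n f
    rw [← hM1.2.2.2.1]
    intro x hx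
    simp [hx]
  have hL' : ∀ g ∈ LinearMap.range L, ∃ f : ℕ → ℝ, g = cylL n f := by
    rintro g ⟨v, rfl⟩
    exact ⟨_, rfl⟩
  have hcl : IsClosed (LinearMap.range L : Set E) :=
    Submodule.closed_of_finiteDimensional _
  have hinv : ∀ i, ∀ g ∈ LinearMap.range L, Av i g ∈ LinearMap.range L := by
    intro i g hg
    obtain ⟨f, rfl⟩ := hL' g hg
    rcases lt_or_ge i n with h | h
    · rw [hD.cyl1 i n f h]; exact hL _
    · rw [hD.cyl2 i n f h]; exact hL _
  obtain ⟨u, hu⟩ := hL' _ (hD.res.inv k _ hcl hinv _ (hL φ))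
  refine ⟨u, hu, ?_⟩
  have hloc := hD.res.loc k n (cylL n φ) (fun i hi => hD.cyl2 i n φ hi)
  rw [hu] at hloc
  have h1 : ∑ i ∈ range n, (cylL n u - Av i (cylL n u)) = cylL n (num n u) := by
    have h2 : ∑ i ∈ range n, (cylL n u - Av i (cylL n u)) =
        ∑ i ∈ range n, (cylL n u - cylL n (avg (n - 1 - i) u)) := by
      refine sum_congr rfl fun i hi => ?_
      rw [hD.cyl1 i n u (mem_range.1 hi)]
    rw [h2, sum_range_reflect (fun j => cylL n u - cylL n (avg j u)) n]
    have h3 : cylL n (num n u) = cylL n (fun x => ∑ j ∈ range n, (u x - avg j u x)) := rfl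
    rw [h3, S3_sum hM1 n n (fun j x => u x - avg j u x)]
    refine sum_congr rfl fun j _ => ?_
    rw [S3_sub hM1]
  rw [h1, ← hM1.2.1, ← hM1.1] at hloc
  exact (hM1.2.2.2.1 n _ _).2 hloc

end Pool.Agent.Exo
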