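import Pool.Agent.Lib.MP_935088_an.EX.Stm

/-! Piece S5: singularity on bounded functions -/

set_option autoImplicit false

open MeasureTheory Filter Topology Finset

namespace Pool.Agent.Exo

private lemma S5_raise (hM1 : S_M1) (n d : ℕ) (K : ℝ) (f : ℕ → ℝ) (hf : ∀ x, |f x| ≤ K) :
    ∃ g : ℕ → ℝ, (∀ x, |g x| ≤ K) ∧ cylL (n + d) g = cylL n f := by
  induction d with
  | zero => exact ⟨f, hf, rfl⟩
  | succ d ih =>
    obtain ⟨g, hg, he⟩ := ih
    exact ⟨fun x => g (x / 2), fun x => hg _, by rw [← he]; exact hM1.2.2.2.2 (n + d) g⟩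

theorem p_S5 (hM1 : S_M1) (hM5 : S_M5) (hS1 : S_S1) (hS4 : S_S4) : S_S5 := by
  intro Av R hD k K M δ hK hM hδ
  obtain ⟨η₀, hη₀, H⟩ := hS4 Av R hD k K (M + 1) (δ / 2) hK (by linarith) (by linarith)
  refine ⟨η₀ / 2, by linarith, ?_⟩
  intro N f hf hsm hsum
  have hN : (0 : ℝ) < (N : ℝ) + 1 := by positivity
  set e₀ : ℝ := min (η₀ / 2) (min (δ / 2) 1) with he₀
  have he₀p : 0 < e₀ := by
    rw [he₀]
    exact lt_min (by linarith) (lt_min (by linarith) one_pos)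
  have he1 : e₀ ≤ η₀ / 2 := min_le_left _ _
  have he2 : e₀ ≤ δ / 2 := (min_le_right _ _).trans (min_le_left _ _)
  have he3 : e₀ ≤ 1 := (min_le_right _ _).trans (min_le_right _ _)
  set ε : ℝ := e₀ / ((N : ℝ) + 1) with hε
  have hεp : 0 < ε := div_pos he₀p hN
  have hNε : (N : ℝ) * ε ≤ e₀ := by
    rw [hε, mul_div_assoc', div_le_iff₀ hN]
    nlinarith
  have hεe : ε ≤ e₀ := by
    rw [hε, div_le_iff₀ hN]
    have : (0 : ℝ) ≤ N := Nat.cast_nonneg N
    nlinarith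
  choose n φ hφ hd using fun i => hM5 (f i) K hK (hf i) ε hεp
  set L : ℕ := ∑ i ∈ range N, n i with hL
  have hle : ∀ i, i < N → n i ≤ L := fun i hi =>
    single_le_sum (f := n) (fun _ _ => Nat.zero_le _) (mem_range.2 hi)
  have hex : ∀ i, ∃ g : ℕ → ℝ, (∀ x, |g x| ≤ K) ∧ (i < N → cylL L g = cylL (n i) (φ i)) := by
    intro i
    by_cases hi : i < N
    · obtain ⟨g, hg, he⟩ := S5_raise hM1 (n i) (L - n i) K (φ i) (hφ i)
      rw [Nat.add_sub_cancel' (hle i hi)] at he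
      exact ⟨g, hg, fun _ => he⟩
    · exact ⟨φ i, hφ i, fun h => absurd h hi⟩
  choose ψ hψ hψe using hex
  have hdist : ∀ i < N, ‖f i - cylL L (ψ i)‖ ≤ ε := by
    intro i hi
    rw [hψe i hi]
    exact hd i
  have hnorm : ∀ i < N, ‖cylL L (ψ i)‖ ≤ ‖f i‖ + ε := by
    intro i hi
    have h1 : cylL L (ψ i) = f i - (f i - cylL L (ψ i)) := by abel
    calc ‖cylL L (ψ i)‖ = ‖f i - (f i - cylL L (ψ i))‖ := by rw [← h1]
      _ ≤ ‖f i‖ + ‖f i - cylL L (ψ i)‖ := norm_sub_le _ _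
      _ ≤ ‖f i‖ + ε := by linarith [hdist i hi]
  have hA : rad N (fun i => R k (cylL L (ψ i))) ≤ δ / 2 := by
    refine H L N ψ hψ (fun i hi => ?_) ?_
    · have h1 := hnorm i hi
      have h2 := hsm i hi
      linarith
    · calc ∑ i ∈ range N, ‖cylL L (ψ i)‖ ≤ ∑ i ∈ range N, (‖f i‖ + ε) :=
            sum_le_sum fun i hi => hnorm i (mem_range.1 hi)
        _ = ∑ i ∈ range N, ‖f i‖ + N * ε := by
            rw [sum_add_distrib, sum_const, card_range, nsmul_eq_mul]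
        _ ≤ M + 1 := by linarith
  have hB : rad N (fun i => R k (f i - cylL L (ψ i))) ≤ δ / 2 := by
    have hR : ‖R k‖ ≤ 1 := hD.res.fam.norm k
    calc rad N (fun i => R k (f i - cylL L (ψ i)))
        ≤ ∑ i ∈ range N, ‖R k (f i - cylL L (ψ i))‖ := (hS1 E N _ 0).2.1
      _ ≤ ∑ i ∈ range N, ε := by
          refine sum_le_sum fun i hi => ?_
          calc ‖R k (f i - cylL L (ψ i))‖ ≤ ‖R k‖ * ‖f i - cylL L (ψ i)‖ :=
                (R k).le_opNorm _
            _ ≤ 1 * ‖f i - cylL L (ψ i)‖ := mul_le_mul_of_nonneg_right hR (norm_nonneg _)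
            _ ≤ ε := by rw [one_mul]; exact hdist i (mem_range.1 hi)
      _ = N * ε := by rw [sum_const, card_range, nsmul_eq_mul]
      _ ≤ δ / 2 := by linarith
  have hsplit : (fun i => R k (f i))
      = fun i => (fun j => R k (cylL L (ψ j))) i + (fun j => R k (f j - cylL L (ψ j))) i := by
    funext i
    show R k (f i) = R k (cylL L (ψ i)) + R k (f i - cylL L (ψ i))
    rw [← map_add]
    congr 1
    abel
  rw [hsplit]
  have h3 := (hS1 E N (fun j => R k (cylL L (ψ j))) (fun j => R k (f j - cylL L (ψ j)))).2.2.1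
  linarith

end Pool.Agent.Exo
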