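import Pool.Agent.Lib.MP_935088_an.EX.Stm

/-!
# MP_935088_an: piece S6 (truncation of a tree)
-/

set_option autoImplicit false

open MeasureTheory Filter Topology Finset

namespace Pool.Agent.Exo

/-- clamp to `[-K, K]` -/
private noncomputable def S6_cl (K x : ℝ) : ℝ := max (-K) (min K x)

private theorem S6_cl_abs (K x : ℝ) (hK : 0 < K) : |S6_cl K x| ≤ K := by
  unfold S6_cl
  rw [abs_le]
  constructor
  · exact le_max_left _ _
  · exact max_le (by linarith) (min_le_left _ _)

private theorem S6_cl_le (K x : ℝ) (hK : 0 < K) : |S6_cl K x| ≤ |x| := by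
  unfold S6_cl
  rcases le_total x 0 with h | h
  · have h1 : min K x = x := min_eq_right (by linarith)
    rw [h1]
    rcases le_total (-K) x with h2 | h2
    · rw [max_eq_right h2]
    · rw [max_eq_left h2, abs_neg, abs_of_pos hK, abs_of_nonpos h]
      linarith
  · have h1 : 0 ≤ min K x := le_min hK.le h
    rw [max_eq_right (by linarith), abs_of_nonneg h1, abs_of_nonneg h]
    exact min_le_right _ _

private theorem S6_cl_sub (K x : ℝ) (hK : 0 < K) : |x - S6_cl K x| = max (|x| - K) 0 := by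
  unfold S6_cl
  rcases le_total x 0 with h | h
  · have h1 : min K x = x := min_eq_right (by linarith)
    rw [h1, abs_of_nonpos h]
    rcases le_total (-K) x with h2 | h2
    · rw [max_eq_right h2, max_eq_right (by linarith)]
      simp
    · rw [max_eq_left h2, max_eq_left (by linarith), abs_of_nonpos (by linarith)]
      ring
  · have h1 : 0 ≤ min K x := le_min hK.le h
    rw [max_eq_right (show -K ≤ min K x by linarith), abs_of_nonneg h]
    rcases le_total K x with h2 | h2
    · rw [min_eq_left h2, max_eq_left (by linarith), abs_of_nonneg (by linarith)]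
    · rw [min_eq_right h2, max_eq_right (by linarith)]
      simp

private theorem S6_pos_sum (N : ℕ) (a : ℕ → ℝ) (K : ℝ) (hK : 0 < K) (ha : ∀ i, 0 ≤ a i) :
    ∑ i ∈ range N, max (a i - K) 0 ≤ max (∑ i ∈ range N, a i - K) 0 := by
  induction N with
  | zero => simp
  | succ N ih =>
    rw [sum_range_succ, sum_range_succ]
    have h0 : 0 ≤ ∑ i ∈ range N, a i := sum_nonneg fun i _ => ha i
    have h1 := ha N
    set s := ∑ i ∈ range N, a i with hs
    set x := a N with hx
    rcases le_total (s - K) 0 with h2 | h2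
    · rw [max_eq_right h2] at ih
      rcases le_total (x - K) 0 with h3 | h3
      · rw [max_eq_right h3]
        have := le_max_right (s + x - K) 0
        linarith
      · rw [max_eq_left h3]
        have := le_max_left (s + x - K) 0
        linarith
    · rw [max_eq_left h2] at ih
      have h5 := le_max_left (s + x - K) 0
      rcases le_total (x - K) 0 with h3 | h3
      · rw [max_eq_right h3]
        linarith
      · rw [max_eq_left h3]
        linarith

private theorem S6_sum_two (N : ℕ) (a : ℕ → ℝ) :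
    ∑ i ∈ range (2 * N), a i = ∑ i ∈ range N, (a (2 * i) + a (2 * i + 1)) := by
  induction N with
  | zero => simp
  | succ N ih =>
    rw [show 2 * (N + 1) = 2 * N + 1 + 1 by ring, sum_range_succ, sum_range_succ, ih,
      sum_range_succ]
    ring

/-- the sum of the absolute values -/
private noncomputable def S6_h (T : ℕ → ℕ → E) (n : ℕ) (t : ℝ) : ℝ :=
  ∑ i ∈ range (2 ^ n), |(T n i : ℝ → ℝ) t|

private theorem S6_int1 (g : E) : Integrable (fun t => |(g : ℝ → ℝ) t|) lam :=
  (L1.integrable_coeFn g).abs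

private theorem S6_norm (g : E) : ‖g‖ = ∫ t, |(g : ℝ → ℝ) t| ∂lam := by
  rw [L1.norm_eq_integral_norm]
  rfl

private theorem S6_h_int (T : ℕ → ℕ → E) (n : ℕ) : Integrable (S6_h T n) lam := by
  unfold S6_h
  exact integrable_finsetSum _ fun i _ => S6_int1 _

private theorem S6_h_norm (T : ℕ → ℕ → E) (n : ℕ) :
    ∫ t, S6_h T n t ∂lam = ∑ i ∈ range (2 ^ n), ‖T n i‖ := by
  unfold S6_h
  rw [integral_finsetSum _ fun i _ => S6_int1 _]
  exact sum_congr rfl fun i _ => (S6_norm _).symm

private theorem S6_h_nonneg (T : ℕ → ℕ → E) (n : ℕ) (t : ℝ) : 0 ≤ S6_h T n t :=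
  sum_nonneg fun _ _ => abs_nonneg _

private theorem S6_h_succ (T : ℕ → ℕ → E) (M : ℝ) (hT : Tree T M) (n : ℕ) :
    ∀ᵐ t ∂lam, S6_h T n t ≤ S6_h T (n + 1) t := by
  have h1 : ∀ i, i < 2 ^ n → ∀ᵐ t ∂lam, (T n i : ℝ → ℝ) t =
      (T (n + 1) (2 * i) : ℝ → ℝ) t + (T (n + 1) (2 * i + 1) : ℝ → ℝ) t := by
    intro i hi
    rw [hT.split n i hi]
    filter_upwards [Lp.coeFn_add (T (n + 1) (2 * i)) (T (n + 1) (2 * i + 1))] with t ht
    rw [ht]
    rfl
  have h2 : ∀ᵐ t ∂lam, ∀ i ∈ range (2 ^ n), (T n i : ℝ → ℝ) t =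
      (T (n + 1) (2 * i) : ℝ → ℝ) t + (T (n + 1) (2 * i + 1) : ℝ → ℝ) t := by
    rw [eventually_all_finset]
    intro i hi
    exact h1 i (mem_range.mp hi)
  filter_upwards [h2] with t ht
  unfold S6_h
  rw [pow_succ', S6_sum_two]
  refine sum_le_sum fun i hi => ?_
  rw [ht i hi]
  exact abs_add_le _ _

private theorem S6_h_mono (T : ℕ → ℕ → E) (M : ℝ) (hT : Tree T M) (n m : ℕ) (h : n ≤ m) :
    ∀ᵐ t ∂lam, S6_h T n t ≤ S6_h T m t := by
  induction m, h using Nat.le_induction with
  | base => exact Eventually.of_forall fun t => le_refl _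
  | succ m _ ih =>
    filter_upwards [ih, S6_h_succ T M hT m] with t h1 h2
    exact h1.trans h2

private theorem S6_trunc (g : ℝ → ℝ) (hg : Integrable g lam) (ε : ℝ) (hε : 0 < ε) :
    ∃ K : ℝ, 0 < K ∧ ∫ t, max (g t - K) 0 ∂lam ≤ ε := by
  have h1 : Tendsto (fun k : ℕ => ∫ t, max (g t - ((k : ℝ) + 1)) 0 ∂lam) atTop
      (𝓝 (∫ t, (0 : ℝ) ∂lam)) := by
    refine tendsto_integral_of_dominated_convergence (fun t => |g t|) ?_ hg.abs ?_ ?_
    · intro k
      exact ((hg.sub (integrable_const _)).pos_part).aestronglyMeasurable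
    · intro k
      refine Eventually.of_forall fun t => ?_
      rw [Real.norm_eq_abs, abs_of_nonneg (le_max_right _ _)]
      refine max_le ?_ (abs_nonneg _)
      have := le_abs_self (g t)
      have h3 : (0 : ℝ) ≤ (k : ℝ) := Nat.cast_nonneg k
      linarith
    · refine Eventually.of_forall fun t => ?_
      refine tendsto_const_nhds.congr' ?_
      obtain ⟨N, hN⟩ := exists_nat_ge (g t)
      filter_upwards [eventually_ge_atTop N] with k hk
      rw [max_eq_right]
      have : (N : ℝ) ≤ (k : ℝ) := Nat.cast_le.mpr hk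
      linarith
  rw [integral_zero] at h1
  have h2 := h1.eventually (Iic_mem_nhds hε)
  obtain ⟨k, hk⟩ := h2.exists
  exact ⟨(k : ℝ) + 1, by positivity, hk⟩

private theorem S6_sup (a : ℕ → ℝ) (M ε : ℝ) (ha : ∀ n, a n ≤ M) (hε : 0 < ε) :
    ∃ n₀, ∀ n, a n ≤ a n₀ + ε := by
  by_contra h
  push Not at h
  have hb : BddAbove (Set.range a) := ⟨M, by rintro _ ⟨n, rfl⟩; exact ha n⟩
  obtain ⟨n₀, hn₀⟩ := exists_lt_of_lt_ciSup (show iSup a - ε < iSup a by linarith)
  obtain ⟨n, hn⟩ := h n₀
  have := le_ciSup hb n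
  linarith

theorem p_S6 : S_S6 := by
  intro T M hT ε hε
  have hbdd : ∀ n, ∫ t, S6_h T n t ∂lam ≤ M := by
    intro n
    rw [S6_h_norm]
    exact hT.bdd n
  obtain ⟨n₀, hn₀⟩ := S6_sup (fun n => ∫ t, S6_h T n t ∂lam) M (ε / 2) hbdd (half_pos hε)
  obtain ⟨K, hK, hKε⟩ := S6_trunc (S6_h T n₀) (S6_h_int T n₀) (ε / 2) (half_pos hε)
  refine ⟨K, hK, n₀, fun n hn => ?_⟩
  have hcm : Measurable (S6_cl K) := by
    unfold S6_cl
    exact measurable_const.max (measurable_const.min measurable_id)
  have hmem : ∀ i, MemLp (fun t => S6_cl K ((T n i : ℝ → ℝ) t)) 1 lam := by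
    intro i
    refine MemLp.of_le (Lp.memLp (T n i)) ?_ ?_
    · exact (hcm.comp_aemeasurable
        (Lp.aestronglyMeasurable (T n i)).aemeasurable).aestronglyMeasurable
    · exact Eventually.of_forall fun t => S6_cl_le K _ hK
  have hae : ∀ i, ∀ᵐ t ∂lam, ((hmem i).toLp _ : ℝ → ℝ) t = S6_cl K ((T n i : ℝ → ℝ) t) :=
    fun i => (hmem i).coeFn_toLp
  refine ⟨fun i => (hmem i).toLp _, ?_, ?_, ?_⟩
  · intro i
    filter_upwards [hae i] with t ht
    rw [ht]
    exact S6_cl_abs K _ hK
  · intro i _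
    refine Lp.norm_le_norm_of_ae_le ?_
    filter_upwards [hae i] with t ht
    rw [ht]
    exact S6_cl_le K _ hK
  · have hnorm : ∀ i, ‖T n i - (hmem i).toLp _‖ =
        ∫ t, max (|(T n i : ℝ → ℝ) t| - K) 0 ∂lam := by
      intro i
      rw [S6_norm]
      refine integral_congr_ae ?_
      filter_upwards [hae i, Lp.coeFn_sub (T n i) ((hmem i).toLp _)] with t h1 h2
      rw [h2]
      simp only [Pi.sub_apply]
      rw [h1, S6_cl_sub K _ hK]
    have hint : ∀ i, Integrable (fun t => max (|(T n i : ℝ → ℝ) t| - K) 0) lam := by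
      intro i
      exact ((S6_int1 (T n i)).sub (integrable_const K)).pos_part
    calc ∑ i ∈ range (2 ^ n), ‖T n i - (hmem i).toLp _‖
        = ∑ i ∈ range (2 ^ n), ∫ t, max (|(T n i : ℝ → ℝ) t| - K) 0 ∂lam :=
          sum_congr rfl fun i _ => hnorm i
      _ = ∫ t, ∑ i ∈ range (2 ^ n), max (|(T n i : ℝ → ℝ) t| - K) 0 ∂lam :=
          (integral_finsetSum _ fun i _ => hint i).symm
      _ ≤ ∫ t, ((S6_h T n t - S6_h T n₀ t) + max (S6_h T n₀ t - K) 0) ∂lam := by
          refine integral_mono_ae (integrable_finsetSum _ fun i _ => hint i)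
            (((S6_h_int T n).sub (S6_h_int T n₀)).add
              (((S6_h_int T n₀).sub (integrable_const K)).pos_part)) ?_
          filter_upwards [S6_h_mono T M hT n₀ n hn] with t ht
          have h1 := S6_pos_sum (2 ^ n) (fun i => |(T n i : ℝ → ℝ) t|) K hK
            fun i => abs_nonneg _
          refine h1.trans ?_
          change max (S6_h T n t - K) 0 ≤ _
          have h2 := le_max_left (S6_h T n₀ t - K) 0
          have h3 := le_max_right (S6_h T n₀ t - K) 0
          exact max_le (by linarith) (by linarith)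
      _ = (∫ t, S6_h T n t ∂lam - ∫ t, S6_h T n₀ t ∂lam) +
            ∫ t, max (S6_h T n₀ t - K) 0 ∂lam := by
          have i1 : Integrable (fun t => S6_h T n t - S6_h T n₀ t) lam :=
            (S6_h_int T n).sub (S6_h_int T n₀)
          have i2 : Integrable (fun t => max (S6_h T n₀ t - K) 0) lam :=
            ((S6_h_int T n₀).sub (integrable_const K)).pos_part
          rw [integral_add i1 i2, integral_sub (S6_h_int T n) (S6_h_int T n₀)]
      _ ≤ ε := by
          have := hn₀ n
          linarith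

end Pool.Agent.Exo
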