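import Pool.Agent.Lib.MP_935088_an.EX.Stm

set_option autoImplicit false

open MeasureTheory Filter Topology Finset

namespace Pool.Agent.Exo

theorem p_S7 (hS1 : S_S1) (hS5 : S_S5) (hS6 : S_S6) : S_S7 := by
  intro Av R hD k T M hT
  rw [Metric.tendsto_atTop]
  intro δ hδ
  obtain ⟨K, hK, n₀, hf⟩ := hS6 T M hT (δ / 4) (by positivity)
  obtain ⟨η, hη, h5⟩ := hS5 Av R hD k K (max M 1) (δ / 4) hK (lt_max_of_lt_right one_pos)
    (by positivity)
  obtain ⟨n₁, hn₁⟩ := hT.small η hη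
  refine ⟨max n₀ n₁, fun n hn => ?_⟩
  obtain ⟨f, hf1, hf2, hf3⟩ := hf n (le_of_max_le_left hn)
  have hsm := hn₁ n (le_of_max_le_right hn)
  have hnn := (hS1 E (2 ^ n) (fun i => R k (T n i)) (fun i => R k (T n i))).1
  rw [Real.dist_eq, sub_zero, abs_of_nonneg hnn]
  have h3 := (hS1 E (2 ^ n) (fun i => R k (f i)) (fun i => R k (T n i - f i))).2.2.1
  have he : (fun i => R k (f i) + R k (T n i - f i)) = fun i => R k (T n i) := by
    funext i; rw [← map_add, add_sub_cancel]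
  rw [he] at h3
  have h4 : rad (2 ^ n) (fun i => R k (f i)) ≤ δ / 4 := by
    refine h5 (2 ^ n) f hf1 (fun i hi => (hf2 i hi).trans (hsm i hi)) ?_
    calc ∑ i ∈ range (2 ^ n), ‖f i‖ ≤ ∑ i ∈ range (2 ^ n), ‖T n i‖ :=
          sum_le_sum fun i hi => hf2 i (mem_range.1 hi)
      _ ≤ M := hT.bdd n
      _ ≤ max M 1 := le_max_left _ _
  have h6 : rad (2 ^ n) (fun i => R k (T n i - f i)) ≤ δ / 4 := by
    refine ((hS1 E (2 ^ n) (fun i => R k (T n i - f i)) (fun i => R k (T n i))).2.1).trans ?_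
    calc ∑ i ∈ range (2 ^ n), ‖R k (T n i - f i)‖ ≤ ∑ i ∈ range (2 ^ n), ‖T n i - f i‖ := by
          refine sum_le_sum fun i _ => ?_
          calc ‖R k (T n i - f i)‖ ≤ ‖R k‖ * ‖T n i - f i‖ := (R k).le_opNorm _
            _ ≤ 1 * ‖T n i - f i‖ :=
              mul_le_mul_of_nonneg_right (hD.res.fam.norm k) (norm_nonneg _)
            _ = ‖T n i - f i‖ := one_mul _
      _ ≤ δ / 4 := hf3
  linarith

end Pool.Agent.Exo
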