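import Pool.Agent.Lib.MP_935088_an.EX.Stm

set_option autoImplicit false

open MeasureTheory Filter Topology Finset

namespace Pool.Agent.Exo

private theorem S8_summ (F : Y E) : Summable (fun j => ‖F j‖) := by
  have h := lp.memℓp F
  have h2 := h.summable (by simp)
  simpa using h2

private theorem S8_Vo (R : ℕ → E →L[ℝ] E) (hR : ∀ k, ‖R k‖ ≤ 1) (j : ℕ) : ‖Vo R j‖ ≤ 3 := by
  cases j with
  | zero =>
    change ‖R 0‖ ≤ 3
    linarith [hR 0]
  | succ j =>
    change ‖(3 * (1 / 2 : ℝ) ^ j) • R j‖ ≤ 3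
    rw [norm_smul, Real.norm_of_nonneg (by positivity)]
    have h1 : (1 / 2 : ℝ) ^ j ≤ 1 := pow_le_one₀ (by norm_num) (by norm_num)
    have h2 : (0 : ℝ) ≤ (1 / 2 : ℝ) ^ j := by positivity
    have h3 := hR j
    have h4 := norm_nonneg (R j)
    nlinarith

/-- Rademacher averages of infinite sums -/
private theorem S8_tsum (N : ℕ) (v : ℕ → ℕ → E) (hv : ∀ i, Summable (fun j => ‖v i j‖)) :
    rad N (fun i => ∑' j, v i j) ≤ ∑' j, rad N (fun i => v i j) := by
  have hb : ∀ (s : Finset ℕ) (j : ℕ),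
      ‖∑ i ∈ range N, (if i ∈ s then (1 : ℝ) else -1) • v i j‖ ≤ ∑ i ∈ range N, ‖v i j‖ := by
    intro s j
    refine (norm_sum_le _ _).trans (sum_le_sum fun i _ => ?_)
    rw [norm_smul]
    split_ifs <;> simp
  have hsb : Summable (fun j => ∑ i ∈ range N, ‖v i j‖) := summable_sum fun i _ => hv i
  have hs : ∀ s : Finset ℕ,
      Summable (fun j => ‖∑ i ∈ range N, (if i ∈ s then (1 : ℝ) else -1) • v i j‖) := fun s =>
    Summable.of_nonneg_of_le (fun _ => norm_nonneg _) (hb s) hsb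
  have h1 : ∀ s : Finset ℕ, ‖∑ i ∈ range N, (if i ∈ s then (1 : ℝ) else -1) • ∑' j, v i j‖ ≤
      ∑' j, ‖∑ i ∈ range N, (if i ∈ s then (1 : ℝ) else -1) • v i j‖ := by
    intro s
    have h2 : ∑ i ∈ range N, (if i ∈ s then (1 : ℝ) else -1) • ∑' j, v i j =
        ∑' j, ∑ i ∈ range N, (if i ∈ s then (1 : ℝ) else -1) • v i j := by
      rw [Summable.tsum_finsetSum]
      · refine sum_congr rfl fun i _ => ?_
        rw [Summable.tsum_const_smul]
        exact (hv i).of_norm
      · intro i _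
        exact (hv i).of_norm.const_smul _
    rw [h2]
    exact norm_tsum_le_tsum_norm (hs s)
  unfold rad
  have h3 : ∑' j, (∑ s ∈ (range N).powerset,
      ‖∑ i ∈ range N, (if i ∈ s then (1 : ℝ) else -1) • v i j‖) / 2 ^ N =
      (∑ s ∈ (range N).powerset,
        ∑' j, ‖∑ i ∈ range N, (if i ∈ s then (1 : ℝ) else -1) • v i j‖) / 2 ^ N := by
    rw [tsum_div_const, Summable.tsum_finsetSum]
    intro s _
    exact hs s
  rw [h3]
  exact div_le_div_of_nonneg_right (sum_le_sum fun s _ => h1 s) (by positivity)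

theorem p_S8 (hS1 : S_S1) (hS7 : S_S7) (hS9 : S_S9) : S_S8 := by
  intro Av R hD F M hF h1 h2
  have hTree : ∀ j, Tree (fun n i => (F n i) j) M := by
    intro j
    constructor
    · intro n i hi
      change (F n i) j = (F (n + 1) (2 * i)) j + (F (n + 1) (2 * i + 1)) j
      rw [hF.split n i hi, lp.coeFn_add, Pi.add_apply]
    · intro n
      exact (sum_le_sum fun i _ => lp.norm_apply_le_norm (by simp) (F n i) j).trans (hF.bdd n)
    · intro η hη
      obtain ⟨n₀, h⟩ := hF.small η hη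
      exact ⟨n₀, fun n hn i hi =>
        (lp.norm_apply_le_norm (by simp) (F n i) j).trans (h n hn i hi)⟩
  have hR0 : ∀ k j, Tendsto (fun n => rad (2 ^ n) (fun i => R k ((F n i) j))) atTop (𝓝 0) :=
    fun k j => hS7 Av R hD k _ M (hTree j)
  have hV : ∀ j, Tendsto (fun n => rad (2 ^ n) (fun i => Vo R j ((F n i) j))) atTop (𝓝 0) := by
    intro j
    cases j with
    | zero => exact hR0 0 0
    | succ j =>
      let T : E →L[ℝ] E := (3 * (1 / 2 : ℝ) ^ j) • ContinuousLinearMap.id ℝ E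
      have hlim := (hR0 j (j + 1)).const_mul ‖T‖
      rw [mul_zero] at hlim
      refine squeeze_zero (fun n => ?_) (fun n => ?_) hlim
      · exact (hS1 E (2 ^ n) (fun i => Vo R (j + 1) ((F n i) (j + 1))) (fun _ => 0)).1
      · exact (hS1 E (2 ^ n) (fun i => R j ((F n i) (j + 1))) (fun _ => 0)).2.2.2.1 E T
  obtain ⟨hsum, hlim⟩ := (hS9 ℕ E F M hF).2 E (fun j => Vo R j) 3
    (S8_Vo R hD.res.fam.norm) hV
  have hvs : ∀ n i, Summable (fun j => ‖Vo R j ((F n i) j)‖) := by
    intro n i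
    refine Summable.of_nonneg_of_le (fun _ => norm_nonneg _) (fun j => ?_)
      ((S8_summ (F n i)).mul_left 3)
    calc ‖Vo R j ((F n i) j)‖ ≤ ‖Vo R j‖ * ‖(F n i) j‖ := (Vo R j).le_opNorm _
      _ ≤ 3 * ‖(F n i) j‖ :=
        mul_le_mul_of_nonneg_right (S8_Vo R hD.res.fam.norm j) (norm_nonneg _)
  have h0 : Tendsto (fun n => rad (2 ^ n) (fun i => (F n i) 0)) atTop (𝓝 0) := by
    refine squeeze_zero (fun n => (hS1 E (2 ^ n) (fun i => (F n i) 0) (fun _ => 0)).1)
      (fun n => ?_) hlim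
    have h3 := S8_tsum (2 ^ n) (fun i j => Vo R j ((F n i) j)) (fun i => hvs n i)
    have h4 : (fun i => ∑' j, Vo R j ((F n i) j)) = fun i => (F n i) 0 := by
      funext i; exact (h2 n i).symm
    rw [h4] at h3
    exact h3
  refine (hS9 ℕ E F M hF).1 fun k => ?_
  have hk := h0.const_mul ‖Uo R k‖
  rw [mul_zero] at hk
  refine squeeze_zero (fun n => (hS1 E (2 ^ n) (fun i => (F n i) k) (fun _ => 0)).1)
    (fun n => ?_) hk
  have h5 := (hS1 E (2 ^ n) (fun i => (F n i) 0) (fun _ => 0)).2.2.2.1 E (Uo R k)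
  have h6 : (fun i => Uo R k ((F n i) 0)) = fun i => (F n i) k := by
    funext i; exact (h1 n i k).symm
  rw [h6] at h5
  exact h5

end Pool.Agent.Exo
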