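import Pool.Agent.Lib.MP_935088_an.EX.Stm

set_option autoImplicit false

open MeasureTheory Filter Topology Finset

namespace Pool.Agent.Exo

private theorem S9_summable {Γ Z : Type} [NormedAddCommGroup Z] [NormedSpace ℝ Z]
    (G : lp (fun _ : Γ => Z) 1) : Summable (fun γ => ‖G γ‖) := by
  have h := (lp.memℓp G).summable (by norm_num)
  simpa using h

private theorem S9_norm {Γ Z : Type} [NormedAddCommGroup Z] [NormedSpace ℝ Z]
    (G : lp (fun _ : Γ => Z) 1) : ‖G‖ = ∑' γ, ‖G γ‖ := by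
  have h := lp.norm_eq_tsum_rpow (p := 1) (by norm_num) G
  simpa using h

private theorem S9_even_odd (a : ℕ → ℝ) (m : ℕ) :
    ∑ j ∈ range (2 * m), a j = ∑ i ∈ range m, (a (2 * i) + a (2 * i + 1)) := by
  induction m with
  | zero => simp
  | succ m ih =>
    rw [show 2 * (m + 1) = 2 * m + 1 + 1 by ring, sum_range_succ, sum_range_succ, ih,
      sum_range_succ (n := m)]
    ring

private theorem S9_rad_tsum {Γ Z : Type} [NormedAddCommGroup Z] [NormedSpace ℝ Z]
    (N : ℕ) (F : ℕ → lp (fun _ : Γ => Z) 1) :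
    rad N F = ∑' γ, rad N (fun i => (F i) γ) := by
  unfold rad
  have hs : ∀ S ∈ (range N).powerset, Summable (fun γ : Γ =>
      ‖∑ i ∈ range N, (if i ∈ S then (1 : ℝ) else -1) • (F i) γ‖) := by
    intro S _
    have h := S9_summable (∑ i ∈ range N, (if i ∈ S then (1 : ℝ) else -1) • F i)
    refine h.congr fun γ => ?_
    rw [lp.coeFn_sum, Finset.sum_apply]
    rfl
  rw [tsum_div_const, Summable.tsum_finsetSum hs]
  congr 1
  refine sum_congr rfl fun S _ => ?_
  rw [S9_norm]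
  refine tsum_congr fun γ => ?_
  rw [lp.coeFn_sum, Finset.sum_apply]
  rfl

theorem p_S9 (hS1 : S_S1) : S_S9 := by
  intro Γ Z _ _ F M hT
  -- the dominating function
  set h : ℕ → Γ → ℝ := fun n γ => ∑ i ∈ range (2 ^ n), ‖(F n i) γ‖ with hh
  have hmono : ∀ γ, Monotone (fun n => h n γ) := by
    intro γ
    refine monotone_nat_of_le_succ fun n => ?_
    simp only [hh]
    rw [pow_succ, mul_comm (2 ^ n) 2, S9_even_odd]
    refine sum_le_sum fun i hi => ?_
    have h1 := hT.split n i (mem_range.1 hi)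
    have h2 : (F n i) γ = (F (n + 1) (2 * i)) γ + (F (n + 1) (2 * i + 1)) γ := by
      rw [h1]; rfl
    rw [h2]
    exact norm_add_le _ _
  have hsumle : ∀ (n : ℕ) (G : Finset Γ), ∑ γ ∈ G, h n γ ≤ M := by
    intro n G
    simp only [hh]
    rw [sum_comm]
    refine le_trans (sum_le_sum fun i _ => ?_) (hT.bdd n)
    rw [S9_norm]
    exact (S9_summable (F n i)).sum_le_tsum G (fun γ _ => norm_nonneg _)
  have hle : ∀ n γ, h n γ ≤ M := by
    intro n γ
    simpa using hsumle n {γ}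
  have hbdd : ∀ γ, BddAbove (Set.range fun n => h n γ) := by
    intro γ
    exact ⟨M, by rintro _ ⟨n, rfl⟩; exact hle n γ⟩
  set H : Γ → ℝ := fun γ => ⨆ n, h n γ with hH
  have hHle : ∀ n γ, h n γ ≤ H γ := fun n γ => le_ciSup (hbdd γ) n
  have h0 : ∀ n γ, 0 ≤ h n γ := fun n γ => sum_nonneg fun i _ => norm_nonneg _
  have hHsum : Summable H := by
    refine summable_of_sum_le (c := M) (fun γ => le_trans (h0 0 γ) (hHle 0 γ)) fun G => ?_
    have ht : Tendsto (fun n => ∑ γ ∈ G, h n γ) atTop (𝓝 (∑ γ ∈ G, H γ)) :=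
      tendsto_finset_sum _ fun γ _ => tendsto_atTop_ciSup (hmono γ) (hbdd γ)
    exact le_of_tendsto' ht fun n => hsumle n G
  have key : ∀ (Z' : Type) [NormedAddCommGroup Z'] [NormedSpace ℝ Z'] (S : Γ → Z →L[ℝ] Z')
      (C : ℝ), (∀ γ, ‖S γ‖ ≤ C) → ∀ n γ,
      rad (2 ^ n) (fun i => S γ ((F n i) γ)) ≤ |C| * H γ := by
    intro Z' _ _ S C hC n γ
    have h1 := (hS1 Z' (2 ^ n) (fun i => S γ ((F n i) γ)) (fun i => S γ ((F n i) γ))).2.1
    refine h1.trans ?_
    have h2 : ∑ i ∈ range (2 ^ n), ‖S γ ((F n i) γ)‖ ≤ |C| * h n γ := by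
      simp only [hh]
      rw [mul_sum]
      refine sum_le_sum fun i _ => ?_
      refine (ContinuousLinearMap.le_opNorm _ _).trans ?_
      exact mul_le_mul_of_nonneg_right ((hC γ).trans (le_abs_self C)) (norm_nonneg _)
    exact h2.trans (mul_le_mul_of_nonneg_left (hHle n γ) (abs_nonneg C))
  have second : ∀ (Z' : Type) [NormedAddCommGroup Z'] [NormedSpace ℝ Z'] (S : Γ → Z →L[ℝ] Z')
      (C : ℝ), (∀ γ, ‖S γ‖ ≤ C) →
      (∀ γ, Tendsto (fun n => rad (2 ^ n) (fun i => S γ ((F n i) γ))) atTop (𝓝 0)) →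
      (∀ n, Summable (fun γ => rad (2 ^ n) (fun i => S γ ((F n i) γ)))) ∧
      Tendsto (fun n => ∑' γ, rad (2 ^ n) (fun i => S γ ((F n i) γ))) atTop (𝓝 0) := by
    intro Z' _ _ S C hC hlim
    have hk := key Z' S C hC
    have hpos : ∀ n γ, 0 ≤ rad (2 ^ n) (fun i => S γ ((F n i) γ)) := fun n γ =>
      (hS1 Z' (2 ^ n) (fun i => S γ ((F n i) γ)) (fun i => S γ ((F n i) γ))).1
    have hsb : Summable (fun γ => |C| * H γ) := hHsum.mul_left _
    refine ⟨fun n => Summable.of_nonneg_of_le (hpos n) (hk n) hsb, ?_⟩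
    have := tendsto_tsum_of_dominated_convergence (𝓕 := atTop)
      (f := fun n γ => rad (2 ^ n) (fun i => S γ ((F n i) γ))) (g := fun _ => (0 : ℝ)) hsb hlim
      (Eventually.of_forall fun n γ => by
        rw [Real.norm_eq_abs, abs_of_nonneg (hpos n γ)]; exact hk n γ)
    simpa using this
  refine ⟨fun hlim => ?_, second⟩
  have h3 := (second Z (fun _ => ContinuousLinearMap.id ℝ Z) 1
    (fun _ => ContinuousLinearMap.norm_id_le) (by simpa using hlim)).2
  refine h3.congr fun n => ?_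
  rw [S9_rad_tsum]
  rfl

end Pool.Agent.Exo
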