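import Pool.Agent.Lib.MP_935088_an.EX.Stm

set_option autoImplicit false

open MeasureTheory Filter Topology Finset

namespace Pool.Agent.Exo

theorem p_W0 (hA2 : S_A2) (hA7 : S_A7) (hM6 : S_M6) : S_W0 := by
  obtain ⟨Av, hAv, h1, h2⟩ := hM6
  obtain ⟨R, hR⟩ := hA2 E Av hAv
  obtain ⟨P, hP, hPF⟩ := hA7 E R hR.fam
  exact ⟨Av, R, P, ⟨hAv, h1, h2, hR⟩, hP, hPF⟩

end Pool.Agent.Exo
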