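import Pool.Agent.Lib.MP_935088_an.EX.Stm

set_option autoImplicit false

open MeasureTheory Filter Topology Finset

namespace Pool.Agent.Exo

private theorem W2_fix (hA6 : S_A6) {Av R : ℕ → E →L[ℝ] E} {P : Y E →L[ℝ] Y E} (hD : Dat Av R)
    (hP : ∀ (F : Y E) (k : ℕ), (P F) k = Uo R k (∑' j, Vo R j (F j)))
    (F : Y E) (g : E) (hF : ∀ k, F k = Uo R k g) : P F = F := by
  have h := (hA6 E R hD.res.fam F g hF).tsum_eq
  apply lp.ext
  funext k
  rw [hP F k, h, hF k]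

theorem p_W2 (hA6 : S_A6) (hA8 : S_A8) (hZ3 : S_Z3) : S_W2 := by
  intro Av R P hD hP
  obtain ⟨hn, hup, hR⟩ := hZ3
  have hR' : ∀ k n, R k (rdm n) = (1 + 1 * (1 / 4 : ℝ) ^ k)⁻¹ • rdm n := fun k n => hR Av R hD k n
  have hx : ∀ n, ∃ F : Y E, (∀ k, F k = Uo R k (rdm n)) ∧ ‖F‖ ≤ 3 * √(1 : ℝ) * ‖rdm n‖ :=
    fun n => hA8 E R 1 (rdm n) le_rfl (fun k => hR' k n)
  choose x hx1 hx2 using hx
  refine ⟨x, fun n => W2_fix hA6 hD hP (x n) (rdm n) (hx1 n), fun n => ?_, ?_⟩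
  · have h0 : (x n) 0 = rdm n := by
      rw [hx1 n 0]; rfl
    have h1 : ‖(x n) 0‖ ≤ ‖x n‖ := lp.norm_apply_le_norm (by norm_num) (x n) 0
    rw [h0, hn n] at h1
    exact h1
  · intro S e he
    obtain ⟨F, hF1, hF2⟩ := hA8 E R 1 (∑ n ∈ S, e n • rdm n) le_rfl (fun k => by
      rw [map_sum, Finset.smul_sum]
      refine Finset.sum_congr rfl fun n _ => ?_
      rw [map_smul, hR' k n, smul_comm])
    have hFe : F = ∑ n ∈ S, e n • x n := by
      apply lp.ext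
      funext k
      rw [hF1 k, map_sum, lp.coeFn_sum, Finset.sum_apply]
      refine Finset.sum_congr rfl fun n _ => ?_
      rw [map_smul, lp.coeFn_smul, Pi.smul_apply, hx1 n k]
    rw [← hFe]
    have h3 := hup S e he
    rw [Real.sqrt_one] at hF2
    calc ‖F‖ ≤ 3 * 1 * ‖∑ n ∈ S, e n • rdm n‖ := hF2
      _ ≤ 3 * √(S.card : ℝ) := by linarith

end Pool.Agent.Exo
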