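import Pool.Agent.Lib.MP_935088_an.EX.Stm

set_option autoImplicit false

open MeasureTheory Filter Topology Finset

namespace Pool.Agent.Exo

private theorem W3_fix (hA6 : S_A6) {Av R : ℕ → E →L[ℝ] E} {P : Y E →L[ℝ] Y E} (hD : Dat Av R)
    (hP : ∀ (F : Y E) (k : ℕ), (P F) k = Uo R k (∑' j, Vo R j (F j)))
    (F : Y E) (g : E) (hF : ∀ k, F k = Uo R k g) : P F = F := by
  have h := (hA6 E R hD.res.fam F g hF).tsum_eq
  apply lp.ext
  funext k
  rw [hP F k, h, hF k]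

private theorem W3_sum (F : Y E) (N : ℕ) : ∑ m ∈ range N, ‖F (m + 1)‖ ≤ ‖F‖ := by
  have h := lp.sum_rpow_le_norm_rpow (p := 1) (by simp) F ((range N).image (· + 1))
  rw [Finset.sum_image (by intro a _ b _ h; exact Nat.succ_injective h)] at h
  simpa using h

theorem p_W3 (hA6 : S_A6) (hA8 : S_A8) (hZ7 : S_Z7) : S_W3 := by
  intro Av R P hD hP
  obtain ⟨hn, hR0, h, hh1, hh2⟩ := hZ7
  have hR := hR0 Av R hD
  have hex : ∀ m : ℕ, ∃ F : Y E, (∀ k, F k = Uo R k (wal (4 ^ m))) ∧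
      ‖F‖ ≤ 3 * √((4 : ℝ) ^ m) * ‖wal (4 ^ m)‖ := by
    intro m
    refine hA8 E R ((4 : ℝ) ^ m) (wal (4 ^ m)) (one_le_pow₀ (by norm_num)) (fun k => ?_)
    rw [hR k (4 ^ m)]
    push_cast
    rfl
  choose F hF1 hF2 using hex
  have hs : ∀ m : ℕ, √((4 : ℝ) ^ m) = 2 ^ m := by
    intro m
    rw [show ((4 : ℝ) ^ m) = (2 ^ m) ^ 2 by rw [← pow_mul, mul_comm, pow_mul]; norm_num]
    exact Real.sqrt_sq (by positivity)
  have hF3 : ∀ m, ‖F m‖ ≤ 3 * 2 ^ m := by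
    intro m
    have := hF2 m
    rwa [hs m, hn, mul_one] at this
  -- the functionals
  let ws : ℕ → Y E →L[ℝ] ℝ := fun m =>
    (5 : ℝ) • (h (4 ^ m)).comp (lp.evalCLM ℝ (fun _ : ℕ => E) 1 (m + 1))
  have hws : ∀ m (G : Y E), ws m G = 5 * h (4 ^ m) (G (m + 1)) := fun m G => rfl
  have hval : ∀ l m : ℕ, (F l) (m + 1) =
      ((2 : ℝ) ^ m * (1 - (1 + (4 : ℝ) ^ l * (1 / 4 : ℝ) ^ (m + 1))⁻¹)) • wal (4 ^ l) := by
    intro l m
    rw [hF1 l (m + 1)]
    change ((2 : ℝ) ^ m • (1 - R (m + 1))) (wal (4 ^ l)) = _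
    rw [ContinuousLinearMap.smul_apply, ContinuousLinearMap.sub_apply,
      ContinuousLinearMap.one_apply, hR (m + 1) (4 ^ l), mul_smul]
    congr 1
    rw [sub_smul, one_smul]
    push_cast
    rfl
  refine ⟨fun m => ((2 : ℝ) ^ m)⁻¹ • F m, ws, ?_, ?_, ?_, ?_⟩
  · intro m
    rw [map_smul, W3_fix hA6 hD hP (F m) _ (hF1 m)]
  · intro m
    have h2 : (0 : ℝ) < 2 ^ m := by positivity
    rw [norm_smul, norm_inv, norm_pow, Real.norm_ofNat]
    calc ((2 : ℝ) ^ m)⁻¹ * ‖F m‖ ≤ ((2 : ℝ) ^ m)⁻¹ * (3 * 2 ^ m) :=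
          mul_le_mul_of_nonneg_left (hF3 m) (by positivity)
      _ = 3 := by field_simp
      _ ≤ 5 := by norm_num
  · intro m l
    rw [hws, lp.coeFn_smul, Pi.smul_apply, hval l m, map_smul, map_smul, hh2]
    by_cases hml : m = l
    · subst hml
      rw [if_pos rfl, if_pos rfl]
      have h4 : (4 : ℝ) ^ m * (1 / 4 : ℝ) ^ (m + 1) = 1 / 4 := by
        rw [pow_succ, ← mul_assoc, ← mul_pow]; norm_num
      rw [h4]
      have h2 : (2 : ℝ) ^ m ≠ 0 := by positivity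
      simp only [smul_eq_mul]
      field_simp
      norm_num
    · have h44 : ¬ (4 ^ m = 4 ^ l) := fun hc => hml (Nat.pow_right_injective (le_refl 2 |>.trans (by norm_num)) hc)
      rw [if_neg h44, if_neg hml]
      simp
  · intro G N
    calc ∑ m ∈ range N, |ws m G| ≤ ∑ m ∈ range N, 5 * ‖G (m + 1)‖ := by
          refine Finset.sum_le_sum fun m _ => ?_
          rw [hws, abs_mul, abs_of_pos (by norm_num : (0 : ℝ) < 5)]
          refine mul_le_mul_of_nonneg_left ?_ (by norm_num)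
          rw [← Real.norm_eq_abs]
          calc ‖h (4 ^ m) (G (m + 1))‖ ≤ ‖h (4 ^ m)‖ * ‖G (m + 1)‖ :=
                ContinuousLinearMap.le_opNorm _ _
            _ ≤ 1 * ‖G (m + 1)‖ := mul_le_mul_of_nonneg_right (hh1 _) (norm_nonneg _)
            _ = ‖G (m + 1)‖ := one_mul _
      _ = 5 * ∑ m ∈ range N, ‖G (m + 1)‖ := by rw [Finset.mul_sum]
      _ ≤ 5 * ‖G‖ := mul_le_mul_of_nonneg_left (W3_sum G N) (by norm_num)

end Pool.Agent.Exo
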