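import Pool.Agent.Lib.MP_935088_an.EX.Stm

set_option autoImplicit false

open MeasureTheory Filter Topology Finset

namespace Pool.Agent.Exo

theorem p_W4 (hW0 : S_W0) (hW2 : S_W2) (hW3 : S_W3) (hM8 : S_M8) (hS8 : S_S8) (hS1 : S_S1) :
    S_W4 := by
  obtain ⟨Av, R, P, hD, hPP, hPF⟩ := hW0
  obtain ⟨J, Q, hQJ⟩ := hM8
  obtain ⟨x, hx1, hx2, hx3⟩ := hW2 Av R P hD hPF
  obtain ⟨w, ws, hw1, hw2, hw3, hw4⟩ := hW3 Av R P hD hPF
  have hPP' : ∀ F, P (P F) = P F := fun F => by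
    have := congrArg (fun T : Y E →L[ℝ] Y E => T F) hPP
    exact this
  -- the projection
  let Pi : E →L[ℝ] E := J.comp (P.comp Q)
  have hPi : ∀ y, Pi y = J (P (Q y)) := fun y => rfl
  have hPiPi : ∀ y, Pi (Pi y) = Pi y := by
    intro y; rw [hPi, hPi, hQJ, hPP']
  let X : Submodule ℝ E := LinearMap.range (Pi : E →ₗ[ℝ] E)
  have hXmem : ∀ y, y ∈ X ↔ Pi y = y := by
    intro y
    constructor
    · rintro ⟨z, hz⟩
      have hz' : Pi z = y := hz
      rw [← hz', hPiPi]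
    · intro hy
      exact ⟨y, hy⟩
  have hJX : ∀ F, P F = F → J F ∈ X := by
    intro F hF
    rw [hXmem, hPi, hQJ, hF]
  have hX1 : ∀ y : X, J (Q y) = y ∧ P (Q y) = Q y := by
    intro y
    have hy := (hXmem y).1 y.2
    have h1 : Q (y : E) = P (Q y) := by
      conv_lhs => rw [← hy, hPi, hQJ]
    constructor
    · rw [h1, ← hPi, hy]
    · exact h1.symm
  have hnX : ∀ z : X, ‖z‖ = ‖(z : E)‖ := fun z => rfl
  have hCC : X.ClosedComplemented := by
    refine ⟨Pi.codRestrict X (fun y => ⟨y, rfl⟩), fun y => ?_⟩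
    apply Subtype.ext
    exact (hXmem y).1 y.2
  let S : X →L[ℝ] Y E := Q.comp X.subtypeL
  have hS : ∀ y : X, S y = Q y := fun y => rfl
  have hSn : ∀ y : X, ‖S y‖ ≤ ‖Q‖ * ‖y‖ := fun y => by
    rw [hS]; exact Q.le_opNorm y
  refine ⟨X, hCC, hCC.isClosed, ?_, ?_, ?_⟩
  · refine ⟨fun n => ⟨J (x n), hJX _ (hx1 n)⟩, 1 / (‖Q‖ + 1), ‖J‖ * 3, by positivity, ?_, ?_⟩
    · intro n
      have hq : (0 : ℝ) < ‖Q‖ + 1 := by positivity
      rw [div_le_iff₀ hq]
      have h1 : ‖x n‖ ≤ ‖Q‖ * ‖J (x n)‖ := by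
        have := Q.le_opNorm (J (x n))
        rwa [hQJ] at this
      have h2 := hx2 n
      have h3 : ‖(⟨J (x n), hJX _ (hx1 n)⟩ : X)‖ = ‖J (x n)‖ := rfl
      rw [h3]
      nlinarith [norm_nonneg (J (x n))]
    · intro s e he
      have h1 : ‖∑ n ∈ s, e n • (⟨J (x n), hJX _ (hx1 n)⟩ : X)‖ = ‖J (∑ n ∈ s, e n • x n)‖ := by
        rw [hnX, Submodule.coe_sum, map_sum]
        congr 1
        refine Finset.sum_congr rfl fun n _ => ?_
        rw [map_smul]; rfl
      rw [h1]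
      calc ‖J (∑ n ∈ s, e n • x n)‖ ≤ ‖J‖ * ‖∑ n ∈ s, e n • x n‖ := J.le_opNorm _
        _ ≤ ‖J‖ * (3 * √(s.card : ℝ)) :=
            mul_le_mul_of_nonneg_left (hx3 s e he) (norm_nonneg _)
        _ = ‖J‖ * 3 * √(s.card : ℝ) := by ring
  · refine ⟨fun m => ⟨J (w m), hJX _ (hw1 m)⟩, fun m => (ws m).comp S,
      5 * ‖J‖ + 5 * ‖Q‖, ?_, ?_, ?_⟩
    · intro m
      have h3 : ‖(⟨J (w m), hJX _ (hw1 m)⟩ : X)‖ = ‖J (w m)‖ := rfl
      rw [h3]
      have h4 := J.le_opNorm (w m)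
      have h5 := mul_le_mul_of_nonneg_left (hw2 m) (norm_nonneg J)
      have h6 := norm_nonneg Q
      linarith
    · intro m l
      change ws m (S ⟨J (w l), hJX _ (hw1 l)⟩) = _
      rw [hS]
      change ws m (Q (J (w l))) = _
      rw [hQJ, hw3]
    · intro y N
      calc ∑ m ∈ range N, |((ws m).comp S) y| = ∑ m ∈ range N, |ws m (S y)| := rfl
        _ ≤ 5 * ‖S y‖ := hw4 (S y) N
        _ ≤ 5 * (‖Q‖ * ‖y‖) := mul_le_mul_of_nonneg_left (hSn y) (by norm_num)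
        _ ≤ (5 * ‖J‖ + 5 * ‖Q‖) * ‖y‖ := by
            have := mul_nonneg (norm_nonneg J) (norm_nonneg y)
            linarith
  · intro T M hT
    have hF : Tree (fun n i => S (T n i)) (‖Q‖ * M) := by
      constructor
      · intro n i hi
        change S (T n i) = S (T (n + 1) (2 * i)) + S (T (n + 1) (2 * i + 1))
        rw [hT.split n i hi, map_add]
      · intro n
        calc ∑ i ∈ range (2 ^ n), ‖S (T n i)‖ ≤ ∑ i ∈ range (2 ^ n), ‖Q‖ * ‖T n i‖ :=
              Finset.sum_le_sum fun i _ => hSn _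
          _ = ‖Q‖ * ∑ i ∈ range (2 ^ n), ‖T n i‖ := by rw [Finset.mul_sum]
          _ ≤ ‖Q‖ * M := mul_le_mul_of_nonneg_left (hT.bdd n) (norm_nonneg _)
      · intro η hη
        have hq : (0 : ℝ) < ‖Q‖ + 1 := by positivity
        obtain ⟨n₀, hn₀⟩ := hT.small (η / (‖Q‖ + 1)) (by positivity)
        refine ⟨n₀, fun n hn i hi => ?_⟩
        have h1 := hn₀ n hn i hi
        rw [le_div_iff₀ hq] at h1
        have h2 := hSn (T n i)
        nlinarith [norm_nonneg (T n i)]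
    have hSJ : ∀ y : X, J (S y) = y := fun y => (hX1 y).1
    have hPS : ∀ y : X, P (S y) = S y := fun y => (hX1 y).2
    have hk : ∀ (y : X) (k : ℕ), (S y) k = Uo R k (∑' j, Vo R j ((S y) j)) := by
      intro y k
      conv_lhs => rw [← hPS y]
      rw [hPF]
    have h0 : ∀ y : X, (S y) 0 = ∑' j, Vo R j ((S y) j) := by
      intro y
      rw [hk y 0]; rfl
    have hlim := hS8 Av R hD (fun n i => S (T n i)) (‖Q‖ * M) hF
      (fun n i k => by rw [h0]; exact hk _ k) (fun n i => h0 _)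
    have hrad : ∀ n, rad (2 ^ n) (T n) ≤ ‖J‖ * rad (2 ^ n) (fun i => S (T n i)) := by
      intro n
      have h1 := (hS1 (Y E) (2 ^ n) (fun i => S (T n i)) (fun i => S (T n i))).2.2.2.1 E J
      have h2 : rad (2 ^ n) (T n) = rad (2 ^ n) (fun i => J (S (T n i))) := by
        unfold rad
        congr 1
        refine Finset.sum_congr rfl fun s _ => ?_
        rw [hnX, Submodule.coe_sum]
        congr 1
        refine Finset.sum_congr rfl fun i _ => ?_
        change _ = (if i ∈ s then (1 : ℝ) else -1) • J (S (T n i))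
        rw [hSJ]; rfl
      rw [h2]; exact h1
    refine squeeze_zero (fun n => (hS1 X (2 ^ n) (T n) (T n)).1) hrad ?_
    have := hlim.const_mul ‖J‖
    rwa [mul_zero] at this

end Pool.Agent.Exo
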