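import Pool.Agent.Lib.MP_935088_an.EX.Stm

namespace Pool.Agent.Exo

open MeasureTheory Filter Topology Finset

private theorem Z1_lin (δ C : ℝ) (hδ : 0 < δ) (h : ∀ N : ℕ, (N : ℝ) * δ ≤ C * √(N : ℝ)) :
    False := by
  obtain ⟨k, hk⟩ := exists_nat_gt (max (C / δ) 1)
  have hk1 : C / δ < k := lt_of_le_of_lt (le_max_left _ _) hk
  have hk2 : (1 : ℝ) < k := lt_of_le_of_lt (le_max_right _ _) hk
  have hk0 : (0 : ℝ) < k := by linarith
  have h1 := h (k * k)
  have h2 : √((k * k : ℕ) : ℝ) = k := by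
    rw [Nat.cast_mul, Real.sqrt_mul_self hk0.le]
  rw [h2] at h1
  push_cast at h1
  have h3 : C < k * δ := by
    rwa [div_lt_iff₀ hδ] at hk1
  nlinarith

private theorem Z1_sum (f : lp (fun _ : ℕ => ℝ) 1) : Summable (fun m => |f m|) := by
  have h := (lp.memℓp f).summable (by norm_num)
  simpa using h

private theorem Z1_norm (f : lp (fun _ : ℕ => ℝ) 1) : ‖f‖ = ∑' m, |f m| := by
  rw [lp.norm_eq_tsum_rpow (by norm_num)]
  simp

private theorem Z1_coord (f : lp (fun _ : ℕ => ℝ) 1) (m : ℕ) : |f m| ≤ ‖f‖ := by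
  rw [Z1_norm]
  exact (Z1_sum f).le_tsum m (fun _ _ => abs_nonneg _)

private theorem Z1_a (y : ℕ → lp (fun _ : ℕ => ℝ) 1) (C : ℝ) (h : Up2 y C) (m : ℕ) :
    Tendsto (fun n => |y n m|) atTop (𝓝 0) := by
  by_contra hc
  rw [Metric.tendsto_atTop] at hc
  push Not at hc
  obtain ⟨δ, hδ, hN⟩ := hc
  have hinf : Set.Infinite {n | δ ≤ |y n m|} := by
    rw [Set.infinite_iff_frequently_cofinite, Nat.cofinite_eq_atTop, frequently_atTop]
    intro a
    obtain ⟨b, hb, hb2⟩ := hN a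
    refine ⟨b, hb, ?_⟩
    simpa [Real.dist_eq] using hb2
  apply Z1_lin δ C hδ
  intro N
  obtain ⟨S, hS, hcard⟩ := hinf.exists_subset_card_eq N
  have h1 := h S (fun n => SignType.sign (y n m)) (fun n => by
    rcases lt_trichotomy (y n m) 0 with h | h | h
    · simp [h]
    · simp [h]
    · simp [h])
  rw [hcard] at h1
  refine le_trans ?_ h1
  refine le_trans ?_ (Z1_coord _ m)
  have h2 : (∑ n ∈ S, ((SignType.sign (y n m) : SignType) : ℝ) • y n : lp (fun _ : ℕ => ℝ) 1) m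
      = ∑ n ∈ S, |y n m| := by
    rw [lp.coeFn_sum, Finset.sum_apply]
    refine Finset.sum_congr rfl fun n _ => ?_
    rw [lp.coeFn_smul, Pi.smul_apply, smul_eq_mul, sign_mul_self]
  rw [h2]
  refine le_trans ?_ (le_abs_self _)
  have h3 : ∑ n ∈ S, δ ≤ ∑ n ∈ S, |y n m| :=
    Finset.sum_le_sum fun n hn => hS hn
  rw [Finset.sum_const, hcard, nsmul_eq_mul] at h3
  exact h3

private theorem Z1_add (u v : lp (fun _ : ℕ => ℝ) 1) (L : ℕ) (ε : ℝ)
    (hu : ∑' m, |u (m + L)| ≤ ε) (hv : ∑ m ∈ range L, |v m| ≤ ε) :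
    ‖u‖ + ‖v‖ - 4 * ε ≤ ‖u + v‖ := by
  have su := Z1_sum u
  have sv := Z1_sum v
  have suv := Z1_sum (u + v)
  have e1 : ‖u‖ = ∑ m ∈ range L, |u m| + ∑' m, |u (m + L)| := by
    rw [Z1_norm, su.sum_add_tsum_nat_add]
  have e2 : ‖v‖ = ∑ m ∈ range L, |v m| + ∑' m, |v (m + L)| := by
    rw [Z1_norm, sv.sum_add_tsum_nat_add]
  have e3 : ‖u + v‖ = ∑ m ∈ range L, |(u + v) m| + ∑' m, |(u + v) (m + L)| := by
    rw [Z1_norm, suv.sum_add_tsum_nat_add]
  have su' := (summable_nat_add_iff L).2 su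
  have sv' := (summable_nat_add_iff L).2 sv
  have suv' := (summable_nat_add_iff L).2 suv
  have h1 : ∑ m ∈ range L, |u m| - ∑ m ∈ range L, |v m| ≤ ∑ m ∈ range L, |(u + v) m| := by
    rw [← Finset.sum_sub_distrib]
    refine Finset.sum_le_sum fun m _ => ?_
    have : (u + v : lp (fun _ : ℕ => ℝ) 1) m = u m + v m := rfl
    rw [this]
    have := abs_sub_abs_le_abs_sub (u m) (-(v m))
    rw [abs_neg, sub_neg_eq_add] at this
    exact this
  have h2 : ∑' m, |v (m + L)| - ∑' m, |u (m + L)| ≤ ∑' m, |(u + v) (m + L)| := by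
    rw [← sv'.tsum_sub su']
    refine (sv'.sub su').tsum_le_tsum (fun m => ?_) suv'
    have : (u + v : lp (fun _ : ℕ => ℝ) 1) (m + L) = u (m + L) + v (m + L) := rfl
    rw [this]
    have := abs_sub_abs_le_abs_sub (v (m + L)) (-(u (m + L)))
    rw [abs_neg, sub_neg_eq_add, add_comm (v (m + L))] at this
    exact this
  rw [e1, e2, e3]
  linarith

theorem p_Z1 : S_Z1 := by
  intro y C h
  by_contra hc
  rw [Metric.tendsto_atTop] at hc
  push Not at hc
  obtain ⟨δ, hδ, hN⟩ := hc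
  have key : ∀ N : ℕ, ∃ S : Finset ℕ, S.card = N ∧ (N : ℝ) * (δ / 2) ≤ ‖∑ n ∈ S, y n‖ := by
    intro N
    induction N with
    | zero => exact ⟨∅, by simp, by simp⟩
    | succ N ih =>
      obtain ⟨S, hS, hS2⟩ := ih
      set u : lp (fun _ : ℕ => ℝ) 1 := ∑ n ∈ S, y n with hu
      have t1 : Tendsto (fun L => ∑' m, |u (m + L)|) atTop (𝓝 0) :=
        tendsto_sum_nat_add (fun m => |u m|)
      obtain ⟨L, hL⟩ := (t1.eventually (gt_mem_nhds (show (0 : ℝ) < δ / 8 by positivity))).exists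
      have t2 : Tendsto (fun n => ∑ m ∈ range L, |y n m|) atTop (𝓝 0) := by
        have := tendsto_finsetSum (range L) (fun m _ => Z1_a y C h m)
        simpa using this
      have t3 := t2.eventually (gt_mem_nhds (show (0 : ℝ) < δ / 8 by positivity))
      rw [eventually_atTop] at t3
      obtain ⟨n0, hn0⟩ := t3
      obtain ⟨n, hn, hn2⟩ := hN (max n0 (S.sup id + 1))
      have hnS : n ∉ S := by
        intro hmem
        have h1 : n ≤ S.sup id := Finset.le_sup (f := id) hmem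
        have h2 := le_trans (le_max_right n0 (S.sup id + 1)) hn
        omega
      have h3 := hn0 n (le_trans (le_max_left _ _) hn)
      have h4 := Z1_add u (y n) L (δ / 8) hL.le h3.le
      refine ⟨insert n S, by rw [card_insert_of_notMem hnS, hS], ?_⟩
      rw [sum_insert hnS, add_comm (y n)]
      have h5 : δ ≤ ‖y n‖ := by
        simpa [Real.dist_eq] using hn2
      push_cast
      rw [← hu]
      linarith
  apply Z1_lin (δ / 2) C (by positivity)
  intro N
  obtain ⟨S, hS, hS2⟩ := key N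
  have h1 := h S (fun _ => 1) (by simp)
  rw [hS] at h1
  simp only [one_smul] at h1
  exact hS2.trans h1

end Pool.Agent.Exo
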