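import Pool.Agent.Lib.MP_935088_an.EX.Stm

set_option autoImplicit false

open MeasureTheory Filter Topology Finset

namespace Pool.Agent.Exo

private theorem Z3_zero (hM1 : S_M1) (n : ℕ) : cylL n (fun _ => 0) = 0 := by
  have h := hM1.2.1 n 0 (fun _ => 0)
  simpa using h

private theorem Z3_sum (hM1 : S_M1) (n m : ℕ) (h : ℕ → ℕ → ℝ) :
    cylL n (fun x => ∑ j ∈ range m, h j x) = ∑ j ∈ range m, cylL n (h j) := by
  induction m with
  | zero => simpa using Z3_zero hM1 n
  | succ m ih =>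
    simp_rw [sum_range_succ]
    rw [hM1.1 n (fun x => ∑ j ∈ range m, h j x) (h m), ih]

private theorem Z3_raise (hM1 : S_M1) (n m : ℕ) (f : ℕ → ℝ) :
    cylL (n + m) (fun x => f (x / 2 ^ m)) = cylL n f := by
  induction m generalizing f with
  | zero => simp
  | succ m ih =>
    have h := hM1.2.2.2.2 (n + m) (fun x => f (x / 2 ^ m))
    rw [ih] at h
    rw [← h, ← add_assoc]
    congr 1
    funext x
    rw [pow_succ, mul_comm (2 ^ m) 2, Nat.div_div_eq_div_mul]

private theorem Z3_split (m : ℕ) (g : ℕ → ℝ) :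
    ∑ x ∈ range (2 * m), g x = ∑ y ∈ range m, (g (2 * y) + g (2 * y + 1)) := by
  induction m with
  | zero => simp
  | succ m ih =>
    rw [sum_range_succ, ← ih, mul_add, mul_one, sum_range_succ, sum_range_succ, add_assoc]

private theorem Z3_ip (e : ℕ → ℝ) (N : ℕ) :
    ∑ x ∈ range (2 ^ N), (∑ n ∈ range N, e n * (-1 : ℝ) ^ (x / 2 ^ (N - 1 - n))) ^ 2 =
      2 ^ N * ∑ n ∈ range N, e n ^ 2 := by
  induction N with
  | zero => simp
  | succ N ih =>
    have h2 : 2 ^ (N + 1) = 2 * 2 ^ N := by ring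
    rw [h2, Z3_split]
    have h3 : ∀ y : ℕ, ∀ b : ℕ, b < 2 →
        ∑ n ∈ range (N + 1), e n * (-1 : ℝ) ^ ((2 * y + b) / 2 ^ (N + 1 - 1 - n)) =
        ∑ n ∈ range N, e n * (-1 : ℝ) ^ (y / 2 ^ (N - 1 - n)) + e N * (-1) ^ b := by
      intro y b hb
      rw [sum_range_succ]
      congr 1
      · refine sum_congr rfl fun n hn => ?_
        rw [mem_range] at hn
        have h4 : N + 1 - 1 - n = (N - 1 - n) + 1 := by omega
        rw [h4, pow_succ, mul_comm (2 ^ (N - 1 - n)) 2, ← Nat.div_div_eq_div_mul]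
        have h5 : (2 * y + b) / 2 = y := by omega
        rw [h5]
      · rw [show N + 1 - 1 - N = 0 by omega, pow_zero, Nat.div_one, pow_add, pow_mul]
        norm_num
    have h6 : ∀ y ∈ range (2 ^ N),
        (∑ n ∈ range (N + 1), e n * (-1 : ℝ) ^ ((2 * y) / 2 ^ (N + 1 - 1 - n))) ^ 2 +
        (∑ n ∈ range (N + 1), e n * (-1 : ℝ) ^ ((2 * y + 1) / 2 ^ (N + 1 - 1 - n))) ^ 2 =
        2 * (∑ n ∈ range N, e n * (-1 : ℝ) ^ (y / 2 ^ (N - 1 - n))) ^ 2 + 2 * e N ^ 2 := by
      intro y _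
      have h7 := h3 y 0 (by norm_num)
      have h8 := h3 y 1 (by norm_num)
      rw [add_zero] at h7
      rw [h7, h8]
      ring
    rw [sum_congr rfl h6, sum_add_distrib, ← mul_sum, ih, sum_const, card_range, nsmul_eq_mul,
      sum_range_succ]
    push_cast
    ring

private theorem Z3_norm (hM1 : S_M1) (N : ℕ) (e : ℕ → ℝ) :
    ‖∑ n ∈ range N, e n • rdm n‖ ≤ √(∑ n ∈ range N, e n ^ 2) := by
  have h1 : ∑ n ∈ range N, e n • rdm n =
      cylL N (fun x => ∑ n ∈ range N, e n * (-1 : ℝ) ^ (x / 2 ^ (N - 1 - n))) := by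
    rw [Z3_sum hM1 N N (fun n x => e n * (-1 : ℝ) ^ (x / 2 ^ (N - 1 - n)))]
    refine sum_congr rfl fun n hn => ?_
    rw [mem_range] at hn
    rw [hM1.2.1]
    congr 1
    have h2 := Z3_raise hM1 (n + 1) (N - 1 - n) (fun x => (-1 : ℝ) ^ x)
    rw [show n + 1 + (N - 1 - n) = N by omega] at h2
    exact h2.symm
  rw [h1, hM1.2.2.1]
  apply Real.le_sqrt_of_sq_le
  unfold l1
  have hp : (0 : ℝ) < 2 ^ N := by positivity
  rw [div_pow, div_le_iff₀ (by positivity)]
  have h3 := sq_sum_le_card_mul_sum_sq (s := range (2 ^ N))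
    (f := fun x => |∑ n ∈ range N, e n * (-1 : ℝ) ^ (x / 2 ^ (N - 1 - n))|)
  simp only [sq_abs, card_range] at h3
  rw [Z3_ip] at h3
  push_cast at h3
  linarith

private theorem Z3_even (j x : ℕ) (hj : 1 ≤ j) : (-1 : ℝ) ^ (x ^^^ 2 ^ j) = (-1) ^ x := by
  rw [neg_one_pow_eq_pow_mod_two, neg_one_pow_eq_pow_mod_two (n := x)]
  have h := Nat.xor_mod_two_pow (a := x) (b := 2 ^ j) (n := 1)
  rw [pow_one] at h
  rw [h]
  have h2 : 2 ^ j % 2 = 0 := by
    obtain ⟨i, rfl⟩ : ∃ i, j = i + 1 := ⟨j - 1, by omega⟩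
    rw [pow_succ]; omega
  rw [h2, Nat.xor_zero]

private theorem Z3_odd (x : ℕ) : (-1 : ℝ) ^ (x ^^^ 1) = -(-1) ^ x := by
  rw [neg_one_pow_eq_pow_mod_two, neg_one_pow_eq_pow_mod_two (n := x)]
  have h := Nat.xor_mod_two_pow (a := x) (b := 1) (n := 1)
  rw [pow_one] at h
  rw [h]
  rcases Nat.mod_two_eq_zero_or_one x with h0 | h0 <;> rw [h0] <;> norm_num

theorem p_Z3 (hM1 : S_M1) : S_Z3 := by
  refine ⟨fun n => ?_, ?_, ?_⟩
  · unfold rdm
    rw [hM1.2.2.1]
    unfold l1
    have h1 : ∀ x ∈ range (2 ^ (n + 1)), |(-1 : ℝ) ^ x| = 1 := by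
      intro x _; rw [abs_pow, abs_neg, abs_one, one_pow]
    rw [sum_congr rfl h1]
    simp
  · intro S e he
    obtain ⟨N, hN⟩ : ∃ N, S ⊆ range N := ⟨S.sup id + 1, fun n hn => by
      rw [mem_range, Nat.lt_succ_iff]; exact le_sup (f := id) hn⟩
    have h1 : ∑ n ∈ S, e n • rdm n = ∑ n ∈ range N, (if n ∈ S then e n else 0) • rdm n := by
      rw [← sum_subset hN]
      · exact sum_congr rfl fun n hn => by rw [if_pos hn]
      · intro n _ hn
        rw [if_neg hn, zero_smul]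
    rw [h1, one_mul]
    refine (Z3_norm hM1 N _).trans (Real.sqrt_le_sqrt ?_)
    have h2 : ∑ n ∈ range N, (if n ∈ S then e n else 0) ^ 2 = ∑ n ∈ S, e n ^ 2 := by
      rw [← sum_subset hN]
      · exact sum_congr rfl fun n hn => by rw [if_pos hn]
      · intro n _ hn
        rw [if_neg hn]; norm_num
    rw [h2]
    calc ∑ n ∈ S, e n ^ 2 ≤ ∑ n ∈ S, (1 : ℝ) := sum_le_sum fun n _ => by
          rw [← sq_abs]
          exact pow_le_one₀ (abs_nonneg _) (he n)
      _ = S.card := by simp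
  · intro Av R hD k n
    have hA : ∀ i, i ≠ n → Av i (rdm n) = rdm n := by
      intro i hi
      rcases lt_or_gt_of_ne hi with h | h
      · unfold rdm
        rw [hD.cyl1 i (n + 1) _ (by omega)]
        congr 1
        funext x
        unfold avg
        beta_reduce
        rw [Z3_even (n + 1 - 1 - i) x (by omega)]
        ring
      · exact hD.cyl2 i (n + 1) _ (by omega)
    have hA0 : Av n (rdm n) = 0 := by
      unfold rdm
      rw [hD.cyl1 n (n + 1) _ (by omega), ← Z3_zero hM1 (n + 1)]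
      congr 1
      funext x
      unfold avg
      beta_reduce
      rw [show n + 1 - 1 - n = 0 by omega, pow_zero, Z3_odd]
      ring
    have hloc := hD.res.loc k (n + 1) (rdm n) (fun i hi => hA i (by omega))
    have hc : ∀ i, Av i (R k (rdm n)) = R k (Av i (rdm n)) := by
      intro i
      have := congrArg (fun T : E →L[ℝ] E => T (rdm n)) (hD.res.comm k i)
      exact this.symm
    have hsum : ∑ i ∈ range (n + 1), (R k (rdm n) - Av i (R k (rdm n))) = R k (rdm n) := by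
      rw [sum_range_succ, hc n, hA0, map_zero, sub_zero, add_eq_right]
      refine sum_eq_zero fun i hi => ?_
      rw [mem_range] at hi
      rw [hc i, hA i (by omega), sub_self]
    rw [hsum] at hloc
    have h4 : (0 : ℝ) < (1 / 4) ^ k := by positivity
    have h5 : (1 + 1 * (1 / 4 : ℝ) ^ k) • R k (rdm n) = rdm n := by
      rw [one_mul, add_smul, one_smul]; exact hloc
    rw [← h5, smul_smul, inv_mul_cancel₀ (by positivity), one_smul, h5]

end Pool.Agent.Exo
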