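import Pool.Agent.Lib.MP_935088_an.EX.Stm

/-! Z4: a diffuse set gives a tree. -/

open MeasureTheory Filter Topology Finset

namespace Pool.Agent.Exo

private theorem Z4_sub {Ω : Type} [MeasurableSpace Ω] {μ : Measure Ω} {B C : Set Ω}
    (hB : Diffuse μ B) (hCB : C ⊆ B) (hC : MeasurableSet C) (h0 : 0 < μ C) : Diffuse μ C :=
  ⟨hC, h0, lt_of_le_of_lt (measure_mono hCB) hB.2.2.1,
    fun D hD hDm hD0 => hB.2.2.2 D (hD.trans hCB) hDm hD0⟩

private theorem Z4_divide (hZ2 : S_Z2) {Ω : Type} [MeasurableSpace Ω] {μ : Measure Ω}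
    {B : Set Ω} (hB : Diffuse μ B) :
    ∃ C C' : Set Ω, Diffuse μ C ∧ Diffuse μ C' ∧ B = C ∪ C' ∧ Disjoint C C' ∧
      (μ C).toReal ≤ 2 / 3 * (μ B).toReal ∧ (μ C').toReal ≤ 2 / 3 * (μ B).toReal := by
  obtain ⟨C, hCB, hC, h1, h2⟩ := hZ2 Ω _ μ B hB
  have hB0 : 0 < (μ B).toReal := ENNReal.toReal_pos hB.2.1.ne' hB.2.2.1.ne
  have hCf : μ C ≠ ⊤ := (lt_of_le_of_lt (measure_mono hCB) hB.2.2.1).ne
  have hd : (μ (B \ C)).toReal = (μ B).toReal - (μ C).toReal := by
    rw [measure_sdiff hCB hC.nullMeasurableSet hCf,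
      ENNReal.toReal_sub_of_le (measure_mono hCB) hB.2.2.1.ne]
  have hC0 : 0 < (μ C).toReal := by linarith
  have hD0 : 0 < (μ (B \ C)).toReal := by rw [hd]; linarith
  refine ⟨C, B \ C, Z4_sub hB hCB hC (ENNReal.toReal_pos_iff.1 hC0).1,
    Z4_sub hB Set.sdiff_subset (hB.1.diff hC) (ENNReal.toReal_pos_iff.1 hD0).1,
    (Set.union_sdiff_cancel hCB).symm, Set.disjoint_sdiff_right, by linarith, ?_⟩
  rw [hd]
  linarith

private theorem Z4_range (g : ℕ → ℝ) (N : ℕ) :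
    ∑ j ∈ range (2 * N), g j = ∑ i ∈ range N, (g (2 * i) + g (2 * i + 1)) := by
  induction N with
  | zero => simp
  | succ N ih =>
    rw [show 2 * (N + 1) = 2 * N + 1 + 1 by ring, sum_range_succ, sum_range_succ, ih,
      sum_range_succ]
    ring

private theorem Z4_split {Ω : Type} [MeasurableSpace Ω] {μ : Measure Ω} {B C C' : Set Ω}
    (hB : MeasurableSet B) (hC : MeasurableSet C) (hC' : MeasurableSet C') (fB : μ B ≠ ⊤)
    (fC : μ C ≠ ⊤) (fC' : μ C' ≠ ⊤) (h : B = C ∪ C') (hd : Disjoint C C') :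
    indicatorConstLp 1 hB fB (1 : ℝ) =
      indicatorConstLp 1 hC fC (1 : ℝ) + indicatorConstLp 1 hC' fC' (1 : ℝ) := by
  subst h
  exact indicatorConstLp_disjoint_union hC hC' fC fC' hd 1

private theorem Z4_signs {Ω : Type} (a : ℕ → ℕ → Set Ω)
    (hu : ∀ n i, a n i = a (n + 1) (2 * i) ∪ a (n + 1) (2 * i + 1))
    (hd : ∀ n i, Disjoint (a (n + 1) (2 * i)) (a (n + 1) (2 * i + 1))) (t : Ω) :
    ∀ (n : ℕ) (s : ℕ → ℝ), (∀ i, |s i| = 1) →
      |∑ i ∈ range (2 ^ n), s i * (a n i).indicator (fun _ => (1 : ℝ)) t| =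
        (a 0 0).indicator (fun _ => (1 : ℝ)) t := by
  classical
  intro n
  induction n with
  | zero =>
    intro s hs
    rw [pow_zero, sum_range_one, abs_mul, hs, one_mul]
    exact abs_of_nonneg (Set.indicator_nonneg (fun _ _ => zero_le_one) _)
  | succ n ih =>
    intro s hs
    rw [← ih (fun i => if t ∈ a (n + 1) (2 * i) then s (2 * i) else s (2 * i + 1))
      (fun i => by split_ifs <;> exact hs _)]
    rw [show 2 ^ (n + 1) = 2 * 2 ^ n by ring, Z4_range]
    congr 1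
    refine sum_congr rfl fun i _ => ?_
    rw [hu n i, Set.indicator_union_of_disjoint (hd n i)]
    by_cases h1 : t ∈ a (n + 1) (2 * i)
    · have h2 : t ∉ a (n + 1) (2 * i + 1) := Set.disjoint_left.1 (hd n i) h1
      simp [h1, h2]
    · simp [h1]

theorem p_Z4 (hZ2 : S_Z2) : S_Z4 := by
  classical
  intro Ω mΩ μ A hA
  -- the dividing function
  choose f g hf hg hu hd h1 h2 using fun B : {B : Set Ω // Diffuse μ B} => Z4_divide hZ2 B.2
  let a : ℕ → ℕ → {B : Set Ω // Diffuse μ B} := fun n => Nat.rec (fun _ => ⟨A, hA⟩)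
    (fun _ a' j => if j % 2 = 0 then ⟨f (a' (j / 2)), hf _⟩ else ⟨g (a' (j / 2)), hg _⟩) n
  have a0 : ∀ i, a 0 i = ⟨A, hA⟩ := fun i => rfl
  have ae : ∀ n i, a (n + 1) (2 * i) = ⟨f (a n i), hf _⟩ := by
    intro n i
    have : a (n + 1) (2 * i) = if (2 * i) % 2 = 0 then ⟨f (a n (2 * i / 2)), hf _⟩
      else ⟨g (a n (2 * i / 2)), hg _⟩ := rfl
    rw [this, if_pos (by omega)]
    have h : 2 * i / 2 = i := by omega
    simp only [h]
  have ao : ∀ n i, a (n + 1) (2 * i + 1) = ⟨g (a n i), hg _⟩ := by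
    intro n i
    have : a (n + 1) (2 * i + 1) = if (2 * i + 1) % 2 = 0 then
      ⟨f (a n ((2 * i + 1) / 2)), hf _⟩ else ⟨g (a n ((2 * i + 1) / 2)), hg _⟩ := rfl
    rw [this, if_neg (by omega)]
    have h : (2 * i + 1) / 2 = i := by omega
    simp only [h]
  have hU : ∀ n i, (a n i).1 = (a (n + 1) (2 * i)).1 ∪ (a (n + 1) (2 * i + 1)).1 := by
    intro n i
    rw [ae, ao]
    exact hu _
  have hD : ∀ n i, Disjoint (a (n + 1) (2 * i)).1 (a (n + 1) (2 * i + 1)).1 := by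
    intro n i
    rw [ae, ao]
    exact hd _
  have hsm : ∀ n i, (μ (a n i).1).toReal ≤ (2 / 3) ^ n * (μ A).toReal := by
    intro n
    induction n with
    | zero => intro i; rw [a0]; simp
    | succ n ih =>
      intro j
      have key : ∀ i, (μ (a (n + 1) (2 * i)).1).toReal ≤ (2 / 3) ^ (n + 1) * (μ A).toReal ∧
          (μ (a (n + 1) (2 * i + 1)).1).toReal ≤ (2 / 3) ^ (n + 1) * (μ A).toReal := by
        intro i
        have := ih i
        rw [ae, ao, pow_succ]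
        constructor
        · have := h1 (a n i); simp only; linarith
        · have := h2 (a n i); simp only; linarith
      rcases Nat.even_or_odd' j with ⟨i, rfl | rfl⟩
      · exact (key i).1
      · exact (key i).2
  have hms : ∀ n i, MeasurableSet (a n i).1 := fun n i => (a n i).2.1
  have hfi : ∀ n i, μ (a n i).1 ≠ ⊤ := fun n i => (a n i).2.2.2.1.ne
  have hA0 : 0 < (μ A).toReal := ENNReal.toReal_pos hA.2.1.ne' hA.2.2.1.ne
  set c : ℝ := ((μ A).toReal)⁻¹ with hc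
  have hc0 : 0 < c := inv_pos.2 hA0
  have hcA : c * (μ A).toReal = 1 := inv_mul_cancel₀ hA0.ne'
  let I : ℕ → ℕ → Lp ℝ 1 μ := fun n i => indicatorConstLp 1 (hms n i) (hfi n i) (1 : ℝ)
  let T : ℕ → ℕ → Lp ℝ 1 μ := fun n i => c • I n i
  have hI : ∀ n i, ‖I n i‖ = (μ (a n i).1).toReal := by
    intro n i
    simp only [I]
    rw [norm_indicatorConstLp one_ne_zero ENNReal.one_ne_top]
    simp [measureReal_def]
  have hT : ∀ n i, ‖T n i‖ = c * (μ (a n i).1).toReal := by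
    intro n i
    simp only [T]
    rw [norm_smul, hI, Real.norm_of_nonneg hc0.le]
  have h00 : ‖T 0 0‖ = 1 := (hT 0 0).trans hcA
  have hsp : ∀ n i, T n i = T (n + 1) (2 * i) + T (n + 1) (2 * i + 1) := by
    intro n i
    simp only [T, I]
    rw [← smul_add]
    congr 1
    exact Z4_split _ _ _ _ _ _ (hU n i) (hD n i)
  have hsum : ∀ n, ∑ i ∈ range (2 ^ n), ‖T n i‖ = 1 := by
    intro n
    induction n with
    | zero =>
      rw [pow_zero, sum_range_one]
      exact h00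
    | succ n ih =>
      rw [← ih, show 2 ^ (n + 1) = 2 * 2 ^ n by ring, Z4_range]
      refine sum_congr rfl fun i _ => ?_
      refine (congrArg₂ (· + ·) (hT (n + 1) (2 * i)) (hT (n + 1) (2 * i + 1))).trans
        (Eq.trans ?_ (hT n i).symm)
      rw [← mul_add]
      congr 1
      rw [hU n i, measure_union (hD n i) (hms (n + 1) (2 * i + 1)),
        ENNReal.toReal_add (hfi (n + 1) (2 * i)) (hfi (n + 1) (2 * i + 1))]
  refine ⟨T, ⟨fun n i _ => hsp n i, fun n => (hsum n).le, ?_⟩, ?_⟩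
  · intro η hη
    obtain ⟨n₀, hn₀⟩ := exists_pow_lt_of_lt_one hη (show (2 / 3 : ℝ) < 1 by norm_num)
    refine ⟨n₀, fun n hn i _ => ?_⟩
    rw [hT]
    calc c * (μ (a n i).1).toReal ≤ c * ((2 / 3) ^ n * (μ A).toReal) :=
          mul_le_mul_of_nonneg_left (hsm n i) hc0.le
      _ = (2 / 3) ^ n := by rw [mul_left_comm, hcA, mul_one]
      _ ≤ (2 / 3) ^ n₀ := pow_le_pow_of_le_one (by norm_num) (by norm_num) hn
      _ ≤ η := hn₀.le
  · intro n S
    -- pointwise
    have hI' : ∀ i, I n i =ᵐ[μ] (a n i).1.indicator fun _ => (1 : ℝ) := fun i =>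
      indicatorConstLp_coeFn
    have hI0 : I 0 0 =ᵐ[μ] (a 0 0).1.indicator fun _ => (1 : ℝ) := indicatorConstLp_coeFn
    let s : ℕ → ℝ := fun i => if i ∈ S then (1 : ℝ) else -1
    have hs : ∀ i, |s i| = 1 := by
      intro i
      simp only [s]
      split_ifs <;> simp
    have hF : (∑ i ∈ range (2 ^ n), s i • T n i : Lp ℝ 1 μ) =
        c • ∑ i ∈ range (2 ^ n), s i • I n i := by
      rw [smul_sum]
      refine sum_congr rfl fun i _ => ?_
      simp only [T]
      rw [smul_comm]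
    have hG : ⇑(∑ i ∈ range (2 ^ n), s i • I n i : Lp ℝ 1 μ) =ᵐ[μ]
        fun t => ∑ i ∈ range (2 ^ n), s i * (a n i).1.indicator (fun _ => (1 : ℝ)) t := by
      have h3 : ∀ᵐ t ∂μ, ∀ i, (s i • I n i : Lp ℝ 1 μ) t =
          s i * (a n i).1.indicator (fun _ => (1 : ℝ)) t := by
        rw [ae_all_iff]
        intro i
        filter_upwards [Lp.coeFn_smul (s i) (I n i), hI' i] with t ht1 ht2
        rw [ht1, Pi.smul_apply, ht2, smul_eq_mul]
      filter_upwards [h3, Lp.coeFn_finsetSum (range (2 ^ n)) (fun i => s i • I n i)]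
        with t ht1 ht2
      rw [ht2]
      rw [Finset.sum_apply]
      exact sum_congr rfl fun i _ => ht1 i
    have hab : ∀ᵐ t ∂μ, ‖(∑ i ∈ range (2 ^ n), s i • I n i : Lp ℝ 1 μ) t‖ = ‖I 0 0 t‖ := by
      filter_upwards [hG, hI0] with t ht1 ht2
      rw [ht1, ht2, Real.norm_eq_abs, Z4_signs (fun n i => (a n i).1) hU hD t n s hs,
        Real.norm_of_nonneg (Set.indicator_nonneg (fun _ _ => zero_le_one) _)]
    have hn : ‖(∑ i ∈ range (2 ^ n), s i • I n i : Lp ℝ 1 μ)‖ = ‖I 0 0‖ :=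
      le_antisymm (Lp.norm_le_norm_of_ae_le (hab.mono fun t ht => ht.le))
        (Lp.norm_le_norm_of_ae_le (hab.mono fun t ht => ht.ge))
    have hfin : ‖(∑ i ∈ range (2 ^ n), s i • T n i : Lp ℝ 1 μ)‖ = ‖T 0 0‖ := by
      rw [hF, norm_smul, hn]
      simp only [T]
      rw [norm_smul]
    exact hfin.trans h00

end Pool.Agent.Exo
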