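import Pool.Agent.Lib.MP_935088_an.EX.Stm

/-! Piece [EX Z5]: without diffuse sets, countably many elements of `L₁(μ)` live on countably
many atoms. -/

open MeasureTheory Filter Topology Finset

namespace Pool.Agent.Exo

private theorem Z5_atom {Ω : Type} [MeasurableSpace Ω] {μ : Measure Ω}
    (hnd : ∀ A, ¬ Diffuse μ A) {B : Set Ω} (hB : MeasurableSet B) (h0 : 0 < μ B)
    (hf : μ B < ⊤) : ∃ B' ⊆ B, Atm μ B' := by
  by_contra hcon
  push Not at hcon
  refine hnd B ⟨hB, h0, hf, fun B' hB' hm hp => ?_⟩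
  by_contra hC
  push Not at hC
  refine hcon B' hB' ⟨hm, hp, (measure_mono hB').trans_lt hf, fun C hC' hCm => ?_⟩
  rcases eq_or_ne (μ C) 0 with h | h
  · exact Or.inl h
  · exact Or.inr (le_antisymm (measure_mono hC') (hC C hC' hCm (pos_iff_ne_zero.mpr h)))

/-- the supremum of the measures of the atoms contained in `R` -/
private noncomputable def Z5_s {Ω : Type} [MeasurableSpace Ω] (μ : Measure Ω) (R : Set Ω) :
    ENNReal := ⨆ (B : Set Ω) (_ : B ⊆ R ∧ Atm μ B), μ B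

private theorem Z5_choose {Ω : Type} [MeasurableSpace Ω] (μ : Measure Ω) (R : Set Ω)
    (hR : μ R < ⊤) : ∃ B ⊆ R, (B = ∅ ∨ Atm μ B) ∧ Z5_s μ R ≤ 2 * μ B := by
  rcases eq_or_ne (Z5_s μ R) 0 with h | h
  · exact ⟨∅, Set.empty_subset _, Or.inl rfl, by rw [h]; exact zero_le⟩
  · have hle : Z5_s μ R ≤ μ R := iSup₂_le fun B hB => measure_mono hB.1
    have hfin : Z5_s μ R ≠ ⊤ := (hle.trans_lt hR).ne
    have hlt : Z5_s μ R / 2 < Z5_s μ R := ENNReal.half_lt_self h hfin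
    obtain ⟨B, hB⟩ := lt_iSup_iff.mp hlt
    obtain ⟨hB1, hB2⟩ := lt_iSup_iff.mp hB
    refine ⟨B, hB1.1, Or.inr hB1.2, ?_⟩
    have h2 : Z5_s μ R = 2 * (Z5_s μ R / 2) := by
      rw [mul_comm, ENNReal.div_mul_cancel (by norm_num) (by norm_num)]
    rw [h2]
    exact mul_le_mul_right hB2.le 2

private theorem Z5_exh {Ω : Type} [MeasurableSpace Ω] {μ : Measure Ω}
    (hnd : ∀ A, ¬ Diffuse μ A) {D : Set Ω} (hD : MeasurableSet D) (hf : μ D < ⊤) :
    ∃ a : ℕ → Set Ω, (∀ i, a i = ∅ ∨ Atm μ (a i)) ∧ (∀ i, a i ⊆ D) ∧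
      (∀ i j, i ≠ j → Disjoint (a i) (a j)) ∧ μ (D \ ⋃ i, a i) = 0 := by
  classical
  have hch : ∀ R : Set Ω, ∃ B ⊆ R, (B = ∅ ∨ Atm μ B) ∧ (μ R < ⊤ → Z5_s μ R ≤ 2 * μ B) := by
    intro R
    by_cases h : μ R < ⊤
    · obtain ⟨B, h1, h2, h3⟩ := Z5_choose μ R h
      exact ⟨B, h1, h2, fun _ => h3⟩
    · exact ⟨∅, Set.empty_subset _, Or.inl rfl, fun h' => absurd h' h⟩
  choose F hF1 hF2 hF3 using hch
  let R : ℕ → Set Ω := fun n => Nat.rec D (fun _ X => X \ F X) n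
  have hR0 : R 0 = D := rfl
  have hRs : ∀ n, R (n + 1) = R n \ F (R n) := fun n => rfl
  let a : ℕ → Set Ω := fun n => F (R n)
  have ha : ∀ n, a n = F (R n) := fun n => rfl
  have hanti : Antitone R := antitone_nat_of_succ_le fun n => by
    rw [hRs]; exact Set.sdiff_subset
  have hRD : ∀ n, R n ⊆ D := fun n => hanti (Nat.zero_le n)
  have haR : ∀ n, a n ⊆ R n := fun n => hF1 (R n)
  have haD : ∀ n, a n ⊆ D := fun n => (haR n).trans (hRD n)
  have hdis' : ∀ i j, i < j → Disjoint (a i) (a j) := by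
    intro i j hij
    have h1 : a j ⊆ R (i + 1) := (haR j).trans (hanti hij)
    rw [hRs] at h1
    exact (Set.disjoint_sdiff_right).mono_right h1
  have hdis : ∀ i j, i ≠ j → Disjoint (a i) (a j) := by
    intro i j hij
    rcases lt_or_gt_of_ne hij with h | h
    · exact hdis' i j h
    · exact (hdis' j i h).symm
  have ham : ∀ i, MeasurableSet (a i) := by
    intro i
    rcases hF2 (R i) with h | h
    · rw [ha, h]; exact MeasurableSet.empty
    · exact h.1
  have hsum : ∑' i, μ (a i) ≠ ⊤ := by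
    rw [← measure_iUnion (fun i j hij => hdis i j hij) ham]
    exact ((measure_mono (Set.iUnion_subset haD)).trans_lt hf).ne
  have htend : Tendsto (fun i => μ (a i)) atTop (𝓝 0) :=
    ENNReal.tendsto_atTop_zero_of_tsum_ne_top hsum
  refine ⟨a, fun i => hF2 (R i), haD, hdis, ?_⟩
  by_contra hne
  have hm : MeasurableSet (D \ ⋃ i, a i) := hD.diff (MeasurableSet.iUnion ham)
  obtain ⟨B, hB1, hB2⟩ := Z5_atom hnd hm (pos_iff_ne_zero.mpr hne)
    ((measure_mono Set.sdiff_subset).trans_lt hf)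
  have hBR : ∀ n, B ⊆ R n := by
    intro n
    induction n with
    | zero => exact hB1.trans Set.sdiff_subset
    | succ n ih =>
      rw [hRs]
      intro t ht
      refine ⟨ih ht, fun h => (hB1 ht).2 (Set.mem_iUnion.mpr ⟨n, h⟩)⟩
  have hle : ∀ n, μ B ≤ 2 * μ (a n) := by
    intro n
    have h1 : μ B ≤ Z5_s μ (R n) := le_iSup₂_of_le B ⟨hBR n, hB2⟩ le_rfl
    exact h1.trans (hF3 (R n) ((measure_mono (hRD n)).trans_lt hf))
  have ht2 : Tendsto (fun i => 2 * μ (a i)) atTop (𝓝 (2 * 0)) :=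
    ENNReal.Tendsto.const_mul htend (Or.inr (by norm_num))
  rw [mul_zero] at ht2
  have hB0 : μ B ≤ 0 := ge_of_tendsto' ht2 hle
  exact (hB2.2.1).not_ge hB0

theorem p_Z5 : S_Z5 := by
  intro Ω _ μ hnd y
  -- the sets of finite measure
  let G : ℕ → Set Ω := fun m =>
    {t | (1 : ℝ) / ((m.unpair.2 : ℝ) + 1) ≤ ‖(y m.unpair.1 : Ω → ℝ) t‖}
  have hGm : ∀ m, MeasurableSet (G m) := fun m =>
    measurableSet_le measurable_const (Lp.stronglyMeasurable (y m.unpair.1)).measurable.norm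
  have hGf : ∀ m, μ (G m) < ⊤ := fun m =>
    (L1.integrable_coeFn (y m.unpair.1)).measure_norm_ge_lt_top (by positivity)
  have hDm : ∀ m, MeasurableSet (disjointed G m) := fun m =>
    MeasurableSet.disjointed hGm m
  have hDf : ∀ m, μ (disjointed G m) < ⊤ := fun m =>
    (measure_mono (disjointed_subset G m)).trans_lt (hGf m)
  choose b hb1 hb2 hb3 hb4 using fun m => Z5_exh hnd (hDm m) (hDf m)
  refine ⟨fun k => b k.unpair.1 k.unpair.2, fun k => hb1 _ _, ?_, ?_⟩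
  · intro k l hkl
    by_cases h1 : k.unpair.1 = l.unpair.1
    · have h2 : k.unpair.2 ≠ l.unpair.2 := by
        intro h2
        apply hkl
        rw [← Nat.pair_unpair k, ← Nat.pair_unpair l, h1, h2]
      show Disjoint (b k.unpair.1 k.unpair.2) (b l.unpair.1 l.unpair.2)
      rw [h1]
      exact hb3 _ _ _ h2
    · exact (disjoint_disjointed G h1).mono (hb2 _ _) (hb2 _ _)
  · intro n
    have hall : ∀ᵐ t ∂μ, ∀ m, t ∉ disjointed G m \ ⋃ i, b m i := by
      rw [ae_all_iff]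
      intro m
      exact measure_eq_zero_iff_ae_notMem.mp (hb4 m)
    filter_upwards [hall] with t ht htn
    by_contra hy
    have hpos : 0 < ‖(y n : Ω → ℝ) t‖ := norm_pos_iff.mpr hy
    obtain ⟨j, hj⟩ := exists_nat_one_div_lt hpos
    have hmem : t ∈ ⋃ m, G m := by
      refine Set.mem_iUnion.mpr ⟨Nat.pair n j, ?_⟩
      show (1 : ℝ) / (((Nat.pair n j).unpair.2 : ℝ) + 1) ≤
        ‖(y (Nat.pair n j).unpair.1 : Ω → ℝ) t‖
      rw [Nat.unpair_pair]
      exact hj.le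
    rw [← iUnion_disjointed] at hmem
    obtain ⟨m, hm⟩ := Set.mem_iUnion.mp hmem
    have h3 : t ∈ ⋃ i, b m i := by
      by_contra h4
      exact ht m ⟨hm, h4⟩
    obtain ⟨i, hi⟩ := Set.mem_iUnion.mp h3
    apply htn
    refine Set.mem_iUnion.mpr ⟨Nat.pair m i, ?_⟩
    show t ∈ b (Nat.pair m i).unpair.1 (Nat.pair m i).unpair.2
    rw [Nat.unpair_pair]
    exact hi

end Pool.Agent.Exo
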