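import Pool.Agent.Lib.MP_935088_an.EX.Stm

/-! Piece [EX Z6]: without diffuse sets, sequences in `L₁(μ)` with an upper `ℓ₂`-estimate tend
to `0`. -/

open MeasureTheory Filter Topology Finset

namespace Pool.Agent.Exo

private theorem Z6_abs {Ω : Type} [MeasurableSpace Ω] {μ : Measure Ω} {B : Set Ω}
    (hB : Atm μ B) (g : Lp ℝ 1 μ) : |∫ t in B, g t ∂μ| = ∫ t in B, |g t| ∂μ := by
  obtain ⟨hBm, -, hBf, hBa⟩ := hB
  have hgm : Measurable (g : Ω → ℝ) := (Lp.stronglyMeasurable g).measurable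
  have hCm : MeasurableSet (B ∩ {t | 0 ≤ (g : Ω → ℝ) t}) :=
    hBm.inter (measurableSet_le measurable_const hgm)
  rcases hBa _ Set.inter_subset_left hCm with h | h
  · -- negative almost everywhere
    have hae : ∀ᵐ t ∂(μ.restrict B), (g : Ω → ℝ) t < 0 := by
      rw [ae_restrict_iff' hBm]
      have h1 : ∀ᵐ t ∂μ, t ∉ B ∩ {t | 0 ≤ (g : Ω → ℝ) t} :=
        measure_eq_zero_iff_ae_notMem.mp h
      filter_upwards [h1] with t ht htB
      by_contra hc
      exact ht ⟨htB, not_lt.mp hc⟩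
    have h2 : ∫ t in B, |g t| ∂μ = ∫ t in B, -g t ∂μ := by
      apply integral_congr_ae
      filter_upwards [hae] with t ht
      exact abs_of_neg ht
    have h3 : ∫ t in B, g t ∂μ ≤ 0 := by
      apply integral_nonpos_of_ae
      filter_upwards [hae] with t ht
      exact ht.le
    rw [h2, integral_neg, abs_of_nonpos h3]
  · have hae : ∀ᵐ t ∂(μ.restrict B), 0 ≤ (g : Ω → ℝ) t := by
      rw [ae_restrict_iff' hBm]
      have h0 : μ (B \ (B ∩ {t | 0 ≤ (g : Ω → ℝ) t})) = 0 := by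
        rw [measure_sdiff Set.inter_subset_left hCm.nullMeasurableSet (by rw [h]; exact hBf.ne),
          h, tsub_self]
      have h1 : ∀ᵐ t ∂μ, t ∉ B \ (B ∩ {t | 0 ≤ (g : Ω → ℝ) t}) :=
        measure_eq_zero_iff_ae_notMem.mp h0
      filter_upwards [h1] with t ht htB
      by_contra hc
      exact ht ⟨htB, fun h' => hc h'.2⟩
    have h2 : ∫ t in B, |g t| ∂μ = ∫ t in B, g t ∂μ := by
      apply integral_congr_ae
      filter_upwards [hae] with t ht
      exact abs_of_nonneg ht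
    have h3 : 0 ≤ ∫ t in B, g t ∂μ := by
      apply integral_nonneg_of_ae
      filter_upwards [hae] with t ht
      exact ht
    rw [h2, abs_of_nonneg h3]

private theorem Z6_norm {Ω : Type} [MeasurableSpace Ω] {μ : Measure Ω} (g : Lp ℝ 1 μ) :
    ‖g‖ = ∫ t, |g t| ∂μ := by
  rw [L1.norm_eq_integral_norm]
  rfl

theorem p_Z6 (z1 : S_Z1) (z5 : S_Z5) : S_Z6 := by
  intro Ω _ μ hnd y C hy
  obtain ⟨a, ha, hdis, hout⟩ := z5 Ω _ μ hnd y
  have ham : ∀ i, MeasurableSet (a i) := by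
    intro i
    rcases ha i with h | h
    · rw [h]; exact MeasurableSet.empty
    · exact h.1
  have hint : ∀ g : Lp ℝ 1 μ, Integrable (fun t => g t) μ := fun g => L1.integrable_coeFn g
  have hsum : ∀ g : Lp ℝ 1 μ, HasSum (fun i => ∫ t in a i, |g t| ∂μ)
      (∫ t in ⋃ i, a i, |g t| ∂μ) := fun g =>
    hasSum_integral_iUnion ham (fun i j hij => hdis i j hij) (hint g).abs.integrableOn
  have hle : ∀ (g : Lp ℝ 1 μ) (i : ℕ), |∫ t in a i, g t ∂μ| ≤ ∫ t in a i, |g t| ∂μ :=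
    fun g i => abs_integral_le_integral_abs
  have hS : ∀ g : Lp ℝ 1 μ, Summable fun i => |∫ t in a i, g t ∂μ| := fun g =>
    Summable.of_nonneg_of_le (fun i => abs_nonneg _) (hle g) (hsum g).summable
  have hmem : ∀ g : Lp ℝ 1 μ, Memℓp (fun i => ∫ t in a i, g t ∂μ) 1 := by
    intro g
    rw [memℓp_gen_iff (by norm_num)]
    simpa using hS g
  let Φ : Lp ℝ 1 μ → lp (fun _ : ℕ => ℝ) 1 := fun g => ⟨fun i => ∫ t in a i, g t ∂μ, hmem g⟩
  have hΦ : ∀ g i, (Φ g) i = ∫ t in a i, g t ∂μ := fun g i => rfl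
  have hΦn : ∀ g, ‖Φ g‖ = ∑' i, |∫ t in a i, g t ∂μ| := by
    intro g
    rw [lp.norm_eq_tsum_rpow (by norm_num)]
    simp only [ENNReal.toReal_one, Real.rpow_one, div_one, Real.norm_eq_abs]
    rfl
  have hΦle : ∀ g, ‖Φ g‖ ≤ ‖g‖ := by
    intro g
    rw [hΦn, Z6_norm]
    calc ∑' i, |∫ t in a i, g t ∂μ| ≤ ∑' i, ∫ t in a i, |g t| ∂μ :=
          Summable.tsum_le_tsum (hle g) (hS g) (hsum g).summable
      _ = ∫ t in ⋃ i, a i, |g t| ∂μ := (hsum g).tsum_eq
      _ ≤ ∫ t, |g t| ∂μ := setIntegral_le_integral (hint g).abs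
          (Eventually.of_forall fun t => abs_nonneg _)
  have hΦy : ∀ n, ‖Φ (y n)‖ = ‖y n‖ := by
    intro n
    rw [hΦn, Z6_norm]
    have h1 : ∀ i, |∫ t in a i, (y n) t ∂μ| = ∫ t in a i, |(y n) t| ∂μ := by
      intro i
      rcases ha i with h | h
      · rw [h]; simp
      · exact Z6_abs h (y n)
    simp_rw [h1]
    rw [(hsum (y n)).tsum_eq]
    apply setIntegral_eq_integral_of_ae_compl_eq_zero
    filter_upwards [hout n] with t ht hta
    rw [ht hta, abs_zero]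
  have hadd : ∀ g h : Lp ℝ 1 μ, Φ (g + h) = Φ g + Φ h := by
    intro g h
    ext i
    rw [lp.coeFn_add, Pi.add_apply, hΦ, hΦ, hΦ,
      ← integral_add (hint g).integrableOn (hint h).integrableOn]
    apply integral_congr_ae
    exact ae_restrict_of_ae (Lp.coeFn_add g h)
  have hsmul : ∀ (c : ℝ) (g : Lp ℝ 1 μ), Φ (c • g) = c • Φ g := by
    intro c g
    ext i
    rw [lp.coeFn_smul, Pi.smul_apply, hΦ, hΦ, ← integral_smul]
    apply integral_congr_ae
    exact ae_restrict_of_ae (Lp.coeFn_smul c g)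
  let Φl : Lp ℝ 1 μ →ₗ[ℝ] lp (fun _ : ℕ => ℝ) 1 :=
    { toFun := Φ, map_add' := hadd, map_smul' := hsmul }
  have hup : Up2 (fun n => Φ (y n)) C := by
    intro S e he
    have h1 : ∑ n ∈ S, e n • Φ (y n) = Φl (∑ n ∈ S, e n • y n) := by
      rw [map_sum]
      refine sum_congr rfl fun n _ => ?_
      rw [map_smul]
      rfl
    rw [h1]
    exact (hΦle _).trans (hy S e he)
  have h := z1 (fun n => Φ (y n)) C hup
  simp only [hΦy] at h
  exact h

end Pool.Agent.Exo
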