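import Pool.Agent.Lib.MP_935088_an.EX.Stm

set_option autoImplicit false

open MeasureTheory Filter Topology Finset

namespace Pool.Agent.Exo

private theorem Z7_zero (hM1 : S_M1) (n : ℕ) : cylL n (fun _ => 0) = 0 := by
  have h := hM1.2.1 n 0 (fun _ => 0)
  simpa using h

private theorem Z7_raise (hM1 : S_M1) (n m : ℕ) (f : ℕ → ℝ) :
    cylL (n + m) (fun x => f (x / 2 ^ m)) = cylL n f := by
  induction m generalizing f with
  | zero => simp
  | succ m ih =>
    have h := hM1.2.2.2.2 (n + m) (fun x => f (x / 2 ^ m))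
    rw [ih] at h
    rw [← h, ← add_assoc]
    congr 1
    funext x
    rw [pow_succ, mul_comm (2 ^ m) 2, Nat.div_div_eq_div_mul]

private theorem Z7_split (m : ℕ) (g : ℕ → ℝ) :
    ∑ x ∈ range (2 * m), g x = ∑ y ∈ range m, (g (2 * y) + g (2 * y + 1)) := by
  induction m with
  | zero => simp
  | succ m ih =>
    rw [sum_range_succ, ← ih, mul_add, mul_one, sum_range_succ, sum_range_succ, add_assoc]

/-- the Walsh function -/
private noncomputable def Z7_W (d : ℕ) (x : ℕ) : ℝ :=
  ∏ j ∈ range d, (if x.testBit j then (-1 : ℝ) else 1)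

private theorem Z7_wal (d : ℕ) : wal d = cylL d (Z7_W d) := rfl

private theorem Z7_abs (d x : ℕ) : |Z7_W d x| = 1 := by
  unfold Z7_W
  rw [abs_prod]
  refine prod_eq_one fun j _ => ?_
  split_ifs <;> simp

private theorem Z7_sq (d x : ℕ) : Z7_W d x * Z7_W d x = 1 := by
  rw [← abs_mul_abs_self, Z7_abs, mul_one]

private theorem Z7_ev (d u : ℕ) : Z7_W (d + 1) (2 * u) = Z7_W d u := by
  unfold Z7_W
  rw [prod_range_succ']
  have h0 : (2 * u).testBit 0 = false := by
    rw [Nat.testBit_zero]; simp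
  rw [h0]
  have h1 : ∀ j, (2 * u).testBit (j + 1) = u.testBit j := by
    intro j
    rw [Nat.testBit_succ]
    congr 1
    omega
  simp [h1]

private theorem Z7_od (d u : ℕ) : Z7_W (d + 1) (2 * u + 1) = -Z7_W d u := by
  unfold Z7_W
  rw [prod_range_succ']
  have h0 : (2 * u + 1).testBit 0 = true := by
    rw [Nat.testBit_zero]; simp
  rw [h0]
  have h1 : ∀ j, (2 * u + 1).testBit (j + 1) = u.testBit j := by
    intro j
    rw [Nat.testBit_succ]
    congr 1
    omega
  simp [h1]

private theorem Z7_flip (d j x : ℕ) (hj : j < d) : Z7_W d (x ^^^ 2 ^ j) = -Z7_W d x := by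
  unfold Z7_W
  rw [← mul_prod_erase (range d) _ (mem_range.2 hj),
    ← mul_prod_erase (range d) (fun i => if x.testBit i then (-1 : ℝ) else 1) (mem_range.2 hj)]
  have h1 : ∏ i ∈ (range d).erase j, (if (x ^^^ 2 ^ j).testBit i then (-1 : ℝ) else 1) =
      ∏ i ∈ (range d).erase j, (if x.testBit i then (-1 : ℝ) else 1) := by
    refine prod_congr rfl fun i hi => ?_
    have hij : j ≠ i := fun h => (mem_erase.1 hi).1 h.symm
    rw [Nat.testBit_xor, Nat.testBit_two_pow_of_ne hij, Bool.xor_false]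
  rw [h1, Nat.testBit_xor, Nat.testBit_two_pow_self, Bool.xor_true]
  cases x.testBit j <;> simp

private theorem Z7_bal (D m : ℕ) (x : ℕ) :
    ∑ y ∈ range (2 ^ (m + 1)), Z7_W (D + 1) (x * 2 ^ (m + 1) + y) = 0 := by
  rw [show 2 ^ (m + 1) = 2 * 2 ^ m by ring, Z7_split]
  refine sum_eq_zero fun y _ => ?_
  have h1 : x * (2 * 2 ^ m) + 2 * y = 2 * (x * 2 ^ m + y) := by ring
  have h2 : x * (2 * 2 ^ m) + (2 * y + 1) = 2 * (x * 2 ^ m + y) + 1 := by ring
  rw [h1, h2, Z7_ev, Z7_od, add_neg_cancel]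

private theorem Z7_bal2 (D m : ℕ) (f : ℕ → ℝ) :
    ∑ x ∈ range (2 ^ (D + 1)), Z7_W (D + 1) x * f (x / 2 ^ (m + 1)) = 0 := by
  rw [show 2 ^ (D + 1) = 2 * 2 ^ D by ring, Z7_split]
  refine sum_eq_zero fun y _ => ?_
  have h1 : (2 * y) / 2 ^ (m + 1) = y / 2 ^ m := by
    rw [pow_succ, mul_comm (2 ^ m) 2, ← Nat.div_div_eq_div_mul]
    congr 1
    omega
  have h2 : (2 * y + 1) / 2 ^ (m + 1) = y / 2 ^ m := by
    rw [pow_succ, mul_comm (2 ^ m) 2, ← Nat.div_div_eq_div_mul]
    congr 1
    omega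
  rw [h1, h2, Z7_ev, Z7_od]
  ring

theorem p_Z7 (hM1 : S_M1) (hM9 : S_M9) : S_Z7 := by
  refine ⟨fun d => ?_, ?_, ?_⟩
  · rw [Z7_wal, hM1.2.2.1]
    unfold l1
    rw [sum_congr rfl fun x _ => Z7_abs d x]
    simp
  · intro Av R hD k d
    have hA0 : ∀ i, i < d → Av i (wal d) = 0 := by
      intro i hi
      rw [Z7_wal, hD.cyl1 i d _ hi, ← Z7_zero hM1 d]
      congr 1
      funext x
      unfold avg
      rw [Z7_flip d (d - 1 - i) x (by omega)]
      ring
    have hA : ∀ i, d ≤ i → Av i (wal d) = wal d := fun i hi => hD.cyl2 i d _ hi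
    have hloc := hD.res.loc k d (wal d) hA
    have hc : ∀ i, Av i (R k (wal d)) = R k (Av i (wal d)) := by
      intro i
      have := congrArg (fun T : E →L[ℝ] E => T (wal d)) (hD.res.comm k i)
      exact this.symm
    have hsum : ∑ i ∈ range d, (R k (wal d) - Av i (R k (wal d))) = (d : ℝ) • R k (wal d) := by
      rw [sum_congr rfl (g := fun _ => R k (wal d))]
      · rw [sum_const, card_range, Nat.cast_smul_eq_nsmul]
      · intro i hi
        rw [hc i, hA0 i (mem_range.1 hi), map_zero, sub_zero]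
    rw [hsum] at hloc
    have h4 : (0 : ℝ) < (1 / 4) ^ k := by positivity
    have h5 : (1 + d * (1 / 4 : ℝ) ^ k) • R k (wal d) = wal d := by
      rw [add_smul, one_smul, mul_comm, mul_smul]; exact hloc
    have h6 : (0 : ℝ) < 1 + d * (1 / 4 : ℝ) ^ k := by positivity
    conv_rhs => rw [← h5]
    rw [smul_smul, inv_mul_cancel₀ h6.ne', one_smul]
  · choose c hc1 hc2 using hM9
    refine ⟨fun d => ∑ x ∈ range (2 ^ d), Z7_W d x • c d x, fun d => ?_, fun d d' => ?_⟩
    · refine ContinuousLinearMap.opNorm_le_bound _ zero_le_one fun g => ?_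
      rw [one_mul, ContinuousLinearMap.sum_apply]
      refine (norm_sum_le _ _).trans (le_trans (sum_le_sum fun x _ => ?_) (hc1 d g))
      change ‖Z7_W d x * c d x g‖ ≤ _
      rw [norm_mul, Real.norm_eq_abs, Z7_abs, one_mul, Real.norm_eq_abs]
    · rw [ContinuousLinearMap.sum_apply]
      change ∑ x ∈ range (2 ^ d), Z7_W d x * c d x (wal d') = _
      rcases lt_trichotomy d d' with h | h | h
      · rw [if_neg h.ne]
        obtain ⟨m, rfl⟩ : ∃ m, d' = d + (m + 1) := ⟨d' - d - 1, by omega⟩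
        refine sum_eq_zero fun x hx => ?_
        rw [Z7_wal, hc2 d (m + 1) _ x (mem_range.1 hx)]
        have := Z7_bal (d + m) m x
        rw [← add_assoc, this, zero_div, mul_zero]
      · subst h
        rw [if_pos rfl]
        have h1 : ∀ x ∈ range (2 ^ d), Z7_W d x * c d x (wal d) = 1 / 2 ^ d := by
          intro x hx
          have h2 := hc2 d 0 (Z7_W d) x (mem_range.1 hx)
          rw [add_zero] at h2
          rw [Z7_wal, h2]
          simp only [pow_zero, range_one, sum_singleton, mul_one, add_zero]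
          rw [mul_div_assoc', Z7_sq]
        rw [sum_congr rfl h1, sum_const, card_range, nsmul_eq_mul]
        push_cast
        field_simp
      · rw [if_neg h.ne']
        obtain ⟨m, rfl⟩ : ∃ m, d = d' + (m + 1) := ⟨d - d' - 1, by omega⟩
        have h1 : wal d' = cylL (d' + (m + 1)) (fun x => Z7_W d' (x / 2 ^ (m + 1))) := by
          rw [Z7_raise hM1, Z7_wal]
        have h3 : ∀ x ∈ range (2 ^ (d' + (m + 1))),
            Z7_W (d' + (m + 1)) x * c (d' + (m + 1)) x (wal d') =
            (Z7_W (d' + (m + 1)) x * Z7_W d' (x / 2 ^ (m + 1))) / 2 ^ (d' + (m + 1)) := by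
          intro x hx
          have h2 := hc2 (d' + (m + 1)) 0 (fun x => Z7_W d' (x / 2 ^ (m + 1))) x (mem_range.1 hx)
          rw [add_zero] at h2
          rw [h1, h2]
          simp only [pow_zero, range_one, sum_singleton, mul_one, add_zero]
          rw [mul_div_assoc']
        rw [sum_congr rfl h3, ← sum_div]
        have h4 := Z7_bal2 (d' + m) m (Z7_W d')
        rw [← add_assoc, h4, zero_div]

end Pool.Agent.Exo
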