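import Pool.Agent.Lib.MP_935088_an.EX.Stm

set_option autoImplicit false

open MeasureTheory Filter Topology Finset

namespace Pool.Agent.Exo

private theorem A8_coef (d : ℝ) (hd : 0 < d) (k : ℕ) :
    (2 : ℝ) ^ k * (1 - (1 + d * (1 / 4) ^ (k + 1))⁻¹) =
      2 ^ k * (d / (4 ^ (k + 1) + d)) := by
  have h4 : (0 : ℝ) < 4 ^ (k + 1) := by positivity
  have h1 : (1 / 4 : ℝ) ^ (k + 1) = (4 ^ (k + 1))⁻¹ := by
    rw [one_div, inv_pow]
  rw [h1]
  have h2 : (1 : ℝ) + d * (4 ^ (k + 1))⁻¹ = (4 ^ (k + 1) + d) / 4 ^ (k + 1) := by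
    field_simp
  rw [h2, inv_div]
  congr 1
  have h3 : (0 : ℝ) < 4 ^ (k + 1) + d := by positivity
  field_simp
  ring

private theorem A8_sum (s : ℝ) (hs : 1 ≤ s) (N : ℕ) :
    ∑ k ∈ range N, (2 : ℝ) ^ k * (s ^ 2 / (4 ^ (k + 1) + s ^ 2)) ≤
      2 * s - 2 * s ^ 2 / (s + 2 ^ N) := by
  induction N with
  | zero =>
    simp only [range_zero, sum_empty, pow_zero]
    rw [sub_nonneg, div_le_iff₀ (by linarith)]
    nlinarith
  | succ N ih =>
    rw [sum_range_succ]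
    have hp : (0 : ℝ) < 2 ^ N := by positivity
    have h4 : (4 : ℝ) ^ (N + 1) = 4 * (2 ^ N) ^ 2 := by
      rw [pow_succ, ← pow_mul, mul_comm N 2, pow_mul]; norm_num; ring
    have h2 : (2 : ℝ) ^ (N + 1) = 2 * 2 ^ N := by ring
    rw [h4, h2]
    set p : ℝ := 2 ^ N
    have hs0 : 0 < s := by linarith
    have key : p * (s ^ 2 / (4 * p ^ 2 + s ^ 2)) ≤
        2 * s ^ 2 / (s + p) - 2 * s ^ 2 / (s + 2 * p) := by
      have e1 : 2 * s ^ 2 / (s + p) - 2 * s ^ 2 / (s + 2 * p) =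
          2 * s ^ 2 * p / ((s + p) * (s + 2 * p)) := by
        field_simp; ring
      rw [e1, mul_div_assoc', div_le_div_iff₀ (by positivity) (by positivity)]
      have h5 : 0 ≤ s ^ 2 - 3 * s * p + 6 * p ^ 2 := by nlinarith [sq_nonneg (s - 2 * p), sq_nonneg s, sq_nonneg p, mul_pos hs0 hp]
      have h6 : 0 ≤ p * s ^ 2 := by positivity
      nlinarith [mul_nonneg h6 h5]
    linarith

theorem p_A8 : S_A8 := by
  intro B _ _ R d g hd hR
  have hs1 : 1 ≤ √d := by rw [← Real.sqrt_one]; exact Real.sqrt_le_sqrt hd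
  have hsq : √d ^ 2 = d := Real.sq_sqrt (by linarith)
  have hU : ∀ k, ‖Uo R (k + 1) g‖ = (2 : ℝ) ^ k * (√d ^ 2 / (4 ^ (k + 1) + √d ^ 2)) * ‖g‖ := by
    intro k
    have h1 : Uo R (k + 1) g = ((2 : ℝ) ^ k * (1 - (1 + d * (1 / 4) ^ (k + 1))⁻¹)) • g := by
      change (2 : ℝ) ^ k • (g - R (k + 1) g) = _
      rw [hR (k + 1), mul_smul, sub_smul, one_smul]
    rw [h1, A8_coef d (by linarith) k, norm_smul, hsq, Real.norm_of_nonneg (by positivity)]
  have hbound : ∀ N, ∑ k ∈ range N, ‖Uo R k g‖ ≤ 3 * √d * ‖g‖ := by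
    intro N
    have h0 : ∑ k ∈ range N, ‖Uo R k g‖ ≤ ∑ k ∈ range (N + 1), ‖Uo R k g‖ :=
      Finset.sum_le_sum_of_subset_of_nonneg (range_mono (Nat.le_succ N))
        (fun _ _ _ => norm_nonneg _)
    refine h0.trans ?_
    rw [sum_range_succ']
    have h1 : Uo R 0 g = g := rfl
    rw [h1]
    simp_rw [hU]
    rw [← Finset.sum_mul]
    have h2 := A8_sum (√d) hs1 N
    have h3 : 0 ≤ 2 * √d ^ 2 / (√d + 2 ^ N) := by positivity
    have h4 : ∑ k ∈ range N, (2 : ℝ) ^ k * (√d ^ 2 / (4 ^ (k + 1) + √d ^ 2)) ≤ 2 * √d := by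
      linarith
    have h5 := mul_le_mul_of_nonneg_right h4 (norm_nonneg g)
    have h6 := mul_le_mul_of_nonneg_right hs1 (norm_nonneg g)
    linarith
  have hsum : Summable (fun k => ‖Uo R k g‖) :=
    summable_of_sum_range_le (fun _ => norm_nonneg _) hbound
  have hmem : Memℓp (fun k => Uo R k g) 1 := by
    apply memℓp_gen
    simpa using hsum
  refine ⟨⟨fun k => Uo R k g, hmem⟩, fun k => rfl, ?_⟩
  rw [lp.norm_eq_tsum_rpow (by simp)]
  simp only [ENNReal.toReal_one, Real.rpow_one, div_one]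
  exact Real.tsum_le_of_sum_range_le (fun _ => norm_nonneg _) hbound

end Pool.Agent.Exo
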