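import Mathlib
import Pool.Agent.Lib.MP_935088_an.EX.Stm

/-!
# MP_935088_an, EX: piece L2 (complemented subspaces of `L₁` with a complemented `ℓ₁`-sequence)
-/

set_option autoImplicit false

open MeasureTheory Filter Topology Finset

namespace Pool.Agent.Exo

/-- the function with the given values on `0, …, 2ⁿ - 1` -/
noncomputable def L2_ext (n : ℕ) (a : Fin (2 ^ n) → ℝ) : ℕ → ℝ :=
  fun x => if h : x < 2 ^ n then a ⟨x, h⟩ else 0

theorem L2_ext_fin (n : ℕ) (a : Fin (2 ^ n) → ℝ) (i : Fin (2 ^ n)) : L2_ext n a i = a i := by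
  unfold L2_ext
  rw [dif_pos i.2]

theorem L2_add (n : ℕ) (a b : Fin (2 ^ n) → ℝ) (x : ℕ) :
    L2_ext n (a + b) x = L2_ext n a x + L2_ext n b x := by
  unfold L2_ext
  split_ifs
  · rfl
  · simp

theorem L2_smul (n : ℕ) (c : ℝ) (a : Fin (2 ^ n) → ℝ) (x : ℕ) :
    L2_ext n (c • a) x = c * L2_ext n a x := by
  unfold L2_ext
  split_ifs
  · rfl
  · simp

/-- coordinates on the cylinder functions -/
theorem L2_coord (hM1 : S_M1) (n : ℕ) : ∃ g : (Fin (2 ^ n) → ℝ) →ₗ[ℝ] E,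
    (∀ a, ‖g a‖ = ∑ i, |a i|) ∧ ∀ φ : ℕ → ℝ, ∃ a, g a = cylL n φ := by
  refine ⟨{ toFun := fun a => cylL n (fun x => 2 ^ n * L2_ext n a x)
            map_add' := fun a b => ?_
            map_smul' := fun c a => ?_ }, fun a => ?_, fun φ => ?_⟩
  · rw [← hM1.1]
    congr 1
    funext x
    rw [L2_add]
    ring
  · show cylL n (fun x => 2 ^ n * L2_ext n (c • a) x) = c • cylL n (fun x => 2 ^ n * L2_ext n a x)
    rw [← hM1.2.1]
    congr 1
    funext x
    rw [L2_smul]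
    ring
  · show ‖cylL n (fun x => 2 ^ n * L2_ext n a x)‖ = _
    rw [hM1.2.2.1, l1, Finset.sum_range, Finset.sum_div]
    refine Finset.sum_congr rfl fun i _ => ?_
    rw [L2_ext_fin, abs_mul, abs_of_pos (by positivity : (0 : ℝ) < 2 ^ n)]
    field_simp
  · refine ⟨fun i => φ i / 2 ^ n, ?_⟩
    show cylL n (fun x => 2 ^ n * L2_ext n (fun i => φ i / 2 ^ n) x) = _
    rw [← hM1.2.2.2.1]
    intro x hx
    rw [show x = ((⟨x, hx⟩ : Fin (2 ^ n)) : ℕ) from rfl, L2_ext_fin]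
    field_simp

/-- tails of absolutely convergent series in finite dimension -/
theorem L2_tail {ι : Type} [Fintype ι] (u : ι → ℕ → ℝ) (hu : ∀ i, ∃ B, ∀ N, ∑ m ∈ range N, |u i m| ≤ B)
    {ε : ℝ} (hε : 0 < ε) : ∃ m₀, ∀ i N, ∑ x ∈ range N, |u i (m₀ + x)| ≤ ε := by
  have h1 : ∀ i, ∃ m₀, ∀ m ≥ m₀, ∀ N, ∑ x ∈ range N, |u i (m + x)| ≤ ε := by
    intro i
    obtain ⟨B, hB⟩ := hu i
    have hs : Summable (fun m => |u i m|) :=
      summable_of_sum_range_le (fun m => abs_nonneg _) hB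
    have ht := tendsto_sum_nat_add (fun m => |u i m|)
    obtain ⟨m₀, hm⟩ := (ht.eventually (gt_mem_nhds hε)).exists_forall_of_atTop
    refine ⟨m₀, fun m hm0 N => ?_⟩
    have hs' : Summable (fun k => |u i (k + m)|) := (summable_nat_add_iff m).2 hs
    have h2 := hs'.sum_le_tsum (range N) (fun k _ => abs_nonneg _)
    refine le_trans (le_of_eq ?_) (h2.trans (hm m hm0).le)
    exact Finset.sum_congr rfl fun x _ => by rw [add_comm]
  choose m hm using h1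
  refine ⟨∑ i, m i, fun i N => hm i _ (Finset.single_le_sum (fun j _ => Nat.zero_le _)
    (Finset.mem_univ i)) N⟩

theorem p_L2 (hM1 : S_M1) (hM9 : S_M9) (hL1 : S_L1) : S_L2 := by
  intro X _ _ J Q w ws C hQJ hw hws hwsC
  have hC : 0 ≤ C := (norm_nonneg _).trans (hw 0)
  obtain ⟨j, hj⟩ : ∃ j, j = ‖J‖ := ⟨_, rfl⟩
  obtain ⟨k, hk⟩ : ∃ k, k = ‖Q‖ := ⟨_, rfl⟩
  have hj0 : 0 ≤ j := hj ▸ norm_nonneg _
  have hk0 : 0 ≤ k := hk ▸ norm_nonneg _
  have hJ : ∀ x, ‖J x‖ ≤ j * ‖x‖ := fun x => hj ▸ J.le_opNorm x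
  have hQ : ∀ x, ‖Q x‖ ≤ k * ‖x‖ := fun x => hk ▸ Q.le_opNorm x
  obtain ⟨D, hD⟩ : ∃ D, D = 2 * k + 4 * C * (1 + j * k) + 1 := ⟨_, rfl⟩
  have hD0 : 0 < D := by rw [hD]; positivity
  obtain ⟨L, hL⟩ : ∃ L, L = 2 * (2 * j + (2 * j * C + 4) * C) := ⟨_, rfl⟩
  have hL0 : 0 ≤ L := by rw [hL]; positivity
  refine ⟨L * D, fun F hF => ?_⟩
  have hfd : FiniteDimensional ℝ (F.map (J : X →ₗ[ℝ] E)) := inferInstance
  obtain ⟨n, T, T', hT, hT', hTT', hT'T, hTF⟩ := hL1 (F.map (J : X →ₗ[ℝ] E)) hfd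
  obtain ⟨g, hg, hgs⟩ := L2_coord hM1 n
  -- the defect
  let R : E →L[ℝ] E := (1 - J.comp Q).comp T
  let Rg : (Fin (2 ^ n) → ℝ) →ₗ[ℝ] E := (R : E →ₗ[ℝ] E).comp g
  have hfd2 : FiniteDimensional ℝ (LinearMap.range Rg) := inferInstance
  obtain ⟨n', T1, T1', hT1, hT1', hTT1, hT1T, hTH⟩ := hL1 (LinearMap.range Rg) hfd2
  obtain ⟨c, _, hc2⟩ := hM9 n'
  have hRapp : ∀ x, R x = T x - J (Q (T x)) := fun x => rfl
  have hTb : ∀ x, ‖T x‖ ≤ 2 * ‖x‖ := fun x =>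
    (T.le_opNorm x).trans (mul_le_mul_of_nonneg_right hT (norm_nonneg _))
  have hT'b : ∀ x, ‖T' x‖ ≤ 2 * ‖x‖ := fun x =>
    (T'.le_opNorm x).trans (mul_le_mul_of_nonneg_right hT' (norm_nonneg _))
  have hT1b : ∀ x, ‖T1 x‖ ≤ 2 * ‖x‖ := fun x =>
    (T1.le_opNorm x).trans (mul_le_mul_of_nonneg_right hT1 (norm_nonneg _))
  have hT1'b : ∀ x, ‖T1' x‖ ≤ 2 * ‖x‖ := fun x =>
    (T1'.le_opNorm x).trans (mul_le_mul_of_nonneg_right hT1' (norm_nonneg _))
  have hT'Ta : ∀ x, T' (T x) = x := fun x => congrArg (fun f : E →L[ℝ] E => f x) hT'T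
  have hT1Ta : ∀ x, T1' (T1 x) = x := fun x => congrArg (fun f : E →L[ℝ] E => f x) hT1T
  have hTT1a : ∀ x, T1 (T1' x) = x := fun x => congrArg (fun f : E →L[ℝ] E => f x) hTT1
  -- h a
  let hh : (Fin (2 ^ n) → ℝ) → E := fun a => T1' (R (g a))
  have hhn : ∀ a, ‖hh a‖ ≤ 4 * (1 + j * k) * ‖g a‖ := by
    intro a
    have h1 : ‖R (g a)‖ ≤ 2 * (1 + j * k) * ‖g a‖ := by
      rw [hRapp]
      have h2 := norm_sub_le (T (g a)) (J (Q (T (g a))))
      have h3 := hJ (Q (T (g a)))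
      have h4 := mul_le_mul_of_nonneg_left (hQ (T (g a))) hj0
      have h5 := hTb (g a)
      have h6 : j * (k * ‖T (g a)‖) ≤ j * (k * (2 * ‖g a‖)) :=
        mul_le_mul_of_nonneg_left (mul_le_mul_of_nonneg_left h5 hk0) hj0
      nlinarith [h2, h3, h4, h5, h6]
    have h2 := hT1'b (R (g a))
    show ‖T1' (R (g a))‖ ≤ _
    linarith
  have hhc : ∀ a, ∑ x ∈ range (2 ^ n'), |c x (hh a)| = ‖hh a‖ := by
    intro a
    obtain ⟨ψ, hψ⟩ := hTH (Rg a) ⟨a, rfl⟩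
    have e : hh a = cylL n' ψ := by
      show T1' (Rg a) = _
      rw [hψ, hT1Ta]
    rw [e, hM1.2.2.1, l1, Finset.sum_div]
    refine Finset.sum_congr rfl fun x hx => ?_
    have h1 := hc2 0 ψ x (Finset.mem_range.1 hx)
    simp only [add_zero, pow_zero, mul_one, Finset.range_one, Finset.sum_singleton] at h1
    rw [h1, abs_div, abs_of_pos (by positivity : (0 : ℝ) < 2 ^ n')]
  -- the tail
  obtain ⟨ε, hε⟩ : ∃ ε : ℝ, ε = 1 / (2 * (2 * j * C + 4)) := ⟨_, rfl⟩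
  have hjC : 0 ≤ 2 * j * C := by positivity
  have hε0 : 0 < ε := by rw [hε]; positivity
  obtain ⟨m₀, hm₀⟩ := L2_tail (fun (i : Fin (2 ^ n)) m => ws m (Q (T (g (Pi.single i 1)))))
    (fun i => ⟨_, fun N => hwsC _ N⟩) hε0
  have htail : ∀ a N, ∑ x ∈ range N, |ws (m₀ + x) (Q (T (g a)))| ≤ ε * ‖g a‖ := by
    intro a N
    have h1 : g a = ∑ i, a i • g (Pi.single i 1) := by
      conv_lhs => rw [pi_eq_sum_univ' a]
      rw [map_sum]
      refine Finset.sum_congr rfl fun i _ => ?_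
      rw [map_smul]
    have h2 : ∀ m, |ws m (Q (T (g a)))| ≤ ∑ i, |a i| * |ws m (Q (T (g (Pi.single i 1))))| := by
      intro m
      have h3 : ws m (Q (T (g a))) = ∑ i, a i * ws m (Q (T (g (Pi.single i 1)))) := by
        conv_lhs => rw [h1]
        simp only [map_sum, map_smul, smul_eq_mul]
      rw [h3]
      refine (Finset.abs_sum_le_sum_abs _ _).trans (le_of_eq ?_)
      exact Finset.sum_congr rfl fun i _ => abs_mul _ _
    calc ∑ x ∈ range N, |ws (m₀ + x) (Q (T (g a)))|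
        ≤ ∑ x ∈ range N, ∑ i, |a i| * |ws (m₀ + x) (Q (T (g (Pi.single i 1))))| :=
          Finset.sum_le_sum fun x _ => h2 _
      _ = ∑ i, |a i| * ∑ x ∈ range N, |ws (m₀ + x) (Q (T (g (Pi.single i 1))))| := by
          rw [Finset.sum_comm]
          exact Finset.sum_congr rfl fun i _ => (Finset.mul_sum _ _ _).symm
      _ ≤ ∑ i, |a i| * ε := Finset.sum_le_sum fun i _ =>
          mul_le_mul_of_nonneg_left (hm₀ i N) (abs_nonneg _)
      _ = ε * ‖g a‖ := by rw [← Finset.sum_mul, hg, mul_comm]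
  -- the operator
  let S : (Fin (2 ^ n) → ℝ) →ₗ[ℝ] X :=
    ((Q.comp T : E →L[ℝ] X) : E →ₗ[ℝ] X).comp g +
      ∑ x ∈ range (2 ^ n'), ((((c x).comp (T1'.comp R)) : E →L[ℝ] ℝ).smulRight (w (m₀ + x)) :
        E →ₗ[ℝ] X).comp g
  have hS : ∀ a, S a = Q (T (g a)) + ∑ x ∈ range (2 ^ n'), c x (hh a) • w (m₀ + x) := by
    intro a
    simp only [S, LinearMap.add_apply, LinearMap.sum_apply]
    rfl
  have hb : ∀ a, ‖∑ x ∈ range (2 ^ n'), c x (hh a) • w (m₀ + x)‖ ≤ C * ‖hh a‖ := by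
    intro a
    refine (norm_sum_le _ _).trans ?_
    rw [← hhc a, Finset.mul_sum]
    refine Finset.sum_le_sum fun x _ => ?_
    rw [norm_smul, Real.norm_eq_abs, mul_comm]
    exact mul_le_mul_of_nonneg_right (hw _) (abs_nonneg _)
  have hup : ∀ a, ‖S a‖ ≤ D * ‖g a‖ := by
    intro a
    rw [hS]
    have h1 := norm_add_le (Q (T (g a))) (∑ x ∈ range (2 ^ n'), c x (hh a) • w (m₀ + x))
    have h2 := hb a
    have h3 := mul_le_mul_of_nonneg_left (hhn a) hC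
    have h4 := hQ (T (g a))
    have h5 := mul_le_mul_of_nonneg_left (hTb (g a)) hk0
    have h6 := norm_nonneg (g a)
    rw [hD]
    nlinarith [h1, h2, h3, h4, h5, h6]
  have hlow : ∀ a, ‖g a‖ ≤ L * ‖S a‖ := by
    intro a
    obtain ⟨y, hy⟩ : ∃ y, y = S a := ⟨_, rfl⟩
    rw [← hy]
    have hwsy : ∀ x ∈ range (2 ^ n'), ws (m₀ + x) y = ws (m₀ + x) (Q (T (g a))) + c x (hh a) := by
      intro x hx
      rw [hy, hS, map_add, map_sum]
      congr 1
      rw [Finset.sum_eq_single x]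
      · rw [map_smul, hws, if_pos rfl, smul_eq_mul, mul_one]
      · intro z _ hz
        rw [map_smul, hws, if_neg (by omega), smul_zero]
      · intro h
        exact absurd hx h
    have h1 : ‖hh a‖ ≤ C * ‖y‖ + ε * ‖g a‖ := by
      rw [← hhc a]
      calc ∑ x ∈ range (2 ^ n'), |c x (hh a)|
          ≤ ∑ x ∈ range (2 ^ n'), (|ws (m₀ + x) y| + |ws (m₀ + x) (Q (T (g a)))|) := by
            refine Finset.sum_le_sum fun x hx => ?_
            have h2 : c x (hh a) = ws (m₀ + x) y - ws (m₀ + x) (Q (T (g a))) := by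
              rw [hwsy x hx]
              ring
            rw [h2]
            exact abs_sub _ _
        _ = ∑ x ∈ range (2 ^ n'), |ws (m₀ + x) y| +
            ∑ x ∈ range (2 ^ n'), |ws (m₀ + x) (Q (T (g a)))| := Finset.sum_add_distrib
        _ ≤ C * ‖y‖ + ε * ‖g a‖ := by
            refine add_le_add ?_ (htail a _)
            refine le_trans ?_ (hwsC y (m₀ + 2 ^ n'))
            rw [Finset.sum_range_add]
            exact le_add_of_nonneg_left (Finset.sum_nonneg fun x _ => abs_nonneg _)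
    have h2 : ‖Q (T (g a))‖ ≤ ‖y‖ + C * ‖hh a‖ := by
      have h3 : Q (T (g a)) = y - ∑ x ∈ range (2 ^ n'), c x (hh a) • w (m₀ + x) := by
        rw [hy, hS]
        abel
      rw [h3]
      exact (norm_sub_le _ _).trans (add_le_add le_rfl (hb a))
    have h3 : T (g a) = J (Q (T (g a))) + T1 (hh a) := by
      show T (g a) = J (Q (T (g a))) + T1 (T1' (R (g a)))
      rw [hTT1a, hRapp]
      abel
    have h4 : ‖g a‖ ≤ 2 * j * ‖Q (T (g a))‖ + 4 * ‖hh a‖ := by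
      have h5 : ‖g a‖ ≤ 2 * ‖T (g a)‖ := by
        have := hT'b (T (g a))
        rwa [hT'Ta] at this
      have h6 : ‖T (g a)‖ ≤ j * ‖Q (T (g a))‖ + 2 * ‖hh a‖ := by
        calc ‖T (g a)‖ = ‖J (Q (T (g a))) + T1 (hh a)‖ := by rw [← h3]
          _ ≤ ‖J (Q (T (g a)))‖ + ‖T1 (hh a)‖ := norm_add_le _ _
          _ ≤ _ := add_le_add (hJ _) (hT1b _)
      linarith
    have h5 : ‖g a‖ ≤ 2 * j * ‖y‖ + (2 * j * C + 4) * ‖hh a‖ := by
      have h6 := mul_le_mul_of_nonneg_left h2 (by positivity : 0 ≤ 2 * j)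
      linarith
    have h6 : (2 * j * C + 4) * ‖hh a‖ ≤ (2 * j * C + 4) * (C * ‖y‖) + ‖g a‖ / 2 := by
      have h7 := mul_le_mul_of_nonneg_left h1 (by positivity : 0 ≤ 2 * j * C + 4)
      have h8 : (2 * j * C + 4) * (ε * ‖g a‖) = ‖g a‖ / 2 := by
        rw [hε]
        field_simp
      linarith
    rw [hL]
    linarith
  -- the vectors
  have hsum : ∀ a : Fin (2 ^ n) → ℝ, ∑ i, a i • (D⁻¹ • S (Pi.single i 1)) = D⁻¹ • S a := by
    intro a
    have h1 : S a = ∑ i, a i • S (Pi.single i 1) := by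
      conv_lhs => rw [pi_eq_sum_univ' a]
      rw [map_sum]
      refine Finset.sum_congr rfl fun i _ => ?_
      rw [map_smul]
    rw [h1, Finset.smul_sum]
    exact Finset.sum_congr rfl fun i _ => smul_comm _ _ _
  refine ⟨2 ^ n, fun i => D⁻¹ • S (Pi.single i 1), fun f hf => ?_, fun a => ?_⟩
  · obtain ⟨φ, hφ⟩ := hTF (J f) ⟨f, hf, rfl⟩
    obtain ⟨a, ha⟩ := hgs φ
    rw [← ha] at hφ
    have h0 : R (g a) = 0 := by
      rw [hRapp, ← hφ, hQJ, sub_self]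
    have h1 : hh a = 0 := by
      show T1' (R (g a)) = 0
      rw [h0, map_zero]
    have h2 : S a = f := by
      rw [hS, h1, ← hφ, hQJ]
      simp
    have h3 : f = ∑ i, (D * a i) • (D⁻¹ • S (Pi.single i 1)) := by
      have h4 := hsum (fun i => D * a i)
      rw [h4]
      have h5 : (fun i => D * a i) = D • a := rfl
      rw [h5, map_smul, h2, smul_smul, inv_mul_cancel₀ hD0.ne', one_smul]
    rw [h3]
    exact Submodule.sum_mem _ fun i _ => Submodule.smul_mem _ _ (Submodule.subset_span ⟨i, rfl⟩)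
  · rw [hsum a, norm_smul, norm_inv, Real.norm_of_nonneg hD0.le]
    have h1 := hup a
    have h2 := hlow a
    rw [hg] at h1 h2
    constructor
    · rw [inv_mul_le_iff₀ hD0]
      exact h1
    · have : L * D * (D⁻¹ * ‖S a‖) = L * ‖S a‖ := by
        field_simp
      rw [this]
      exact h2

end Pool.Agent.Exo
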