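import Pool.Agent.Lib.MP_935088_an.EX.Stm

/-!
# MP_935088_an, project EX, piece S2: Rademacher averages of cylinder functions
-/

set_option autoImplicit false

open MeasureTheory Filter Topology Finset

namespace Pool.Agent.Exo

private theorem S2_pow (a : ℕ → ℝ) (N : ℕ) :
    ∑ S ∈ (range N).powerset, (∑ i ∈ range N, (if i ∈ S then (1 : ℝ) else -1) * a i) ^ 2 =
      2 ^ N * ∑ i ∈ range N, a i ^ 2 := by
  induction N with
  | zero => simp
  | succ N ih =>
    rw [range_add_one, sum_powerset_insert notMem_range_self]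
    have h1 : ∀ S ∈ (range N).powerset,
        (∑ i ∈ insert N (range N), (if i ∈ S then (1 : ℝ) else -1) * a i) ^ 2 +
        (∑ i ∈ insert N (range N), (if i ∈ insert N S then (1 : ℝ) else -1) * a i) ^ 2 =
        2 * (∑ i ∈ range N, (if i ∈ S then (1 : ℝ) else -1) * a i) ^ 2 + 2 * a N ^ 2 := by
      intro S hS
      have hN : N ∉ S := fun h => notMem_range_self (mem_powerset.1 hS h)
      have h2 : ∑ i ∈ range N, (if i ∈ insert N S then (1 : ℝ) else -1) * a i =
          ∑ i ∈ range N, (if i ∈ S then (1 : ℝ) else -1) * a i := by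
        apply sum_congr rfl
        intro i hi
        have hne : i ≠ N := by
          rintro rfl
          exact notMem_range_self hi
        simp [mem_insert, hne]
      rw [sum_insert notMem_range_self, sum_insert notMem_range_self, h2, if_neg hN,
        if_pos (mem_insert_self N S)]
      ring
    rw [← sum_add_distrib, sum_congr rfl h1, sum_add_distrib, ← mul_sum, ih, sum_const,
      card_powerset, card_range, sum_insert notMem_range_self, nsmul_eq_mul]
    push_cast
    ring

private theorem S2_jen {ι : Type} (s : Finset ι) (f : ι → ℝ) (c : ℝ) (hc : (s.card : ℝ) = c)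
    (h0 : 0 < c) : ((∑ i ∈ s, f i) / c) ^ 2 ≤ (∑ i ∈ s, f i ^ 2) / c := by
  have h := sum_mul_sq_le_sq_mul_sq s f (fun _ => (1 : ℝ))
  simp only [mul_one, one_pow, sum_const, nsmul_eq_mul, hc] at h
  rw [div_pow, div_le_div_iff₀ (by positivity) h0]
  nlinarith [h, h0]

private theorem S2_lin (hM1 : S_M1) (n : ℕ) (u : ℕ → ℕ → ℝ) (c : ℕ → ℝ) (s : Finset ℕ) :
    ∑ i ∈ s, c i • cylL n (u i) = cylL n (fun x => ∑ i ∈ s, c i * u i x) := by
  obtain ⟨h1, h2, -⟩ := hM1
  classical
  induction s using Finset.induction_on with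
  | empty =>
    simp only [sum_empty]
    have h := h2 n 0 (fun _ => 0)
    simp only [zero_mul, zero_smul] at h
    exact h.symm
  | insert j s hj ih =>
    rw [sum_insert hj, ih, ← h2, ← h1]
    congr 1
    funext x
    rw [sum_insert hj]

theorem p_S2 (hM1 : S_M1) : S_S2 := by
  intro n N u
  have hM3 := hM1.2.2.1
  apply Real.le_sqrt_of_sq_le
  unfold rad
  have e1 : ∀ S ∈ (range N).powerset,
      ‖∑ i ∈ range N, (if i ∈ S then (1 : ℝ) else -1) • cylL n (u i)‖ =
      l1 n (fun x => ∑ i ∈ range N, (if i ∈ S then (1 : ℝ) else -1) * u i x) := by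
    intro S _
    rw [S2_lin hM1 n u (fun i => if i ∈ S then (1 : ℝ) else -1) (range N), hM3]
  rw [sum_congr rfl e1]
  refine (S2_jen _ _ _ (by rw [card_powerset, card_range]; push_cast; rfl)
    (by positivity)).trans ?_
  rw [div_le_iff₀ (by positivity)]
  have e2 : ∀ S ∈ (range N).powerset,
      (l1 n (fun x => ∑ i ∈ range N, (if i ∈ S then (1 : ℝ) else -1) * u i x)) ^ 2 ≤
      (∑ x ∈ range (2 ^ n), (∑ i ∈ range N, (if i ∈ S then (1 : ℝ) else -1) * u i x) ^ 2)
        / 2 ^ n := by
    intro S _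
    unfold l1
    refine (S2_jen _ _ _ (by rw [card_range]; push_cast; rfl) (by positivity)).trans ?_
    simp only [sq_abs]
    exact le_refl _
  refine (sum_le_sum e2).trans ?_
  rw [← sum_div, sum_comm, sum_congr rfl (fun x _ => S2_pow (fun i => u i x) N)]
  unfold ip
  rw [← mul_sum, sum_comm, ← sum_div]
  have e3 : ∀ i ∈ range N, ∑ x ∈ range (2 ^ n), u i x ^ 2 = ∑ x ∈ range (2 ^ n), u i x * u i x := by
    intro i _
    apply sum_congr rfl
    intro x _
    ring
  rw [sum_congr rfl e3]
  exact le_of_eq (by ring)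

end Pool.Agent.Exo
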