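import Pool.Agent.Lib.MP_935088_an.EX.Stm

/-!
# S4: singularity of the resolvents on cylinder functions
-/

set_option autoImplicit false

open MeasureTheory Filter Topology Finset

namespace Pool.Agent.Exo

theorem p_S4 (hM1 : S_M1) (hS2 : S_S2) (hS3 : S_S3) (hN8 : S_N8) : S_S4 := by
  intro Av R hD k K M δ hK hM hδ
  obtain ⟨-, -, hM3, -, -⟩ := hM1
  have hr : (0 : ℝ) < (1 / 4 : ℝ) ^ k := by positivity
  set r : ℝ := (1 / 4 : ℝ) ^ k with hrdef
  obtain ⟨s, hs, hs1, hsb⟩ : ∃ s : ℝ, 0 < s ∧ s ≤ 1 ∧ s / r * K * M ≤ δ ^ 2 / 2 := by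
    refine ⟨min 1 (δ ^ 2 * r / (2 * K * M)), lt_min one_pos (by positivity), min_le_left _ _, ?_⟩
    have h1 : min 1 (δ ^ 2 * r / (2 * K * M)) ≤ δ ^ 2 * r / (2 * K * M) := min_le_right _ _
    calc min 1 (δ ^ 2 * r / (2 * K * M)) / r * K * M
        ≤ (δ ^ 2 * r / (2 * K * M)) / r * K * M := by gcongr
      _ = δ ^ 2 / 2 := by field_simp
  set c : ℝ := δ ^ 2 / (2 * K * M) with hc
  have hc0 : 0 < c := by positivity
  refine ⟨K * c ^ (4 / s), by positivity, ?_⟩
  intro n N φ hφ hη hsum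
  have hsimp : ∀ i, ‖cylL n (φ i)‖ = l1 n (φ i) := fun i => hM3 n (φ i)
  choose u hu1 hu2 using fun i : ℕ => hS3 Av R hD k n (φ i)
  have hrad : rad N (fun i => R k (cylL n (φ i))) = rad N (fun i => cylL n (u i)) := by
    congr 1
    funext i
    exact hu1 i
  rw [hrad]
  refine (hS2 n N u).trans ?_
  have hbound : ∀ i ∈ range N, ip n (u i) (u i) ≤ (s / r * K + K * c) * l1 n (φ i) := by
    intro i hi
    have hi' := hη i (mem_range.mp hi)
    rw [hsimp i] at hi'
    have ha : 0 ≤ l1 n (φ i) := by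
      rw [← hsimp i]
      exact norm_nonneg _
    have h8 := hN8 n (u i) (φ i) r K s hr hK hs hs1 (fun x _ => hφ i x) (hu2 i)
    have hq : 0 ≤ l1 n (φ i) / K := by positivity
    have h9 : (l1 n (φ i) / K) ^ (1 + s / 4) ≤ l1 n (φ i) / K * c := by
      rw [Real.rpow_one_add' hq (by positivity)]
      refine mul_le_mul_of_nonneg_left ?_ hq
      have h10 : l1 n (φ i) / K ≤ c ^ (4 / s) := by
        rw [div_le_iff₀ hK]
        linarith
      calc (l1 n (φ i) / K) ^ (s / 4) ≤ (c ^ (4 / s)) ^ (s / 4) :=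
            Real.rpow_le_rpow hq h10 (by positivity)
        _ = c := by
            rw [← Real.rpow_mul hc0.le]
            have : 4 / s * (s / 4) = 1 := by field_simp
            rw [this, Real.rpow_one]
    have h11 : K ^ 2 * (l1 n (φ i) / K) ^ (1 + s / 4) ≤ K * c * l1 n (φ i) := by
      calc K ^ 2 * (l1 n (φ i) / K) ^ (1 + s / 4) ≤ K ^ 2 * (l1 n (φ i) / K * c) := by
            gcongr
        _ = K * c * l1 n (φ i) := by field_simp
    calc ip n (u i) (u i) ≤ s / r * K * l1 n (φ i) + K ^ 2 * (l1 n (φ i) / K) ^ (1 + s / 4) := h8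
      _ ≤ s / r * K * l1 n (φ i) + K * c * l1 n (φ i) := by linarith
      _ = (s / r * K + K * c) * l1 n (φ i) := by ring
  have htot : ∑ i ∈ range N, ip n (u i) (u i) ≤ δ ^ 2 := by
    calc ∑ i ∈ range N, ip n (u i) (u i)
        ≤ ∑ i ∈ range N, (s / r * K + K * c) * l1 n (φ i) := Finset.sum_le_sum hbound
      _ = (s / r * K + K * c) * ∑ i ∈ range N, ‖cylL n (φ i)‖ := by
          rw [Finset.mul_sum]
          refine Finset.sum_congr rfl fun i _ => ?_
          rw [hsimp i]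
      _ ≤ (s / r * K + K * c) * M := by gcongr
      _ = s / r * K * M + K * M * c := by ring
      _ ≤ δ ^ 2 / 2 + δ ^ 2 / 2 := by
          refine add_le_add hsb (le_of_eq ?_)
          rw [hc]
          field_simp
      _ = δ ^ 2 := by ring
  calc √(∑ i ∈ range N, ip n (u i) (u i)) ≤ √(δ ^ 2) := Real.sqrt_le_sqrt htot
    _ = δ := Real.sqrt_sq hδ.le

end Pool.Agent.Exo
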