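import Pool.Agent.Lib.MP_935088_an.EX.Stm

set_option autoImplicit false

open MeasureTheory Filter Topology Finset

namespace Pool.Agent.Exo

private lemma Z2_small {Ω : Type} [MeasurableSpace Ω] {μ : Measure Ω} {A : Set Ω}
    (h : Diffuse μ A) (B : Set Ω) (hBA : B ⊆ A) (hBm : MeasurableSet B) (hB0 : 0 < μ B) (n : ℕ) :
    ∃ D ⊆ B, MeasurableSet D ∧ 0 < μ D ∧ 2 ^ n * μ.real D ≤ μ.real B := by
  obtain ⟨-, -, hAf, hd⟩ := h
  induction n with
  | zero => exact ⟨B, subset_rfl, hBm, hB0, by simp⟩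
  | succ n ih =>
    obtain ⟨D, hDB, hDm, hD0, hDn⟩ := ih
    obtain ⟨C, hCD, hCm, hC0, hClt⟩ := hd D (hDB.trans hBA) hDm hD0
    have hDf : μ D ≠ ⊤ := ((measure_mono (hDB.trans hBA)).trans_lt hAf).ne
    have hCf : μ C ≠ ⊤ := ((measure_mono hCD).trans_lt hDf.lt_top).ne
    have hr : μ.real (D \ C) = μ.real D - μ.real C := by
      rw [measureReal_sdiff hCD hCm hDf]
    have hCr : μ.real C < μ.real D := (ENNReal.toReal_lt_toReal hCf hDf).2 hClt
    have hDC0 : 0 < μ (D \ C) := by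
      have h1 : 0 < μ.real (D \ C) := by rw [hr]; linarith
      exact (ENNReal.toReal_pos_iff.1 h1).1
    rcases le_total (2 * μ.real C) (μ.real D) with h2 | h2
    · refine ⟨C, hCD.trans hDB, hCm, hC0, ?_⟩
      have : (2 : ℝ) ^ n * (2 * μ.real C) ≤ 2 ^ n * μ.real D :=
        mul_le_mul_of_nonneg_left h2 (by positivity)
      rw [pow_succ]
      linarith
    · refine ⟨D \ C, Set.sdiff_subset.trans hDB, hDm.diff hCm, hDC0, ?_⟩
      have : (2 : ℝ) ^ n * (2 * μ.real (D \ C)) ≤ 2 ^ n * μ.real D :=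
        mul_le_mul_of_nonneg_left (by rw [hr]; linarith) (by positivity)
      rw [pow_succ]
      linarith

theorem p_Z2 : S_Z2 := by
  intro Ω _ μ A h
  have hA := h
  obtain ⟨hAm, hA0, hAf, hd⟩ := h
  by_contra hcon
  push Not at hcon
  have ha : 0 < μ.real A := ENNReal.toReal_pos hA0.ne' hAf.ne
  have hcon' : ∀ C ⊆ A, MeasurableSet C → μ.real A / 3 ≤ μ.real C →
      2 * μ.real A / 3 < μ.real C := hcon
  have hmono : ∀ C D : Set Ω, C ⊆ D → D ⊆ A → μ.real C ≤ μ.real D := fun C D hCD hDA =>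
    measureReal_mono hCD ((measure_mono hDA).trans_lt hAf).ne
  -- the class
  set 𝒮 : Set (Set Ω) := {C | C ⊆ A ∧ MeasurableSet C ∧ μ.real C < μ.real A / 3} with h𝒮
  have hlow : ∀ C ⊆ A, MeasurableSet C → μ.real C ≤ 2 * μ.real A / 3 → C ∈ 𝒮 := by
    intro C hC hCm hCl
    refine ⟨hC, hCm, ?_⟩
    by_contra hge
    have := hcon' C hC hCm (not_lt.1 hge)
    linarith
  have hempty : (∅ : Set Ω) ∈ 𝒮 := hlow ∅ (Set.empty_subset _) MeasurableSet.empty (by
    simp; positivity)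
  have hunion : ∀ C ∈ 𝒮, ∀ D ∈ 𝒮, C ∪ D ∈ 𝒮 := by
    intro C hC D hD
    refine hlow _ (Set.union_subset hC.1 hD.1) (hC.2.1.union hD.2.1) ?_
    have := measureReal_union_le (μ := μ) C D
    linarith [hC.2.2, hD.2.2]
  -- the supremum
  set V : Set ℝ := (fun C => μ.real C) '' 𝒮 with hV
  have hVne : V.Nonempty := ⟨_, ∅, hempty, rfl⟩
  have hVb : BddAbove V := ⟨μ.real A / 3, by
    rintro _ ⟨C, hC, rfl⟩
    exact hC.2.2.le⟩
  have hle : ∀ C ∈ 𝒮, μ.real C ≤ sSup V := fun C hC => le_csSup hVb ⟨C, hC, rfl⟩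
  have hch : ∀ n : ℕ, ∃ C ∈ 𝒮, sSup V - 1 / ((n : ℝ) + 1) < μ.real C := by
    intro n
    have hlt : sSup V - 1 / ((n : ℝ) + 1) < sSup V := by
      have : 0 < 1 / ((n : ℝ) + 1) := by positivity
      linarith
    obtain ⟨_, ⟨C, hC, rfl⟩, hCl⟩ := exists_lt_of_lt_csSup hVne hlt
    exact ⟨C, hC, hCl⟩
  choose C hC hCl using hch
  set W : Set Ω := ⋃ n, partialSups C n with hW
  have hpm : ∀ n, partialSups C n ∈ 𝒮 := by
    intro n
    induction n with
    | zero => rw [partialSups_zero]; exact hC 0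
    | succ n ih => rw [partialSups_add_one]; exact hunion _ ih _ (hC _)
  have hWA : W ⊆ A := Set.iUnion_subset fun n => (hpm n).1
  have hWm : MeasurableSet W := MeasurableSet.iUnion fun n => (hpm n).2.1
  have hWf : μ W ≠ ⊤ := ((measure_mono hWA).trans_lt hAf).ne
  have hlim : Tendsto (fun n => μ.real (partialSups C n)) atTop (𝓝 (μ.real W)) := by
    have h1 := tendsto_measure_iUnion_atTop (μ := μ) (s := fun n => partialSups C n)
      (partialSups C).monotone
    exact (ENNReal.tendsto_toReal hWf).comp h1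
  have hWle : μ.real W ≤ μ.real A / 3 :=
    le_of_tendsto' hlim fun n => (hpm n).2.2.le
  have hWS : W ∈ 𝒮 := hlow W hWA hWm (by linarith)
  have hWs : sSup V ≤ μ.real W := by
    have h1 : ∀ n : ℕ, sSup V - 1 / ((n : ℝ) + 1) ≤ μ.real W := by
      intro n
      refine (hCl n).le.trans (hmono _ _ ?_ hWA)
      exact (le_partialSups C n).trans (Set.subset_iUnion (fun n => partialSups C n) n)
    have h2 : Tendsto (fun n : ℕ => sSup V - 1 / ((n : ℝ) + 1)) atTop (𝓝 (sSup V - 0)) :=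
      tendsto_const_nhds.sub tendsto_one_div_add_atTop_nhds_zero_nat
    rw [sub_zero] at h2
    exact le_of_tendsto' h2 h1
  -- the small set
  have hdr : μ.real (A \ W) = μ.real A - μ.real W := by rw [measureReal_sdiff hWA hWm hAf.ne]
  have hd0 : 0 < μ (A \ W) := by
    have h1 : 0 < μ.real (A \ W) := by rw [hdr]; linarith
    exact (ENNReal.toReal_pos_iff.1 h1).1
  obtain ⟨D, hDs, hDm, hD0, hDn⟩ := Z2_small hA (A \ W) Set.sdiff_subset (hAm.diff hWm) hd0 2
  have hDA : D ⊆ A := hDs.trans Set.sdiff_subset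
  have hDf : μ D ≠ ⊤ := ((measure_mono hDA).trans_lt hAf).ne
  have hDr : 0 < μ.real D := ENNReal.toReal_pos hD0.ne' hDf
  have hDle : 4 * μ.real D ≤ μ.real A := by
    have := hmono (A \ W) A Set.sdiff_subset subset_rfl
    norm_num at hDn
    linarith
  have hdisj : Disjoint W D := by
    rw [Set.disjoint_left]
    intro x hx hxD
    exact (hDs hxD).2 hx
  have hU : μ.real (W ∪ D) = μ.real W + μ.real D :=
    measureReal_union hdisj hDm hWf hDf
  have hUS : W ∪ D ∈ 𝒮 := hlow _ (Set.union_subset hWA hDA) (hWm.union hDm) (by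
    rw [hU]; linarith)
  have := hle _ hUS
  rw [hU] at this
  linarith

end Pool.Agent.Exo
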